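import Pool.Agent.K7.H84.AM.Real

/-!
The kinetic inequality for complex orthonormal systems with angular momenta in a finite set.
-/

set_option autoImplicit false

open MeasureTheory Set Filter Topology Metric

namespace Pool.Agent.K7.H84.AM

open Pool.Agent.R117.RL (E sg om sg_pos pow_frac grad2)

/-- A solid harmonic of degree `l`: the function of a real homogeneous polynomial of degree `l` with
vanishing Laplacian. -/
def SolidHarmonic {d : ℕ} (l : ℕ) (P : E d → ℝ) : Prop :=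
  ∃ p : MvPolynomial (Fin d) ℝ, p.IsHomogeneous l ∧
    ∑ i, MvPolynomial.pderiv i (MvPolynomial.pderiv i p) = 0 ∧
    ∀ x : E d, P x = MvPolynomial.eval (fun i => x i) p

/-- The function `u` is a finite sum of terms `G_j(|x|) P_j(x)`, where `P_j` is a solid harmonic with
a degree in `Λ` and `G_j` is a complex function, continuously differentiable on `(0, ∞)`. -/
def HasMomenta {d : ℕ} (Λ : Set ℕ) (u : E d → ℂ) : Prop :=
  ∃ (m : ℕ) (l : Fin m → ℕ) (P : Fin m → E d → ℝ) (G : Fin m → ℝ → ℂ),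
    (∀ j, l j ∈ Λ) ∧ (∀ j, SolidHarmonic (l j) (P j)) ∧ (∀ j, ContDiffOn ℝ 1 (G j) (Ioi 0)) ∧
    ∀ x, x ≠ 0 → u x = ∑ j, G j ‖x‖ * P j x

/-- An orthonormal system of functions with angular momenta in `Λ` and finite kinetic energy. -/
structure AngularSystem {d N : ℕ} (Λ : Set ℕ) (u : Fin N → E d → ℂ) : Prop where
  momenta : ∀ n, HasMomenta Λ (u n)
  square : ∀ n, Integrable (fun x => ‖u n x‖ ^ 2)
  energy : ∀ n, Integrable (grad2 (u n))
  orthonormal : ∀ n m, ∫ x, star (u n x) * u m x = if n = m then (1 : ℂ) else 0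

section
variable {k : ℕ} {J : Type} [Fintype J] [DecidableEq J]

theorem expand {L : Finset ℕ} {Y : J → MP (k + 1)}
    (hb : ∀ l ∈ L, ∀ p ∈ Harm k l, p = ∑ j, sp p (Y j) • Y j) {u : E (k + 1) → ℂ}
    (h : HasMomenta (L : Set ℕ) u) :
    ∃ G : J → ℝ → ℂ, (∀ j, ContDiffOn ℝ 1 (G j) (Ioi 0)) ∧
      ∀ x, x ≠ 0 → u x = ∑ j, G j ‖x‖ * (ev (Y j) x : ℂ) := by
  obtain ⟨m, l, P, G, hl, hP, hG, hu⟩ := h
  choose p hp1 hp2 hp3 using hP
  have hpH : ∀ i, p i ∈ Harm k (l i) := by
    intro i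
    refine ⟨hp1 i, ?_⟩
    rw [SetLike.mem_coe, LinearMap.mem_ker, lap_apply]
    exact hp2 i
  refine ⟨fun j r => ∑ i, G i r * (sp (p i) (Y j) : ℂ), fun j => ?_, fun x hx => ?_⟩
  · exact ContDiffOn.sum fun i _ => (hG i).mul contDiffOn_const
  · rw [hu x hx]
    have h1 : ∀ i, P i x = ∑ j, sp (p i) (Y j) * ev (Y j) x := by
      intro i
      rw [hp3 i x]
      have h2 : MvPolynomial.eval (fun i => x i) (p i) = ev (p i) x := rfl
      rw [h2]
      conv_lhs => rw [hb (l i) (hl i) (p i) (hpH i)]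
      rw [ev_sum]
      exact Finset.sum_congr rfl fun j _ => ev_smul _ _ _
    simp only [h1, Complex.ofReal_sum, Finset.mul_sum, Finset.sum_mul, Complex.ofReal_mul]
    rw [Finset.sum_comm]
    exact Finset.sum_congr rfl fun j _ => Finset.sum_congr rfl fun i _ => by ring

end

theorem bessel_c {k N : ℕ} {u : Fin N → E (k + 1) → ℂ}
    (hm : ∀ n, AEStronglyMeasurable (u n) volume)
    (h2 : ∀ n, Integrable (fun x => ‖u n x‖ ^ 2))
    (ho : ∀ n m, ∫ x, star (u n x) * u m x = if n = m then (1 : ℂ) else 0) (a b : Fin N → ℝ) :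
    ∫ x, (∑ n, a n * (u n x).re + ∑ n, b n * (u n x).im) ^ 2 ≤ ∑ n, a n ^ 2 + ∑ n, b n ^ 2 := by
  set c : Fin N → ℂ := fun n => ⟨a n, -b n⟩ with hc
  have hre : ∀ x, (∑ n, c n * u n x).re = ∑ n, a n * (u n x).re + ∑ n, b n * (u n x).im := by
    intro x
    rw [Complex.re_sum, ← Finset.sum_add_distrib]
    refine Finset.sum_congr rfl fun n _ => ?_
    rw [Complex.mul_re]
    simp only [hc]
    ring
  have hint : ∀ n m, Integrable (fun x => star (u n x) * u m x) := by
    intro n m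
    refine Integrable.mono' ((h2 n).add (h2 m)) ?_ ?_
    · exact (continuous_star.comp_aestronglyMeasurable (hm n)).mul (hm m)
    · refine Eventually.of_forall fun x => ?_
      rw [norm_mul, norm_star]
      simp only [Pi.add_apply]
      nlinarith [sq_nonneg (‖u n x‖ - ‖u m x‖), sq_nonneg (‖u n x‖), sq_nonneg (‖u m x‖)]
  have hexp : ∀ x, ((‖∑ n, c n * u n x‖ ^ 2 : ℝ) : ℂ) =
      ∑ n, ∑ m, (star (c n) * c m) * (star (u n x) * u m x) := by
    intro x
    have h1 : ((‖∑ n, c n * u n x‖ ^ 2 : ℝ) : ℂ) =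
        star (∑ n, c n * u n x) * (∑ n, c n * u n x) := by
      rw [Complex.star_def, ← Complex.normSq_eq_conj_mul_self, Complex.normSq_eq_norm_sq]
    rw [h1, star_sum, Finset.sum_mul]
    refine Finset.sum_congr rfl fun n _ => ?_
    rw [Finset.mul_sum]
    refine Finset.sum_congr rfl fun m _ => ?_
    rw [star_mul']
    ring
  have hsum : ((∫ x, ‖∑ n, c n * u n x‖ ^ 2 : ℝ) : ℂ) = ((∑ n, ‖c n‖ ^ 2 : ℝ) : ℂ) := by
    rw [← integral_complex_ofReal]
    simp only [hexp]
    rw [integral_finsetSum _ fun n _ => integrable_finsetSum _ fun m _ => (hint n m).const_mul _]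
    rw [Complex.ofReal_sum]
    refine Finset.sum_congr rfl fun n _ => ?_
    rw [integral_finsetSum _ fun m _ => (hint n m).const_mul _]
    simp only [integral_const_mul, ho]
    rw [Finset.sum_eq_single n]
    · rw [if_pos rfl, mul_one, Complex.star_def, ← Complex.normSq_eq_conj_mul_self,
        Complex.normSq_eq_norm_sq]
    · intro m _ hm'
      rw [if_neg fun h => hm' h.symm, mul_zero]
    · intro h
      exact absurd (Finset.mem_univ _) h
  have hsum' : ∫ x, ‖∑ n, c n * u n x‖ ^ 2 = ∑ n, ‖c n‖ ^ 2 := by exact_mod_cast hsum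
  have hcn : ∑ n, ‖c n‖ ^ 2 = ∑ n, a n ^ 2 + ∑ n, b n ^ 2 := by
    rw [← Finset.sum_add_distrib]
    refine Finset.sum_congr rfl fun n _ => ?_
    rw [← Complex.normSq_eq_norm_sq, Complex.normSq_apply]
    simp only [hc]
    ring
  rw [← hcn, ← hsum']
  have hmw : AEStronglyMeasurable (fun x => ∑ n, c n * u n x) volume :=
    Finset.aestronglyMeasurable_fun_sum _ fun n _ => (hm n).const_mul _
  have hiw : Integrable (fun x => ‖∑ n, c n * u n x‖ ^ 2) := by
    refine Integrable.mono' (g := fun x => (∑ n, ‖c n‖ ^ 2) * ∑ n, ‖u n x‖ ^ 2)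
      ((integrable_finsetSum _ fun n _ => h2 n).const_mul _) (hmw.norm.pow 2) ?_
    refine Eventually.of_forall fun x => ?_
    rw [Real.norm_eq_abs, abs_of_nonneg (sq_nonneg _)]
    have h1 : ‖∑ n, c n * u n x‖ ≤ ∑ n, ‖c n‖ * ‖u n x‖ :=
      (norm_sum_le _ _).trans (le_of_eq (Finset.sum_congr rfl fun n _ => norm_mul _ _))
    exact (pow_le_pow_left₀ (norm_nonneg _) h1 2).trans (Finset.sum_mul_sq_le_sq_mul_sq _ _ _)
  have hpt : ∀ x, (∑ n, a n * (u n x).re + ∑ n, b n * (u n x).im) ^ 2 ≤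
      ‖∑ n, c n * u n x‖ ^ 2 := by
    intro x
    rw [← hre x, ← sq_abs]
    exact pow_le_pow_left₀ (abs_nonneg _) (Complex.abs_re_le_norm _) 2
  exact integral_mono_of_nonneg (Eventually.of_forall fun x => sq_nonneg _) hiw
    (Eventually.of_forall hpt)

/-- **The kinetic inequality for systems with angular momenta in a finite set.** -/
theorem main_ineq {k N : ℕ} (hk : 1 ≤ k) (L : Finset ℕ)
    (hcc : ∀ l ∈ L, 0 < cc k l) {S : ℝ} (hS : 0 < S)
    (hSb : ∑ l ∈ L, cc k l ^ (-(k : ℝ) / 2) * (nh k l / sg (k + 1)) ≤ S)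
    (u : Fin N → E (k + 1) → ℂ) (h : AngularSystem (L : Set ℕ) u) :
    Integrable (fun x => (∑ n, ‖u n x‖ ^ 2) ^ (1 + 2 / ((k + 1 : ℕ) : ℝ))) ∧
    KA k S * ∫ x, (∑ n, ‖u n x‖ ^ 2) ^ (1 + 2 / ((k + 1 : ℕ) : ℝ)) ≤
      ∑ n, ∫ x, grad2 (u n) x := by
  obtain ⟨J, _, _, Y, dg, hY, ho, hker, hb⟩ := exists_basis hk L
  choose G hG hu using fun n => expand hb (h.momenta n)
  have hYH : ∀ j, Y j ∈ Harm k (dg j) := fun j => (hY j).2
  have hccj : ∀ j, 0 < cc k (dg j) := fun j => hcc _ (hY j).1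
  -- derivatives of the profiles
  have hGd : ∀ n j r, 0 < r → HasDerivAt (G n j) (deriv (G n j) r) r := fun n j r hr =>
    (((hG n j).differentiableOn one_ne_zero).differentiableAt (isOpen_Ioi.mem_nhds hr)).hasDerivAt
  have hGc : ∀ n j, ContinuousOn (deriv (G n j)) (Ioi 0) := fun n j =>
    (hG n j).continuousOn_deriv_of_isOpen isOpen_Ioi le_rfl
  set F : Fin (N + N) → J → ℝ → ℝ := fun i j r =>
    Fin.addCases (fun n => (G n j r).re) (fun n => (G n j r).im) i with hF
  set F' : Fin (N + N) → J → ℝ → ℝ := fun i j r =>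
    Fin.addCases (fun n => (deriv (G n j) r).re) (fun n => (deriv (G n j) r).im) i with hF'
  have hFl : ∀ n j r, F (Fin.castAdd N n) j r = (G n j r).re := fun n j r =>
    Fin.addCases_left (motive := fun _ => ℝ) n
  have hFr : ∀ n j r, F (Fin.natAdd N n) j r = (G n j r).im := fun n j r =>
    Fin.addCases_right (motive := fun _ => ℝ) n
  have hFl' : ∀ n j r, F' (Fin.castAdd N n) j r = (deriv (G n j) r).re := fun n j r =>
    Fin.addCases_left (motive := fun _ => ℝ) n
  have hFr' : ∀ n j r, F' (Fin.natAdd N n) j r = (deriv (G n j) r).im := fun n j r =>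
    Fin.addCases_right (motive := fun _ => ℝ) n
  have hFd : ∀ i j r, 0 < r → HasDerivAt (F i j) (F' i j r) r := by
    intro i j r hr
    refine Fin.addCases (fun n => ?_) (fun n => ?_) i
    · rw [hFl', show F (Fin.castAdd N n) j = fun r => (G n j r).re from funext (hFl n j)]
      exact Complex.reCLM.hasFDerivAt.comp_hasDerivAt r (hGd n j r hr)
    · rw [hFr', show F (Fin.natAdd N n) j = fun r => (G n j r).im from funext (hFr n j)]
      exact Complex.imCLM.hasFDerivAt.comp_hasDerivAt r (hGd n j r hr)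
  have hFc : ∀ i j, ContinuousOn (F' i j) (Ioi 0) := by
    intro i j
    refine Fin.addCases (fun n => ?_) (fun n => ?_) i
    · rw [show F' (Fin.castAdd N n) j = fun r => (deriv (G n j) r).re from funext (hFl' n j)]
      exact Complex.continuous_re.comp_continuousOn (hGc n j)
    · rw [show F' (Fin.natAdd N n) j = fun r => (deriv (G n j) r).im from funext (hFr' n j)]
      exact Complex.continuous_im.comp_continuousOn (hGc n j)
  -- the real and the imaginary parts
  have hvl : ∀ n x, x ≠ 0 → vv Y (F (Fin.castAdd N n)) x = (u n x).re := by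
    intro n x hx
    rw [hu n x hx, Complex.re_sum]
    unfold vv
    refine Finset.sum_congr rfl fun j _ => ?_
    rw [hFl, Complex.re_mul_ofReal]
  have hvr : ∀ n x, x ≠ 0 → vv Y (F (Fin.natAdd N n)) x = (u n x).im := by
    intro n x hx
    rw [hu n x hx, Complex.im_sum]
    unfold vv
    refine Finset.sum_congr rfl fun j _ => ?_
    rw [hFr, Complex.im_mul_ofReal]
  have hns : ∀ z : ℂ, ‖z‖ ^ 2 = z.re ^ 2 + z.im ^ 2 := fun z => by
    rw [← Complex.normSq_eq_norm_sq, Complex.normSq_apply]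
    ring
  have hgr : ∀ n x, x ≠ 0 → grad2 (u n) x = gr2 (vv Y (F (Fin.castAdd N n))) x +
      gr2 (vv Y (F (Fin.natAdd N n))) x := by
    intro n x hx
    have hr : 0 < ‖x‖ := norm_pos_iff.2 hx
    have h1 := vv_deriv Y hx (F := F (Fin.castAdd N n)) fun j => hFd _ j ‖x‖ hr
    have h2 := vv_deriv Y hx (F := F (Fin.natAdd N n)) fun j => hFd _ j ‖x‖ hr
    have h3 : u n =ᶠ[𝓝 x] fun y => (vv Y (F (Fin.castAdd N n)) y : ℂ) +
        Complex.I * (vv Y (F (Fin.natAdd N n)) y : ℂ) := by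
      filter_upwards [isOpen_compl_singleton.mem_nhds hx] with y hy
      rw [hvl n y hy, hvr n y hy, mul_comm]
      exact (Complex.re_add_im _).symm
    have h4 : HasFDerivAt (u n) ((Complex.ofRealCLM).comp (fderiv ℝ (vv Y (F (Fin.castAdd N n))) x) +
        Complex.I • (Complex.ofRealCLM).comp (fderiv ℝ (vv Y (F (Fin.natAdd N n))) x)) x := by
      refine HasFDerivAt.congr_of_eventuallyEq ?_ h3
      have h5 := h1.differentiableAt.hasFDerivAt
      have h6 := h2.differentiableAt.hasFDerivAt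
      exact (Complex.ofRealCLM.hasFDerivAt.comp x h5).add
        ((Complex.ofRealCLM.hasFDerivAt.comp x h6).const_mul Complex.I)
    unfold grad2 gr2
    rw [h4.fderiv, ← Finset.sum_add_distrib]
    refine Finset.sum_congr rfl fun i _ => ?_
    rw [hns]
    have e1 : ∀ a b : ℝ, ((a : ℂ) + Complex.I • (b : ℂ)).re = a := fun a b => by simp
    have e2 : ∀ a b : ℝ, ((a : ℂ) + Complex.I • (b : ℂ)).im = b := fun a b => by simp
    rw [add_apply, smul_apply, ContinuousLinearMap.comp_apply,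
      ContinuousLinearMap.comp_apply, Complex.ofRealCLM_apply, Complex.ofRealCLM_apply, e1, e2]
    rfl
  have hae : ∀ᵐ x : E (k + 1), x ≠ 0 := by
    rw [ae_iff]
    simp
  have hvm : ∀ {g : E (k + 1) → ℝ}, ContinuousOn g {0}ᶜ → AEStronglyMeasurable g volume := by
    intro g hg
    have h3 := hg.aestronglyMeasurable (μ := volume) isOpen_compl_singleton.measurableSet
    rwa [restrict_compl_singleton] at h3
  have hum : ∀ n, AEStronglyMeasurable (u n) volume := by
    intro n
    have h1 : AEStronglyMeasurable (fun x => (vv Y (F (Fin.castAdd N n)) x : ℂ) +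
        Complex.I * (vv Y (F (Fin.natAdd N n)) x : ℂ)) volume :=
      (Complex.continuous_ofReal.comp_aestronglyMeasurable (hvm (vv_cont (hFd _)))).add
        ((Complex.continuous_ofReal.comp_aestronglyMeasurable (hvm (vv_cont (hFd _)))).const_mul _)
    refine h1.congr ?_
    filter_upwards [hae] with x hx
    rw [hvl n x hx, hvr n x hx, mul_comm]
    exact Complex.re_add_im _
  have h2 : ∀ i, Integrable fun x => vv Y (F i) x ^ 2 := by
    intro i
    refine Fin.addCases (fun n => ?_) (fun n => ?_) i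
    · refine Integrable.mono' (h.square n) ((hvm (vv_cont (hFd _))).pow 2) ?_
      filter_upwards [hae] with x hx
      rw [Real.norm_eq_abs, abs_of_nonneg (sq_nonneg _), hvl n x hx, hns]
      linarith [sq_nonneg (u n x).im]
    · refine Integrable.mono' (h.square n) ((hvm (vv_cont (hFd _))).pow 2) ?_
      filter_upwards [hae] with x hx
      rw [Real.norm_eq_abs, abs_of_nonneg (sq_nonneg _), hvr n x hx, hns]
      linarith [sq_nonneg (u n x).re]
  have hgn : ∀ (v : E (k + 1) → ℝ) x, 0 ≤ gr2 v x := fun v x =>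
    Finset.sum_nonneg fun _ _ => sq_nonneg _
  have hd : ∀ i, Integrable (gr2 (vv Y (F i))) := by
    intro i
    refine Fin.addCases (fun n => ?_) (fun n => ?_) i
    · refine Integrable.mono' (h.energy n) (hvm (gr2_cont (hFd _) (hFc _))) ?_
      filter_upwards [hae] with x hx
      rw [Real.norm_eq_abs, abs_of_nonneg (hgn _ _), hgr n x hx]
      linarith [hgn (vv Y (F (Fin.natAdd N n))) x]
    · refine Integrable.mono' (h.energy n) (hvm (gr2_cont (hFd _) (hFc _))) ?_
      filter_upwards [hae] with x hx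
      rw [Real.norm_eq_abs, abs_of_nonneg (hgn _ _), hgr n x hx]
      linarith [hgn (vv Y (F (Fin.castAdd N n))) x]
  have hB : ∀ a : Fin (N + N) → ℝ, ∫ x, (∑ i, a i * vv Y (F i) x) ^ 2 ≤ ∑ i, a i ^ 2 := by
    intro a
    have h1 := bessel_c hum h.square h.orthonormal (fun n => a (Fin.castAdd N n))
      (fun n => a (Fin.natAdd N n))
    rw [Fin.sum_univ_add]
    refine le_trans (le_of_eq (integral_congr_ae ?_)) h1
    filter_upwards [hae] with x hx
    rw [Fin.sum_univ_add]
    simp only [hvl _ x hx, hvr _ x hx]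
  have hres := real_system hk hYH ho hS hccj (S := S) (fun ω => (hker
    (fun l => cc k l ^ (-(k : ℝ) / 2)) (fun l hl => Real.rpow_nonneg
      (hcc l hl).le _) ω).trans hSb) F F' hFd hFc h2 hd hB
  have hden : ∀ x, x ≠ 0 → ∑ i, vv Y (F i) x ^ 2 = ∑ n, ‖u n x‖ ^ 2 := by
    intro x hx
    rw [Fin.sum_univ_add, ← Finset.sum_add_distrib]
    refine Finset.sum_congr rfl fun n _ => ?_
    rw [hvl n x hx, hvr n x hx, hns]
  have hden' : (fun x => (∑ i, vv Y (F i) x ^ 2) ^ (1 + 2 / ((k + 1 : ℕ) : ℝ))) =ᵐ[volume]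
      fun x => (∑ n, ‖u n x‖ ^ 2) ^ (1 + 2 / ((k + 1 : ℕ) : ℝ)) := by
    filter_upwards [hae] with x hx
    rw [hden x hx]
  refine ⟨hres.1.congr hden', ?_⟩
  rw [← integral_congr_ae hden']
  refine hres.2.trans (le_of_eq ?_)
  rw [Fin.sum_univ_add, ← Finset.sum_add_distrib]
  refine Finset.sum_congr rfl fun n _ => ?_
  rw [← integral_add (hd _) (hd _)]
  refine integral_congr_ae ?_
  filter_upwards [hae] with x hx
  exact (hgr n x hx).symm

/-- a finite system has finitely many angular momenta -/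
theorem finite_momenta {d N : ℕ} {Λ : Set ℕ} {u : Fin N → E d → ℂ} (h : AngularSystem Λ u) :
    ∃ L : Finset ℕ, (L : Set ℕ) ⊆ Λ ∧ AngularSystem (L : Set ℕ) u := by
  classical
  choose m l P G h1 h2 h3 h4 using h.momenta
  refine ⟨Finset.univ.biUnion fun n => Finset.univ.image (l n), ?_, ?_⟩
  · intro x hx
    rw [Finset.mem_coe, Finset.mem_biUnion] at hx
    obtain ⟨n, _, hx⟩ := hx
    rw [Finset.mem_image] at hx
    obtain ⟨j, _, rfl⟩ := hx
    exact h1 n j
  · refine ⟨fun n => ⟨m n, l n, P n, G n, fun j => ?_, h2 n, h3 n, h4 n⟩, h.square, h.energy,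
      h.orthonormal⟩
    rw [Finset.mem_coe, Finset.mem_biUnion]
    exact ⟨n, Finset.mem_univ _, Finset.mem_image_of_mem _ (Finset.mem_univ _)⟩

/-- **The kinetic inequality for systems with angular momenta in a set.** -/
theorem main_set {k N : ℕ} (hk : 1 ≤ k) (Λ : Set ℕ)
    (hcc : ∀ l ∈ Λ, 0 < cc k l) {S : ℝ} (hS : 0 < S)
    (hSb : ∀ L : Finset ℕ, (L : Set ℕ) ⊆ Λ →
      ∑ l ∈ L, cc k l ^ (-(k : ℝ) / 2) * (nh k l / sg (k + 1)) ≤ S)
    (u : Fin N → E (k + 1) → ℂ) (h : AngularSystem Λ u) :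
    Integrable (fun x => (∑ n, ‖u n x‖ ^ 2) ^ (1 + 2 / ((k + 1 : ℕ) : ℝ))) ∧
    KA k S * ∫ x, (∑ n, ‖u n x‖ ^ 2) ^ (1 + 2 / ((k + 1 : ℕ) : ℝ)) ≤
      ∑ n, ∫ x, grad2 (u n) x := by
  obtain ⟨L, hL, hu⟩ := finite_momenta h
  exact main_ineq hk L (fun l hl => hcc l (hL hl)) hS (hSb L hL) u hu

end Pool.Agent.K7.H84.AM
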