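import Pool.Agent.K7.H84.AM.Cst

/-!
Systems whose angular momenta are in a thin set.
-/

set_option autoImplicit false

open MeasureTheory Set Filter Topology Metric

namespace Pool.Agent.K7.H84.AM

open Pool.Agent.R117.RL (E sg om sg_pos pow_frac Kcl grad2 om_pos Ga Ga_two Ga_three)

/-- The kinetic inequality with the constant `K` for all orthonormal systems with angular momenta in
`Λ`, in dimension `d`; the integral of the density to the power `1 + 2 / d` converges. -/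
def AngularBound (d : ℕ) (Λ : Set ℕ) (K : ℝ) : Prop :=
  ∀ (N : ℕ) (u : Fin N → E d → ℂ), AngularSystem Λ u →
    Integrable (fun x : E d => (∑ n, ‖u n x‖ ^ 2) ^ (1 + 2 / (d : ℝ))) ∧
    K * (∫ x : E d, (∑ n, ‖u n x‖ ^ 2) ^ (1 + 2 / (d : ℝ))) ≤ ∑ n, ∫ x, grad2 (u n) x

theorem AngularBound.mono {d : ℕ} {Λ : Set ℕ} {K K' : ℝ} (h : AngularBound d Λ K) (hK : K' ≤ K) :
    AngularBound d Λ K' := by
  intro N u hu
  refine ⟨(h N u hu).1, le_trans (mul_le_mul_of_nonneg_right hK ?_) (h N u hu).2⟩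
  exact integral_nonneg fun x => Real.rpow_nonneg (Finset.sum_nonneg fun n _ => sq_nonneg _) _

theorem bound_general {k : ℕ} (hk : 1 ≤ k) (Λ : Set ℕ)
    (hcc : ∀ l ∈ Λ, 0 < cc k l) {S : ℝ} (hS : 0 < S)
    (hSb : ∀ L : Finset ℕ, (L : Set ℕ) ⊆ Λ →
      ∑ l ∈ L, cc k l ^ (-(k : ℝ) / 2) * (nh k l / sg (k + 1)) ≤ S) :
    AngularBound (k + 1) Λ (KA k S) := fun _ u hu =>
  main_set hk Λ hcc hS hSb u hu

theorem bound_theta {k : ℕ} (hk : 1 ≤ k) (Λ : Set ℕ) {W θ : ℝ}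
    (hcc : ∀ l ∈ Λ, 0 < cc k l) (hW : 0 < W)
    (hSb : ∀ L : Finset ℕ, (L : Set ℕ) ⊆ Λ →
      ∑ l ∈ L, cc k l ^ (-(k : ℝ) / 2) * (nh k l / sg (k + 1)) ≤
        2 / ((k - 1).factorial * sg (k + 1)) * W)
    (h : θ ^ (k + 1) * W ^ 2 ≤ AA k) :
    AngularBound (k + 1) Λ (θ * Kcl (k + 1)) := by
  have hsg := sg_pos (Nat.succ_pos k)
  rw [Nat.succ_eq_add_one] at hsg
  exact (bound_general hk Λ hcc (by positivity) hSb).mono (KA_ge hk hW h)

theorem nh_one {l : ℕ} (hl : 1 ≤ l) : nh 1 l = 2 := by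
  unfold nh
  obtain ⟨m, rfl⟩ : ∃ m, l = m + 1 := ⟨l - 1, by omega⟩
  have h1 : (m + 1 + 1).choose (m + 1) = m + 2 := by
    rw [Nat.choose_succ_self_right]
  rw [h1]
  split_ifs with h2
  · obtain ⟨q, rfl⟩ : ∃ q, m = q + 1 := ⟨m - 1, by omega⟩
    have h3 : (q + 1 + 1 - 2 + 1).choose (q + 1 + 1 - 2) = q + 1 := by
      rw [show q + 1 + 1 - 2 = q by omega, Nat.choose_succ_self_right]
    rw [h3]
    push_cast
    ring
  · have : m = 0 := by omega
    subst this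
    norm_num

theorem V_le {n l : ℕ} (h : 1 / 2 < mu (n + 2) l) :
    V n l ≤ (1 - 1 / (4 * mu (n + 2) l ^ 2))⁻¹ := by
  have hm2 : 1 / 4 < mu (n + 2) l ^ 2 := by nlinarith
  have hm0 : 0 < mu (n + 2) l ^ 2 := by linarith
  have h1 : 0 < 1 - 1 / (4 * mu (n + 2) l ^ 2) := by
    rw [sub_pos, div_lt_one (by positivity)]
    linarith
  by_cases hn : n = 1
  · subst hn
    have hc : cc (1 + 2) l = mu (1 + 2) l ^ 2 - 1 / 4 := cc_mu _ _
    have hc0 : 0 < cc (1 + 2) l := by rw [hc]; linarith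
    unfold V
    have e1 : -(((1 : ℕ) : ℝ) + 1) / 2 = -1 := by norm_num
    have e2 : Q 1 l = mu (1 + 2) l ^ 2 := by
      unfold Q
      rw [Nat.factorial_succ]
      have h3 : (l.factorial : ℝ) ≠ 0 := by positivity
      unfold mu
      push_cast
      field_simp
      ring
    rw [e1, Real.rpow_neg_one, e2, hc]
    have h5 : mu (1 + 2) l ^ 2 - 1 / 4 ≠ 0 := by rw [← hc]; exact hc0.ne'
    have h6 : 1 - 1 / (4 * mu (1 + 2) l ^ 2) = (mu (1 + 2) l ^ 2)⁻¹ * (mu (1 + 2) l ^ 2 - 1 / 4) := by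
      field_simp
    rw [h6, mul_inv, inv_inv]
    exact le_of_eq (mul_comm _ _)
  · refine (V_bound h).trans ?_
    apply mul_le_of_le_one_right (inv_nonneg.2 h1.le)
    rw [Real.exp_le_one_iff, neg_nonpos]
    apply div_nonneg _ (by positivity)
    rcases Nat.lt_or_ge n 2 with h2 | h2
    · have : n = 0 := by omega
      subst this
      simp
    · have : (2 : ℝ) ≤ n := by exact_mod_cast h2
      have h3 : (0 : ℝ) ≤ (n : ℝ) - 2 := by linarith
      positivity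

theorem AA_one : AA 1 = Real.pi ^ 2 / 4 := by
  unfold AA
  rw [show (1 : ℕ) + 1 = 2 from rfl, Ga_two]
  norm_num [Nat.factorial]
  ring

theorem AA_two : AA 2 = 125 / 144 := by
  unfold AA
  have hπ := Real.pi_pos
  have hs : √Real.pi ^ 2 = Real.pi := Real.sq_sqrt Real.pi_pos.le
  have hs4 : √Real.pi ^ 4 = Real.pi ^ 2 := by
    rw [show (4 : ℕ) = 2 * 2 from rfl, pow_mul, hs]
  rw [show (2 : ℕ) + 1 = 3 from rfl, Ga_three, mul_pow, hs4]
  norm_num [Nat.factorial]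
  field_simp
  norm_num

/-- the size of the summands -/
theorem summand_le {n l : ℕ} (hl : 1 ≤ l) {A : ℝ} (hA : 0 ≤ A)
    (h0 : n = 0 → (9 / 8) ^ 2 ≤ A ^ 2) (h1 : 1 ≤ n → (16 / 15) ^ 3 ≤ A ^ 2) :
    V n l / √(cc (n + 2) l) ≤ A * (1 / mu (n + 2) l) := by
  have hl' : (1 : ℝ) ≤ l := by exact_mod_cast hl
  have hn0 : (0 : ℝ) ≤ n := Nat.cast_nonneg n
  have hmu : 1 + ((n : ℝ) + 1) / 2 ≤ mu (n + 2) l := by
    unfold mu
    push_cast
    linarith
  have hmu0 : 0 < mu (n + 2) l := by linarith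
  have hmuh : 1 / 2 < mu (n + 2) l := by linarith
  have hc : 0 < cc (n + 2) l := by
    rw [cc_mu]
    nlinarith
  set m := mu (n + 2) l with hm
  have hm2 : 9 / 4 ≤ m ^ 2 := by nlinarith
  set q := 1 - 1 / (4 * m ^ 2) with hq
  have hq8 : 8 / 9 ≤ q := by
    have : 1 / (4 * m ^ 2) ≤ 1 / 9 := one_div_le_one_div_of_le (by norm_num) (by linarith)
    linarith
  have hq0 : 0 < q := by linarith
  have hcq : cc (n + 2) l = m ^ 2 * q := by
    rw [cc_mu, hq, ← hm]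
    field_simp
  have hV0 := V_nonneg hc
  rw [div_le_iff₀ (Real.sqrt_pos.2 hc)]
  apply le_of_sq_le_sq _ (by positivity)
  rw [mul_pow, mul_pow, Real.sq_sqrt hc.le, hcq, div_pow, one_pow]
  have e1 : A ^ 2 * (1 / m ^ 2) * (m ^ 2 * q) = A ^ 2 * q := by
    field_simp
  rw [e1]
  rcases Nat.eq_zero_or_pos n with hn | hn
  · have h2 := V_sq hc
    subst hn
    have h3 : Q 0 l = m := by
      unfold Q
      have h3 : (l.factorial : ℝ) ≠ 0 := by positivity
      rw [show l + 0 = l from rfl, div_self h3, mul_one]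
    rw [h3, hcq, zero_add, pow_one] at h2
    have h4 : V 0 l ^ 2 * q = 1 := by
      have h5 : m ^ 2 * (V 0 l ^ 2 * q) = m ^ 2 * 1 := by linarith
      exact mul_left_cancel₀ (by positivity) h5
    have h5 := h0 rfl
    have h6 : (8 / 9) ^ 2 ≤ q ^ 2 := pow_le_pow_left₀ (by norm_num) hq8 2
    have h7 : 1 ≤ A ^ 2 * q ^ 2 := by
      calc (1 : ℝ) = (9 / 8) ^ 2 * (8 / 9) ^ 2 := by norm_num
        _ ≤ A ^ 2 * q ^ 2 := mul_le_mul h5 h6 (by norm_num) (sq_nonneg _)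
    by_contra hcon
    rw [not_le] at hcon
    have := mul_lt_mul_of_pos_right hcon hq0
    nlinarith
  · have hn1 : (1 : ℝ) ≤ n := by exact_mod_cast hn
    have hm4 : 4 ≤ m ^ 2 := by nlinarith
    have hq15 : 15 / 16 ≤ q := by
      have : 1 / (4 * m ^ 2) ≤ 1 / 16 := one_div_le_one_div_of_le (by norm_num) (by linarith)
      linarith
    have h2 : V n l ≤ q⁻¹ := V_le hmuh
    have h3 : V n l ^ 2 ≤ (q⁻¹) ^ 2 := pow_le_pow_left₀ hV0 h2 2
    refine h3.trans ?_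
    have h5 := h1 hn
    have h6 : (15 / 16) ^ 3 ≤ q ^ 3 := pow_le_pow_left₀ (by norm_num) hq15 3
    have h7 : 1 ≤ A ^ 2 * q ^ 3 := by
      calc (1 : ℝ) = (16 / 15) ^ 3 * (15 / 16) ^ 3 := by norm_num
        _ ≤ A ^ 2 * q ^ 3 := mul_le_mul h5 h6 (by norm_num) (sq_nonneg _)
    rw [inv_pow, inv_le_iff_one_le_mul₀ (by positivity)]
    calc (1 : ℝ) ≤ A ^ 2 * q ^ 3 := h7
      _ = _ := by ring

/-- **thin sets of angular momenta** -/
theorem thin {d : ℕ} (hd : 2 ≤ d) (Λ : Set ℕ) (hΛ : ∀ l ∈ Λ, 1 ≤ l)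
    (hs : ∀ L : Finset ℕ, (L : Set ℕ) ⊆ Λ → ∑ l ∈ L, 1 / (2 * (l : ℝ) + d - 2) ≤ 6 / (5 * d)) :
    AngularBound d Λ (Kcl d) := by
  obtain ⟨k, rfl⟩ : ∃ k, d = k + 1 := ⟨d - 1, by omega⟩
  have hk : 1 ≤ k := by omega
  have hk' : (1 : ℝ) ≤ k := by exact_mod_cast hk
  have hsg := sg_pos (Nat.succ_pos k)
  rw [Nat.succ_eq_add_one] at hsg
  have hmu : ∀ l ∈ Λ, 1 ≤ mu k l := by
    intro l hl
    have h1 : (1 : ℝ) ≤ l := by exact_mod_cast hΛ l hl
    unfold mu
    linarith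
  have hcc : ∀ l ∈ Λ, 0 < cc k l := by
    intro l hl
    rw [cc_mu]
    nlinarith [hmu l hl]
  have hsum : ∀ L : Finset ℕ, (L : Set ℕ) ⊆ Λ → ∑ l ∈ L, 1 / mu k l ≤ 12 / (5 * (k + 1)) := by
    intro L hL
    have h1 := hs L hL
    have h2 : ∑ l ∈ L, 1 / mu k l = 2 * ∑ l ∈ L, 1 / (2 * (l : ℝ) + ((k + 1 : ℕ) : ℝ) - 2) := by
      rw [Finset.mul_sum]
      refine Finset.sum_congr rfl fun l hl => ?_
      have h3 := hmu l (hL hl)
      have h4 : 2 * (l : ℝ) + ((k + 1 : ℕ) : ℝ) - 2 = 2 * mu k l := by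
        unfold mu
        push_cast
        ring
      rw [h4]
      have : mu k l ≠ 0 := by linarith
      field_simp
    rw [h2]
    push_cast at h1 ⊢
    calc 2 * ∑ l ∈ L, 1 / (2 * (l : ℝ) + ((k : ℝ) + 1) - 2) ≤ 2 * (6 / (5 * ((k : ℝ) + 1))) :=
          mul_le_mul_of_nonneg_left h1 (by norm_num)
      _ = _ := by ring
  have hBB := BB_ge k hk
  have hk1 : (0 : ℝ) < (k : ℝ) + 1 := by linarith
  -- the main step
  have key : ∀ A : ℝ, 0 < A → A ^ 2 * (12 / (5 * (k + 1))) ^ 2 ≤ AA k →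
      (∀ l ∈ Λ, cc k l ^ (-(k : ℝ) / 2) * (nh k l / sg (k + 1)) ≤
        2 / ((k - 1).factorial * sg (k + 1)) * (A * (1 / mu k l))) →
      AngularBound (k + 1) Λ (Kcl (k + 1)) := by
    intro A hA hA2 hterm
    have h := bound_theta hk Λ (W := A * (12 / (5 * (k + 1)))) (θ := 1) hcc (by positivity) (by
      intro L hL
      have h1 : ∑ l ∈ L, cc k l ^ (-(k : ℝ) / 2) * (nh k l / sg (k + 1)) ≤
          ∑ l ∈ L, 2 / ((k - 1).factorial * sg (k + 1)) * (A * (1 / mu k l)) :=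
        Finset.sum_le_sum fun l hl => hterm l (hL hl)
      refine h1.trans ?_
      rw [← Finset.mul_sum, ← Finset.mul_sum]
      apply mul_le_mul_of_nonneg_left _ (by positivity)
      exact mul_le_mul_of_nonneg_left (hsum L hL) hA.le) (by
      rw [one_pow, one_mul, mul_pow]
      exact hA2)
    rwa [one_mul] at h
  rcases Nat.lt_or_ge k 2 with h2 | h2
  · have : k = 1 := by omega
    subst this
    have h43 : (0 : ℝ) < 4 / 3 := by norm_num
    refine key (√(4 / 3)) (Real.sqrt_pos.2 h43) ?_ ?_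
    · rw [Real.sq_sqrt h43.le, AA_one]
      have := Real.pi_gt_three
      push_cast
      nlinarith
    · intro l hl
      rw [nh_one (hΛ l hl)]
      have hl' : (1 : ℝ) ≤ l := by exact_mod_cast hΛ l hl
      have hm : mu 1 l = l := by
        unfold mu
        push_cast
        ring
      have hc : cc 1 l = (l : ℝ) ^ 2 - 1 / 4 := by rw [cc_mu, hm]
      have hc0 := hcc l hl
      have e1 : cc 1 l ^ (-((1 : ℕ) : ℝ) / 2) = (√(cc 1 l))⁻¹ := by
        rw [Real.sqrt_eq_rpow, ← Real.rpow_neg hc0.le]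
        congr 1
        push_cast
        ring
      rw [e1, hm]
      have h5 : (√(cc 1 l))⁻¹ ≤ √(4 / 3) * (1 / l) := by
        rw [inv_le_iff_one_le_mul₀ (Real.sqrt_pos.2 hc0)]
        have h6 : √(4 / 3) * (1 / (l : ℝ)) * √(cc 1 l) = √(4 / 3 * cc 1 l) * (1 / l) := by
          rw [Real.sqrt_mul h43.le]
          ring
        rw [h6, mul_one_div, one_le_div (by linarith)]
        apply Real.le_sqrt_of_sq_le
        rw [hc]
        nlinarith
      have e2 : 2 / (((1 - 1 : ℕ).factorial : ℝ) * sg (1 + 1)) = 2 / sg (1 + 1) := by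
        simp
      rw [e2, mul_comm]
      exact mul_le_mul_of_nonneg_left h5 (by positivity)
  · obtain ⟨n, rfl⟩ : ∃ n, k = n + 2 := ⟨k - 2, by omega⟩
    rcases Nat.eq_zero_or_pos n with hn | hn
    · subst hn
      refine key (9 / 8) (by norm_num) ?_ ?_
      · rw [show (0 : ℕ) + 2 = 2 from rfl, AA_two]
        norm_num
      · intro l hl
        have h3 := term_eq (hcc l hl)
        rw [h3, show 0 + 2 - 1 = 0 + 1 from rfl]
        apply mul_le_mul_of_nonneg_left _ (by positivity)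
        exact summand_le (hΛ l hl) (by norm_num) (fun _ => le_rfl) (fun h => absurd h (by norm_num))
    · have h3 : (0 : ℝ) < (16 / 15) ^ 3 := by norm_num
      refine key (√((16 / 15) ^ 3)) (Real.sqrt_pos.2 h3) ?_ ?_
      · have e3 : (12 / (5 * (((n + 2 : ℕ) : ℝ) + 1))) ^ 2 =
            144 / (25 * (((n + 2 : ℕ) : ℝ) + 1) ^ 2) := by
          rw [div_pow, mul_pow]
          norm_num
        rw [Real.sq_sqrt h3.le, e3, ← mul_div_assoc, div_le_iff₀ (by positivity)]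
        calc (16 / 15 : ℝ) ^ 3 * 144 ≤ 7 * 25 := by norm_num
          _ ≤ (AA (n + 2) * (((n + 2 : ℕ) : ℝ) + 1) ^ 2) * 25 :=
              mul_le_mul_of_nonneg_right hBB (by norm_num)
          _ = _ := by ring
      · intro l hl
        have h4 := term_eq (hcc l hl)
        rw [h4, show n + 2 - 1 = n + 1 by omega]
        apply mul_le_mul_of_nonneg_left _ (by positivity)
        refine summand_le (hΛ l hl) (Real.sqrt_nonneg _) (fun h => absurd h (by omega)) (fun _ => ?_)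
        rw [Real.sq_sqrt h3.le]

end Pool.Agent.K7.H84.AM
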