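import Pool.Agent.K7.H84.AM.Prod

/-!
Comparison of the constants with the semiclassical constant.
-/

set_option autoImplicit false

open MeasureTheory Set Filter Topology Metric

namespace Pool.Agent.K7.H84.AM

open Pool.Agent.R117.RL (E sg om sg_pos pow_frac Ga Ga_pos Ga_step Ga_two Ga_three Ga_four Kcl
  Kcl_pow sg_sq)

/-- the constant in the comparison -/
noncomputable def AA (k : ℕ) : ℝ :=
  ((k : ℝ) + 3) ^ (k + 1) * (Real.pi ^ 2 / 16) * ((k : ℝ) + 1) ^ 2 * ((k - 1).factorial : ℝ) ^ 2 /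
    (4 ^ (k + 1) * (k : ℝ) ^ k * Ga (k + 1) ^ 4)

/-- an upper bound of the logarithm -/
theorem log_le_pade {x : ℝ} (hx : 0 ≤ x) : Real.log (1 + x) ≤ x * (x + 6) / (4 * x + 6) := by
  have h1 : MonotoneOn (fun x : ℝ => x * (x + 6) / (4 * x + 6) - Real.log (1 + x)) (Ici 0) := by
    have hd : ∀ y : ℝ, 0 ≤ y → HasDerivAt (fun x : ℝ => x * (x + 6) / (4 * x + 6) - Real.log (1 + x))
        (((1 * (y + 6) + y * 1) * (4 * y + 6) - (y * (y + 6)) * (4 * 1)) / (4 * y + 6) ^ 2 -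
          1 / (1 + y)) y := by
      intro y hy
      have h4 : (4 * y + 6) ≠ 0 := by positivity
      have h5 : (1 + y) ≠ 0 := by positivity
      have e1 : HasDerivAt (fun x : ℝ => x * (x + 6)) (1 * (y + 6) + y * 1) y :=
        (hasDerivAt_id' y).mul ((hasDerivAt_id' y).add_const 6)
      have e2 : HasDerivAt (fun x : ℝ => 4 * x + 6) (4 * 1) y :=
        ((hasDerivAt_id' y).const_mul 4).add_const 6
      have e3 : HasDerivAt (fun x : ℝ => Real.log (1 + x)) (1 / (1 + y)) y :=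
        ((hasDerivAt_id' y).const_add 1).log h5
      exact (e1.div e2 h4).sub e3
    apply monotoneOn_of_deriv_nonneg (convex_Ici 0)
    · exact fun y hy => (hd y hy).continuousAt.continuousWithinAt
    · intro y hy
      rw [interior_Ici] at hy
      exact (hd y (le_of_lt hy)).differentiableAt.differentiableWithinAt
    · intro y hy
      rw [interior_Ici] at hy
      have hy0 : (0 : ℝ) < y := hy
      rw [(hd y hy0.le).deriv]
      have e : ((1 * (y + 6) + y * 1) * (4 * y + 6) - (y * (y + 6)) * (4 * 1)) / (4 * y + 6) ^ 2 -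
          1 / (1 + y) = 4 * y ^ 3 / ((4 * y + 6) ^ 2 * (1 + y)) := by
        field_simp
        ring
      rw [e]
      positivity
  have h2 := h1 (by simp : (0 : ℝ) ∈ Ici 0) (show x ∈ Ici 0 from hx) hx
  simp only [add_zero, Real.log_one, zero_mul, zero_div, sub_zero] at h2
  linarith

/-- the quotient of consecutive constants -/
theorem ratio_ge {n : ℝ} (hn : 9 ≤ n) (m : ℕ) (hm : (m : ℝ) = n) :
    1 ≤ ((n + 2) / n) ^ 2 * ((n + 4) / (n + 2)) ^ (m + 2) * ((n - 1) / (n + 1)) ^ (m + 1) := by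
  have h1 : 0 < n := by linarith
  have h2 : 0 < n - 1 := by linarith
  have hpos : 0 < ((n + 2) / n) ^ 2 * ((n + 4) / (n + 2)) ^ (m + 2) * ((n - 1) / (n + 1)) ^ (m + 1) := by
    positivity
  rw [← Real.log_nonneg_iff hpos, Real.log_mul (by positivity) (by positivity),
    Real.log_mul (by positivity) (by positivity), Real.log_pow, Real.log_pow, Real.log_pow]
  have e1 : (n + 2) / n = 1 + 2 / n := by
    field_simp
  have e2 : (n + 4) / (n + 2) = 1 + 2 / (n + 2) := by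
    field_simp
    ring
  have e3 : (n - 1) / (n + 1) = (1 + 2 / (n - 1))⁻¹ := by
    field_simp
    ring
  have f1 := Real.le_log_one_add_of_nonneg (x := 2 / n) (by positivity)
  have f2 := Real.le_log_one_add_of_nonneg (x := 2 / (n + 2)) (by positivity)
  have f3 := log_le_pade (x := 2 / (n - 1)) (by positivity)
  rw [e1, e2, e3, Real.log_inv]
  push_cast
  rw [hm]
  have g1 : 2 * (2 / n) / (2 / n + 2) = 2 / (n + 1) := by
    field_simp
    ring
  have g2 : 2 * (2 / (n + 2)) / (2 / (n + 2) + 2) = 2 / (n + 3) := by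
    field_simp
    ring
  have g3 : 2 / (n - 1) * (2 / (n - 1) + 6) / (4 * (2 / (n - 1)) + 6) =
      2 * (3 * n - 2) / ((n - 1) * (3 * n + 1)) := by
    field_simp
    ring
  rw [g1] at f1
  rw [g2] at f2
  rw [g3] at f3
  have k1 : 0 ≤ 2 * (2 / (n + 1)) + (n + 2) * (2 / (n + 3)) -
      (n + 1) * (2 * (3 * n - 2) / ((n - 1) * (3 * n + 1))) := by
    have e : 2 * (2 / (n + 1)) + (n + 2) * (2 / (n + 3)) -
      (n + 1) * (2 * (3 * n - 2) / ((n - 1) * (3 * n + 1))) =
      4 * (n ^ 2 - 8 * n - 1) /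
        ((n + 1) * (n + 3) * (n - 1) * (3 * n + 1)) := by
      field_simp
      ring
    rw [e]
    apply div_nonneg _ (by positivity)
    obtain ⟨s, hs, rfl⟩ : ∃ s : ℝ, 0 ≤ s ∧ n = s + 9 := ⟨n - 9, by linarith, by ring⟩
    ring_nf
    positivity
  have k2 : (n + 2) * (2 / (n + 3)) ≤ (n + 2) * Real.log (1 + 2 / (n + 2)) :=
    mul_le_mul_of_nonneg_left f2 (by linarith)
  have k3 : (n + 1) * Real.log (1 + 2 / (n - 1)) ≤
      (n + 1) * (2 * (3 * n - 2) / ((n - 1) * (3 * n + 1))) :=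
    mul_le_mul_of_nonneg_left f3 (by linarith)
  linarith

theorem AA_pos {k : ℕ} (hk : 1 ≤ k) : 0 < AA k := by
  have := Ga_pos (k + 1)
  have hk' : (0 : ℝ) < k := by exact_mod_cast hk
  have := Real.pi_pos
  unfold AA
  positivity

theorem BB_step {k : ℕ} (hk : 8 ≤ k) :
    AA k * ((k : ℝ) + 1) ^ 2 ≤ AA (k + 2) * (((k + 2 : ℕ) : ℝ) + 1) ^ 2 := by
  have hk' : (8 : ℝ) ≤ k := by exact_mod_cast hk
  have hk0 : (0 : ℝ) < k := by linarith
  have h := ratio_ge (n := (k : ℝ) + 1) (by linarith) (k + 1) (by push_cast; ring)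
  have hA := AA_pos (show 1 ≤ k by omega)
  have e : AA (k + 2) * (((k + 2 : ℕ) : ℝ) + 1) ^ 2 = AA k * ((k : ℝ) + 1) ^ 2 *
      ((((k : ℝ) + 1 + 2) / ((k : ℝ) + 1)) ^ 2 * ((((k : ℝ) + 1) + 4) / (((k : ℝ) + 1) + 2)) ^ (k + 1 + 2) *
        ((((k : ℝ) + 1) - 1) / (((k : ℝ) + 1) + 1)) ^ (k + 1 + 1)) := by
    obtain ⟨j, rfl⟩ : ∃ j, k = j + 1 := ⟨k - 1, by omega⟩
    unfold AA
    have hG := (Ga_pos (j + 1 + 1)).ne'
    have hstep : Ga (j + 1 + 2 + 1) = ((((j + 1 + 1 : ℕ) : ℝ) + 2) / 2) * Ga (j + 1 + 1) :=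
      Ga_step (j + 1 + 1)
    rw [hstep, show j + 1 + 2 - 1 = j + 1 + 1 by omega, show j + 1 - 1 = j by omega,
      Nat.factorial_succ, Nat.factorial_succ]
    have hj : (j.factorial : ℝ) ≠ 0 := by positivity
    push_cast
    have a1 : (j : ℝ) + 1 ≠ 0 := by positivity
    have a2 : (j : ℝ) + 2 ≠ 0 := by positivity
    have a3 : (j : ℝ) + 3 ≠ 0 := by positivity
    have a4 : (j : ℝ) + 4 ≠ 0 := by positivity
    have a5 : (j : ℝ) + 6 ≠ 0 := by positivity
    have b1 : (j : ℝ) + 1 + 2 + 3 = j + 6 := by ring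
    have b2 : (j : ℝ) + 1 + 2 + 1 = j + 4 := by ring
    have b3 : (j : ℝ) + 1 + 1 + 2 = j + 4 := by ring
    have b4 : (j : ℝ) + 1 + 3 = j + 4 := by ring
    have b5 : (j : ℝ) + 1 + 1 + 4 = j + 6 := by ring
    have b6 : (j : ℝ) + 1 + 1 - 1 = j + 1 := by ring
    have b7 : (j : ℝ) + 1 + 1 + 1 = j + 3 := by ring
    have b8 : (j : ℝ) + 1 + 1 = j + 2 := by ring
    have b9 : (j : ℝ) + 1 + 2 = j + 3 := by ring
    rw [b1, b2, b3, b4, b5, b6, b7, b8, b9]
    rw [div_pow ((j : ℝ) + 6), div_pow ((j : ℝ) + 1)]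
    field_simp
    ring
  rw [e]
  have h0 : 0 ≤ AA k * ((k : ℝ) + 1) ^ 2 := by positivity
  exact le_mul_of_one_le_right h0 h

theorem BB_ge (k : ℕ) (hk : 1 ≤ k) : 7 ≤ AA k * ((k : ℝ) + 1) ^ 2 := by
  induction k using Nat.strong_induction_on with
  | _ k ih =>
    rcases Nat.lt_or_ge k 10 with h10 | h10
    · have hπ := Real.pi_pos
      have hπ2 : 9.85 < Real.pi ^ 2 := by
        have := Real.pi_gt_d2
        nlinarith
      have hs : √Real.pi ^ 2 = Real.pi := Real.sq_sqrt Real.pi_pos.le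
      have hs4 : √Real.pi ^ 4 = Real.pi ^ 2 := by
        rw [show (4 : ℕ) = 2 * 2 from rfl, pow_mul, hs]
      have g5 : Ga 5 = 15 / 8 * √Real.pi := by
        rw [show (5 : ℕ) = 3 + 2 from rfl, Ga_step, Ga_three]
        push_cast
        ring
      have g6 : Ga 6 = 6 := by
        rw [show (6 : ℕ) = 4 + 2 from rfl, Ga_step, Ga_four]
        norm_num
      have g7 : Ga 7 = 105 / 16 * √Real.pi := by
        rw [show (7 : ℕ) = 5 + 2 from rfl, Ga_step, g5]
        push_cast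
        ring
      have g8 : Ga 8 = 24 := by
        rw [show (8 : ℕ) = 6 + 2 from rfl, Ga_step, g6]
        norm_num
      have g9 : Ga 9 = 945 / 32 * √Real.pi := by
        rw [show (9 : ℕ) = 7 + 2 from rfl, Ga_step, g7]
        push_cast
        ring
      have g10 : Ga 10 = 120 := by
        rw [show (10 : ℕ) = 8 + 2 from rfl, Ga_step, g8]
        norm_num
      have hcase : ∀ A B : ℝ, 0 < B → 7 * B ≤ A → 7 ≤ A / B := fun A B hB h => by
        rw [le_div_iff₀ hB]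
        exact h
      unfold AA
      interval_cases k
      · rw [show (1 : ℕ) + 1 = 2 from rfl, Ga_two]
        norm_num [Nat.factorial]
        linarith
      · rw [show (2 : ℕ) + 1 = 3 from rfl, Ga_three, mul_pow, hs4]
        norm_num [Nat.factorial]
        rw [div_mul_eq_mul_div, le_div_iff₀ (by positivity)]
        nlinarith
      · rw [show (3 : ℕ) + 1 = 4 from rfl, Ga_four]
        norm_num [Nat.factorial]
        nlinarith
      · rw [show (4 : ℕ) + 1 = 5 from rfl, g5, mul_pow, hs4]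
        norm_num [Nat.factorial]
        rw [div_mul_eq_mul_div, le_div_iff₀ (by positivity)]
        nlinarith
      · rw [show (5 : ℕ) + 1 = 6 from rfl, g6]
        norm_num [Nat.factorial]
        nlinarith
      · rw [show (6 : ℕ) + 1 = 7 from rfl, g7, mul_pow, hs4]
        norm_num [Nat.factorial]
        rw [div_mul_eq_mul_div, le_div_iff₀ (by positivity)]
        nlinarith
      · rw [show (7 : ℕ) + 1 = 8 from rfl, g8]
        norm_num [Nat.factorial]
        nlinarith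
      · rw [show (8 : ℕ) + 1 = 9 from rfl, g9, mul_pow, hs4]
        norm_num [Nat.factorial]
        rw [div_mul_eq_mul_div, le_div_iff₀ (by positivity)]
        nlinarith
      · rw [show (9 : ℕ) + 1 = 10 from rfl, g10]
        norm_num [Nat.factorial]
        nlinarith
    · obtain ⟨j, rfl⟩ : ∃ j, k = j + 2 := ⟨k - 2, by omega⟩
      exact (ih j (by omega) (by omega)).trans (BB_step (by omega))

/-- the comparison with the semiclassical constant -/
theorem KA_ge {k : ℕ} (hk : 1 ≤ k) {W θ : ℝ} (hW : 0 < W)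
    (h : θ ^ (k + 1) * W ^ 2 ≤ AA k) :
    θ * Kcl (k + 1) ≤ KA k (2 / ((k - 1).factorial * sg (k + 1)) * W) := by
  have hk' : (1 : ℝ) ≤ k := by exact_mod_cast hk
  have hk0 : (0 : ℝ) < k := by linarith
  have hsg := sg_pos (Nat.succ_pos k)
  rw [Nat.succ_eq_add_one] at hsg
  have hπ := Real.pi_pos
  have hG := Ga_pos (k + 1)
  have hf : (0 : ℝ) < (k - 1).factorial := by positivity
  have hS : 0 < 2 / ((k - 1).factorial * sg (k + 1)) * W := by positivity
  apply le_of_pow_le_pow_left₀ (Nat.succ_ne_zero k) (KA_nonneg k hS.le)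
  rw [Nat.succ_eq_add_one, mul_pow, Kcl_pow (Nat.succ_pos k), KA_pow hS.le]
  have hσ2 := sg_sq (Nat.succ_pos k)
  rw [Nat.succ_eq_add_one] at hσ2 ⊢
  have e1 : (1 / (2 / ((k - 1).factorial * sg (k + 1)) * W)) ^ 2 =
      ((k - 1).factorial : ℝ) ^ 2 * sg (k + 1) ^ 2 / (4 * W ^ 2) := by
    field_simp
    ring
  rw [e1, hσ2]
  push_cast
  have e2 : ((k : ℝ) + 1) ^ (k + 1) * (Real.pi ^ 2 / 4) * (1 / (k : ℝ)) ^ k *
      (((k - 1).factorial : ℝ) ^ 2 * (((k : ℝ) + 1) ^ 2 * (Real.pi ^ (k + 1) / Ga (k + 1) ^ 2)) /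
        (4 * W ^ 2)) =
      (((k : ℝ) + 1) / ((k : ℝ) + 1 + 2)) ^ (k + 1) * 4 ^ (k + 1) * Real.pi ^ (k + 1) *
        Ga (k + 1) ^ 2 * (AA k / W ^ 2) := by
    unfold AA
    rw [show (k : ℝ) + 1 + 2 = k + 3 by ring, div_pow ((k : ℝ) + 1), div_pow 1 (k : ℝ), one_pow]
    field_simp
    ring
  rw [e2]
  have e3 : θ ^ (k + 1) ≤ AA k / W ^ 2 := by
    rw [le_div_iff₀ (by positivity)]
    exact h
  calc θ ^ (k + 1) * ((((k : ℝ) + 1) / ((k : ℝ) + 1 + 2)) ^ (k + 1) * 4 ^ (k + 1) *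
        Real.pi ^ (k + 1) * Ga (k + 1) ^ 2)
      = ((((k : ℝ) + 1) / ((k : ℝ) + 1 + 2)) ^ (k + 1) * 4 ^ (k + 1) *
        Real.pi ^ (k + 1) * Ga (k + 1) ^ 2) * θ ^ (k + 1) := by ring
    _ ≤ _ := mul_le_mul_of_nonneg_left e3 (by positivity)

end Pool.Agent.K7.H84.AM
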