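import Pool.Agent.K7.H84.AM.Gram

/-!
The sharp one dimensional inequality for vector valued functions on the half line.
-/

set_option autoImplicit false

open MeasureTheory Set Filter Topology
open scoped Matrix

namespace Pool.Agent.K7.H84.AM

/-- a nonnegative function whose integrals over compact intervals are bounded -/
theorem of_bdd {T : ℝ → ℝ} (hT : ContinuousOn T (Ioi 0)) (h0 : ∀ r, 0 < r → 0 ≤ T r) {M : ℝ}
    (hM : ∀ a b, 0 < a → a ≤ b → ∫ r in a..b, T r ≤ M) :
    IntegrableOn T (Ioi 0) ∧ ∫ r in Ioi 0, T r ≤ M := by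
  set φ : ℕ → Set ℝ := fun n => Ioc (1 / ((n : ℝ) + 1)) (n + 1) with hφdef
  have hsub : ∀ n, φ n ⊆ Ioi 0 := fun n x hx => lt_trans (by positivity) hx.1
  have hle : ∀ n : ℕ, 1 / ((n : ℝ) + 1) ≤ n + 1 := by
    intro n
    have h0 : (0 : ℝ) ≤ n := Nat.cast_nonneg n
    rw [div_le_iff₀ (by positivity)]
    nlinarith
  have hcov : AECover (volume.restrict (Ioi (0 : ℝ))) atTop φ := by
    constructor
    · refine (ae_restrict_mem measurableSet_Ioi).mono fun x hx => ?_
      have hx0 : (0 : ℝ) < x := hx
      obtain ⟨n0, hn0⟩ := exists_nat_gt (max x (1 / x))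
      filter_upwards [eventually_ge_atTop n0] with n hn
      have hn' : (n0 : ℝ) ≤ n := by exact_mod_cast hn
      have h1 : x < n := lt_of_lt_of_le (lt_of_le_of_lt (le_max_left _ _) hn0) hn'
      have h2 : 1 / x < n := lt_of_lt_of_le (lt_of_le_of_lt (le_max_right _ _) hn0) hn'
      refine ⟨?_, by linarith⟩
      rw [div_lt_iff₀ hx0] at h2
      rw [div_lt_iff₀ (by positivity)]
      nlinarith
    · intro n
      exact measurableSet_Ioc
  have hrestr : ∀ n, (volume.restrict (Ioi (0 : ℝ))).restrict (φ n) = volume.restrict (φ n) := by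
    intro n
    rw [Measure.restrict_restrict measurableSet_Ioc, inter_eq_self_of_subset_left (hsub n)]
  have hint : ∀ n : ℕ, IntervalIntegrable T volume (1 / ((n : ℝ) + 1)) (n + 1) := by
    intro n
    apply ContinuousOn.intervalIntegrable
    apply hT.mono
    rw [uIcc_of_le (hle n)]
    intro z hz
    exact lt_of_lt_of_le (by positivity) hz.1
  have hfi : ∀ n, IntegrableOn T (φ n) (volume.restrict (Ioi (0 : ℝ))) := by
    intro n
    rw [IntegrableOn, hrestr]
    exact (intervalIntegrable_iff_integrableOn_Ioc_of_le (hle n)).1 (hint n)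
  have hb : ∀ n, ∫ x in φ n, T x ∂(volume.restrict (Ioi (0 : ℝ))) ≤ M := by
    intro n
    rw [hrestr, ← intervalIntegral.integral_of_le (hle n)]
    exact hM _ _ (by positivity) (hle n)
  have hI : Integrable T (volume.restrict (Ioi (0 : ℝ))) := by
    apply hcov.integrable_of_integral_norm_bounded M hfi
    refine Eventually.of_forall fun n => ?_
    refine le_trans (le_of_eq ?_) (hb n)
    rw [hrestr]
    refine setIntegral_congr_fun measurableSet_Ioc fun x hx => ?_
    rw [Real.norm_eq_abs, abs_of_nonneg (h0 x (hsub n hx))]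
  refine ⟨hI, ?_⟩
  exact le_of_tendsto (hcov.integral_tendsto_of_countably_generated hI)
    (Eventually.of_forall hb)

/-- a bump function -/
noncomputable def bump : ContDiffBump (0 : ℝ) := ⟨1, 2, one_pos, one_lt_two⟩

theorem bump_one {x : ℝ} (hx : |x| ≤ 1) : bump x = 1 :=
  bump.one_of_mem_closedBall (by rw [mem_closedBall_zero_iff]; exact hx)

theorem bump_zero {x : ℝ} (hx : 2 ≤ |x|) : bump x = 0 :=
  bump.zero_of_le_dist (by rw [dist_zero_right]; exact hx)

theorem bump_deriv (x : ℝ) : HasDerivAt bump (deriv bump x) x :=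
  ((bump.contDiff (n := 1)).differentiable one_ne_zero x).hasDerivAt

theorem bump_deriv_cont : Continuous (deriv bump) :=
  (bump.contDiff (n := 1)).continuous_deriv le_rfl

theorem bump_deriv_zero {x : ℝ} (hx : 2 < |x|) : deriv bump x = 0 := by
  have h1 : (bump : ℝ → ℝ) =ᶠ[𝓝 x] fun _ => 0 := by
    have : {y : ℝ | 2 < |y|} ∈ 𝓝 x := (isOpen_lt continuous_const continuous_abs).mem_nhds hx
    filter_upwards [this] with y hy
    exact bump_zero (le_of_lt hy)
  rw [h1.deriv_eq]
  simp

theorem bump_deriv_bdd : ∃ C : ℝ, 0 ≤ C ∧ ∀ x, |deriv bump x| ≤ C := by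
  have h1 : HasCompactSupport (deriv bump) := bump.hasCompactSupport.deriv
  obtain ⟨C, hC⟩ := h1.exists_bound_of_continuous bump_deriv_cont
  exact ⟨|C|, abs_nonneg _, fun x => (hC x).trans (le_abs_self C)⟩

/-- the cut-off function -/
noncomputable def cut (m r : ℝ) : ℝ := if 0 < r then bump (Real.log r / m) else 0

/-- its derivative -/
noncomputable def cut' (m r : ℝ) : ℝ := if 0 < r then deriv bump (Real.log r / m) / (m * r) else 0

theorem cut_nonneg (m r : ℝ) : 0 ≤ cut m r := by
  unfold cut
  split_ifs
  · exact bump.nonneg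
  · exact le_rfl

theorem cut_le (m r : ℝ) : cut m r ≤ 1 := by
  unfold cut
  split_ifs
  · exact bump.le_one
  · exact zero_le_one

theorem cut_one {m r : ℝ} (hm : 0 < m) (hr : 0 < r) (h : |Real.log r| ≤ m) : cut m r = 1 := by
  unfold cut
  rw [if_pos hr]
  apply bump_one
  rw [abs_div, abs_of_pos hm, div_le_one hm]
  exact h

theorem cut_zero {m r : ℝ} (hm : 0 < m) (h : r < Real.exp (-(2 * m)) ∨ Real.exp (2 * m) < r) :
    cut m r = 0 ∧ cut' m r = 0 := by
  unfold cut cut'
  by_cases hr : 0 < r
  · rw [if_pos hr, if_pos hr]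
    have h2 : 2 < |Real.log r / m| := by
      rw [abs_div, abs_of_pos hm, lt_div_iff₀ hm, lt_abs]
      rcases h with h | h
      · right
        have := (Real.log_lt_iff_lt_exp hr).2 h
        linarith
      · left
        exact (Real.lt_log_iff_exp_lt hr).2 h
    rw [bump_zero h2.le, bump_deriv_zero h2]
    simp
  · rw [if_neg hr, if_neg hr]
    exact ⟨rfl, rfl⟩

theorem cut_deriv {m r : ℝ} (hm : 0 < m) (hr : 0 < r) : HasDerivAt (cut m) (cut' m r) r := by
  have h1 : HasDerivAt (fun r => bump (Real.log r / m)) (deriv bump (Real.log r / m) * (r⁻¹ / m)) r :=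
    (bump_deriv _).comp r ((Real.hasDerivAt_log hr.ne').div_const m)
  have h2 : cut m =ᶠ[𝓝 r] fun r => bump (Real.log r / m) := by
    filter_upwards [Ioi_mem_nhds hr] with y hy
    unfold cut
    rw [if_pos (show 0 < y from hy)]
  have h3 : cut' m r = deriv bump (Real.log r / m) * (r⁻¹ / m) := by
    unfold cut'
    rw [if_pos hr]
    field_simp
  rw [h3]
  exact h1.congr_of_eventuallyEq h2

theorem cut'_cont {m : ℝ} (hm : 0 < m) : ContinuousOn (cut' m) (Ioi 0) := by
  have h1 : ContinuousOn (fun r => deriv bump (Real.log r / m) / (m * r)) (Ioi 0) := by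
    apply ContinuousOn.div
    · apply bump_deriv_cont.comp_continuousOn
      apply ContinuousOn.div_const
      exact Real.continuousOn_log.mono fun r hr => ne_of_gt hr
    · exact (continuous_const.mul continuous_id).continuousOn
    · intro r hr
      have : (0 : ℝ) < r := hr
      positivity
  refine h1.congr fun r hr => ?_
  unfold cut'
  rw [if_pos (show 0 < r from hr)]

/-- cut off functions -/
theorem cut_fun {m : ℝ} (hm : 0 < m) {f f' : ℝ → ℝ} (hf : ∀ r, 0 < r → HasDerivAt f (f' r) r)
    (hc : ContinuousOn f' (Ioi 0)) :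
    (∀ r, HasDerivAt (fun r => cut m r * f r) (cut' m r * f r + cut m r * f' r) r) ∧
    Continuous (fun r => cut' m r * f r + cut m r * f' r) := by
  have hz : ∀ r, r ≤ 0 → ∀ᶠ y in 𝓝 r, cut m y = 0 ∧ cut' m y = 0 := by
    intro r hr
    filter_upwards [Iio_mem_nhds (lt_of_le_of_lt hr (Real.exp_pos (-(2 * m))))] with y hy
    exact cut_zero hm (Or.inl hy)
  constructor
  · intro r
    rcases lt_or_ge 0 r with hr | hr
    · exact (cut_deriv hm hr).mul (hf r hr)
    · have h1 := hz r hr
      have h2 := h1.self_of_nhds
      rw [h2.1, h2.2, zero_mul, zero_mul, add_zero]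
      refine (hasDerivAt_const r (0 : ℝ)).congr_of_eventuallyEq ?_
      filter_upwards [h1] with y hy
      rw [hy.1, zero_mul]
  · rw [continuous_iff_continuousAt]
    intro r
    rcases lt_or_ge 0 r with hr | hr
    · have hm' : Ioi (0 : ℝ) ∈ 𝓝 r := Ioi_mem_nhds hr
      exact (((cut'_cont hm).continuousAt hm').mul (hf r hr).continuousAt).add
        ((cut_deriv hm hr).continuousAt.mul (hc.continuousAt hm'))
    · have h1 : (fun r => cut' m r * f r + cut m r * f' r) =ᶠ[𝓝 r] fun _ => 0 := by
        filter_upwards [hz r hr] with y hy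
        rw [hy.1, hy.2, zero_mul, zero_mul, add_zero]
      exact continuousAt_const.congr h1.symm

variable {n : ℕ} {J : Type} [Fintype J]

/-- the sharp inequality for vector valued systems on the half line -/
theorem half_op (f f' : Fin n → J → ℝ → ℝ)
    (hf : ∀ i j r, 0 < r → HasDerivAt (f i j) (f' i j r) r)
    (hc : ∀ i j, ContinuousOn (f' i j) (Ioi 0))
    (h2 : ∀ i j, IntegrableOn (fun r => f i j r ^ 2) (Ioi 0))
    (hd : ∀ i j, IntegrableOn (fun r => f' i j r ^ 2) (Ioi 0))
    (hr : ∀ i j, IntegrableOn (fun r => f i j r ^ 2 / r ^ 2) (Ioi 0))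
    (hB : ∀ v : Fin n → ℝ, ∫ r in Ioi 0, ∑ j, (∑ i, v i * f i j r) ^ 2 ≤ ∑ i, v i ^ 2) :
    IntegrableOn (fun r => ((GM fun i j => f i j r) * (GM fun i j => f i j r) *
      (GM fun i j => f i j r)).trace) (Ioi 0) ∧
    Real.pi ^ 2 / 4 * ∫ r in Ioi 0, ((GM fun i j => f i j r) * (GM fun i j => f i j r) *
      (GM fun i j => f i j r)).trace ≤ ∑ i, ∑ j, ∫ r in Ioi 0, f' i j r ^ 2 := by
  have hcf : ∀ i j, ContinuousOn (f i j) (Ioi 0) := fun i j r hr =>
    (hf i j r hr).continuousAt.continuousWithinAt
  set T : ℝ → ℝ := fun r => ((GM fun i j => f i j r) * (GM fun i j => f i j r) *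
      (GM fun i j => f i j r)).trace with hTdef
  set E : ℝ := ∑ i, ∑ j, ∫ r in Ioi 0, f' i j r ^ 2 with hE
  set H : ℝ := ∑ i, ∑ j, ∫ r in Ioi 0, f i j r ^ 2 / r ^ 2 with hH
  obtain ⟨C, hC0, hC⟩ := bump_deriv_bdd
  have hGc : ∀ i i', ContinuousOn (fun r => GM (fun i j => f i j r) i i') (Ioi 0) := by
    intro i i'
    simp only [GM, Matrix.of_apply]
    exact continuousOn_finsetSum _ fun j _ => (hcf i j).mul (hcf i' j)
  have hTc : ContinuousOn T (Ioi 0) := by
    rw [hTdef]
    simp only [Matrix.trace, Matrix.diag, Matrix.mul_apply]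
    refine continuousOn_finsetSum _ fun i _ => continuousOn_finsetSum _ fun k _ => ?_
    refine ContinuousOn.mul ?_ (hGc k i)
    refine continuousOn_finsetSum _ fun l _ => ?_
    exact (hGc i l).mul (hGc l k)
  have hT0 : ∀ r, 0 ≤ T r := fun r => psd_tr3_nonneg (GM_psd _)
  -- the main estimate
  have key : ∀ a b : ℝ, 0 < a → a ≤ b → ∀ δ : ℝ, 0 < δ → ∀ᶠ m : ℝ in atTop,
      Real.pi ^ 2 / 4 * ∫ r in a..b, T r ≤ (1 + δ) * E + (1 + 1 / δ) * (C / m) ^ 2 * H := by
    intro a b ha hab δ hδ
    filter_upwards [eventually_ge_atTop (max (max |Real.log a| |Real.log b|) 1)] with m hm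
    have hm1 : 1 ≤ m := (le_max_right _ _).trans hm
    have hm0 : 0 < m := by linarith
    have hma : |Real.log a| ≤ m := ((le_max_left _ _).trans (le_max_left _ _)).trans hm
    have hmb : |Real.log b| ≤ m := ((le_max_right _ _).trans (le_max_left _ _)).trans hm
    set g : Fin n → J → ℝ → ℝ := fun i j r => cut m r * f i j r with hg
    set g' : Fin n → J → ℝ → ℝ := fun i j r => cut' m r * f i j r + cut m r * f' i j r with hg'
    have hgd := fun i j => (cut_fun hm0 (hf i j) (hc i j)).1
    have hgc := fun i j => (cut_fun hm0 (hf i j) (hc i j)).2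
    have hz : ∀ x, Real.exp (2 * m) < |x| → cut m x = 0 ∧ cut' m x = 0 := by
      intro x hx
      apply cut_zero hm0
      rcases lt_abs.1 hx with h | h
      · exact Or.inr h
      · left
        have h1 := Real.exp_pos (-(2 * m))
        have h2 := Real.exp_pos (2 * m)
        linarith
    have hsys := sys_of g g' hgd hgc (Real.exp (2 * m))
      (fun i j x hx => by simp only [hg]; rw [(hz x hx).1, zero_mul])
      (fun i j x hx => by simp only [hg']; rw [(hz x hx).1, (hz x hx).2, zero_mul, zero_mul, add_zero])
    -- the square sums are bounded by those of `f`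
    have hgcont : ∀ i j, Continuous (g i j) := fun i j =>
      continuous_iff_continuousAt.2 fun x => (hgd i j x).continuousAt
    have hgsupp : ∀ i j, HasCompactSupport (g i j) := by
      intro i j
      apply HasCompactSupport.intro (isCompact_Icc (a := -Real.exp (2 * m)) (b := Real.exp (2 * m)))
      intro x hx
      simp only [hg]
      rw [(hz x (by
        by_contra hcon
        push Not at hcon
        exact hx (abs_le.1 hcon))).1, zero_mul]
    have hTot : LTd.PSD (1 - LTd.Tot fun x => GM fun i j => g i j x) := by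
      have hInt : ∀ i i', Integrable (fun x => GM (fun i j => g i j x) i i') := by
        intro i i'
        simp only [GM, Matrix.of_apply]
        refine integrable_finsetSum _ fun j _ => ?_
        exact ((hgcont i j).mul (hgcont i' j)).integrable_of_hasCompactSupport
          ((hgsupp i j).mul_right)
      refine ⟨fun i i' => ?_, fun v => ?_⟩
      · rw [Matrix.sub_apply, Matrix.sub_apply]
        unfold LTd.Tot
        rw [Matrix.of_apply, Matrix.of_apply, Matrix.one_apply, Matrix.one_apply]
        congr 1
        · simp only [eq_comm]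
        · congr 1
          funext x
          exact (GM_psd _).1 i i'
      · have e1 : ∑ i, ∑ i', v i * v i' * (1 - LTd.Tot fun x => GM fun i j => g i j x) i i' =
            ∑ i, v i ^ 2 - ∑ i, ∑ i', v i * v i' * (LTd.Tot fun x => GM fun i j => g i j x) i i' := by
          rw [← Finset.sum_sub_distrib]
          refine Finset.sum_congr rfl fun i _ => ?_
          simp only [Matrix.sub_apply, mul_sub, Finset.sum_sub_distrib]
          congr 1
          simp [Matrix.one_apply, sq]
        have e2 : ∑ i, ∑ i', v i * v i' * (LTd.Tot fun x => GM fun i j => g i j x) i i' =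
            ∫ x, ∑ j, (∑ i, v i * g i j x) ^ 2 := by
          have e3 : ∀ x, ∑ j, (∑ i, v i * g i j x) ^ 2 =
              ∑ i, ∑ i', v i * v i' * GM (fun i j => g i j x) i i' := fun x => (GM_quad _ v).symm
          simp only [e3]
          rw [integral_finsetSum _ fun i _ => integrable_finsetSum _ fun i' _ =>
            (hInt i i').const_mul _]
          refine Finset.sum_congr rfl fun i _ => ?_
          rw [integral_finsetSum _ fun i' _ => (hInt i i').const_mul _]
          refine Finset.sum_congr rfl fun i' _ => ?_
          rw [integral_const_mul]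
          rfl
        rw [e1, e2]
        have e4 : ∫ x, ∑ j, (∑ i, v i * g i j x) ^ 2 ≤
            ∫ r in Ioi 0, ∑ j, (∑ i, v i * f i j r) ^ 2 := by
          have e5 : ∀ x, ∑ j, (∑ i, v i * g i j x) ^ 2 =
              (Ioi (0 : ℝ)).indicator (fun r => cut m r ^ 2 * ∑ j, (∑ i, v i * f i j r) ^ 2) x := by
            intro x
            by_cases hx : 0 < x
            · rw [indicator_of_mem (show x ∈ Ioi (0 : ℝ) from hx), Finset.mul_sum]
              refine Finset.sum_congr rfl fun j _ => ?_
              rw [← mul_pow, Finset.mul_sum]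
              congr 1
              refine Finset.sum_congr rfl fun i _ => ?_
              simp only [hg]
              ring
            · rw [indicator_of_notMem (fun h : x ∈ Ioi (0 : ℝ) => hx h)]
              refine Finset.sum_eq_zero fun j _ => ?_
              have : ∀ i, g i j x = 0 := by
                intro i
                simp only [hg, cut]
                rw [if_neg hx, zero_mul]
              simp [this]
          simp only [e5]
          rw [integral_indicator measurableSet_Ioi]
          have hI2 : IntegrableOn (fun r => ∑ j, (∑ i, v i * f i j r) ^ 2) (Ioi 0) := by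
            refine integrable_finsetSum _ fun j _ => ?_
            refine Integrable.mono' (g := fun r => (∑ i, v i ^ 2) * ∑ i, f i j r ^ 2)
              ((integrable_finsetSum _ fun i _ => h2 i j).const_mul _) ?_ ?_
            · apply ContinuousOn.aestronglyMeasurable _ measurableSet_Ioi
              apply ContinuousOn.pow
              exact continuousOn_finsetSum _ fun i _ => continuousOn_const.mul (hcf i j)
            · refine Eventually.of_forall fun r => ?_
              rw [Real.norm_eq_abs, abs_of_nonneg (sq_nonneg _)]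
              exact Finset.sum_mul_sq_le_sq_mul_sq _ _ _
          have hnn : ∀ r, 0 ≤ ∑ j, (∑ i, v i * f i j r) ^ 2 := fun r =>
            Finset.sum_nonneg fun j _ => sq_nonneg _
          refine integral_mono_of_nonneg (Eventually.of_forall fun r => ?_) hI2
            (Eventually.of_forall fun r => ?_)
          · exact mul_nonneg (sq_nonneg _) (hnn r)
          · simp only
            have hcut2 : cut m r ^ 2 ≤ 1 := by
              have := cut_nonneg m r
              have := cut_le m r
              nlinarith
            calc cut m r ^ 2 * ∑ j, (∑ i, v i * f i j r) ^ 2 ≤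
                1 * ∑ j, (∑ i, v i * f i j r) ^ 2 := mul_le_mul_of_nonneg_right hcut2 (hnn r)
              _ = _ := one_mul _
        linarith [hB v]
    have hA := LTd.blockA hsys hTot
    -- the left side
    have hleft : ∫ r in a..b, T r ≤ ∫ x, ((GM fun i j => g i j x) * (GM fun i j => g i j x) *
        (GM fun i j => g i j x)).trace := by
      rw [intervalIntegral.integral_of_le hab]
      have e1 : ∫ r in Ioc a b, T r = ∫ x in Ioc a b, ((GM fun i j => g i j x) *
          (GM fun i j => g i j x) * (GM fun i j => g i j x)).trace := by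
        refine setIntegral_congr_fun measurableSet_Ioc fun x hx => ?_
        have hx0 : 0 < x := ha.trans hx.1
        have hcx : cut m x = 1 := by
          apply cut_one hm0 hx0
          rw [abs_le] at hma hmb ⊢
          have h3 := Real.log_le_log ha hx.1.le
          have h4 := Real.log_le_log hx0 hx.2
          constructor <;> linarith [hma.1, hmb.2]
        have : (fun i j => g i j x) = fun i j => f i j x := by
          funext i j
          simp only [hg]
          rw [hcx, one_mul]
        simp only [this, hTdef]
      rw [e1]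
      have hIg : Integrable fun x => ((GM fun i j => g i j x) * (GM fun i j => g i j x) *
          (GM fun i j => g i j x)).trace := by
        have hent : ∀ i i', Continuous fun x => GM (fun i j => g i j x) i i' := by
          intro i i'
          simp only [GM, Matrix.of_apply]
          exact continuous_finsetSum _ fun j _ => (hgcont i j).mul (hgcont i' j)
        have hcnt : Continuous fun x => ((GM fun i j => g i j x) * (GM fun i j => g i j x) *
            (GM fun i j => g i j x)).trace := by
          simp only [Matrix.trace, Matrix.diag, Matrix.mul_apply]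
          refine continuous_finsetSum _ fun i _ => continuous_finsetSum _ fun k _ => ?_
          refine Continuous.mul ?_ (hent k i)
          exact continuous_finsetSum _ fun l _ => (hent i l).mul (hent l k)
        apply hcnt.integrable_of_hasCompactSupport
        apply HasCompactSupport.intro
          (isCompact_Icc (a := -Real.exp (2 * m)) (b := Real.exp (2 * m)))
        intro x hx
        have hxz : cut m x = 0 := (hz x (by
          by_contra hcon
          push Not at hcon
          exact hx (abs_le.1 hcon))).1
        have : (GM fun i j => g i j x) = 0 := by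
          ext i i'
          simp [GM, hg, hxz]
        rw [this]
        simp
      exact setIntegral_le_integral hIg (Eventually.of_forall fun x => psd_tr3_nonneg (GM_psd _))
    -- the right side
    have hright : ∫ x, (GM fun i j => g' i j x).trace ≤
        (1 + δ) * E + (1 + 1 / δ) * (C / m) ^ 2 * H := by
      simp only [GM_trace]
      have hIg' : ∀ i j, Integrable fun x => g' i j x ^ 2 := by
        intro i j
        apply ((hgc i j).pow 2).integrable_of_hasCompactSupport
        apply HasCompactSupport.intro
          (isCompact_Icc (a := -Real.exp (2 * m)) (b := Real.exp (2 * m)))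
        intro x hx
        have hxz := hz x (by
          by_contra hcon
          push Not at hcon
          exact hx (abs_le.1 hcon))
        simp only [hg', Pi.pow_apply]
        rw [hxz.1, hxz.2]
        ring
      rw [integral_finsetSum _ fun i _ => integrable_finsetSum _ fun j _ => hIg' i j]
      rw [hE, hH, Finset.mul_sum, Finset.mul_sum, ← Finset.sum_add_distrib]
      refine Finset.sum_le_sum fun i _ => ?_
      rw [integral_finsetSum _ fun j _ => hIg' i j, Finset.mul_sum, Finset.mul_sum,
        ← Finset.sum_add_distrib]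
      refine Finset.sum_le_sum fun j _ => ?_
      rw [← integral_const_mul, ← integral_const_mul, ← integral_add ((hd i j).const_mul _)
        ((hr i j).const_mul _)]
      have e1 : ∀ x, g' i j x ^ 2 = (Ioi (0 : ℝ)).indicator (fun x => g' i j x ^ 2) x := by
        intro x
        by_cases hx : 0 < x
        · rw [indicator_of_mem (show x ∈ Ioi (0 : ℝ) from hx)]
        · rw [indicator_of_notMem (fun h : x ∈ Ioi (0 : ℝ) => hx h)]
          simp only [hg', cut, cut']
          rw [if_neg hx, if_neg hx]
          ring
      rw [integral_congr_ae (Eventually.of_forall e1), integral_indicator measurableSet_Ioi]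
      refine setIntegral_mono_on (hIg' i j).integrableOn
        (((hd i j).const_mul _).add ((hr i j).const_mul _)) measurableSet_Ioi fun x hx => ?_
      have hx0 : (0 : ℝ) < x := hx
      simp only [Pi.add_apply, hg']
      have e2 : |cut' m x| ≤ C / (m * x) := by
        unfold cut'
        rw [if_pos hx0, abs_div, abs_of_pos (mul_pos hm0 hx0)]
        exact div_le_div_of_nonneg_right (hC _) (mul_pos hm0 hx0).le
      have e3 : cut' m x ^ 2 ≤ (C / m) ^ 2 / x ^ 2 := by
        rw [← sq_abs, ← div_pow, div_div]
        exact pow_le_pow_left₀ (abs_nonneg _) e2 2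
      have e4 : cut m x ^ 2 ≤ 1 := by
        have := cut_nonneg m x
        have := cut_le m x
        nlinarith
      have e5 : (cut' m x * f i j x + cut m x * f' i j x) ^ 2 ≤
          (1 + δ) * (cut m x * f' i j x) ^ 2 + (1 + 1 / δ) * (cut' m x * f i j x) ^ 2 := by
        have h3 : 0 ≤ (√δ * (cut m x * f' i j x) - (cut' m x * f i j x) / √δ) ^ 2 := sq_nonneg _
        have hsq : √δ ^ 2 = δ := Real.sq_sqrt hδ.le
        have hsp : 0 < √δ := Real.sqrt_pos.2 hδ
        have h4 : (√δ * (cut m x * f' i j x) - (cut' m x * f i j x) / √δ) ^ 2 =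
            δ * (cut m x * f' i j x) ^ 2 - 2 * ((cut m x * f' i j x) * (cut' m x * f i j x)) +
            (1 / δ) * (cut' m x * f i j x) ^ 2 := by
          rw [sub_sq, mul_pow, div_pow, hsq]
          field_simp
        rw [h4] at h3
        nlinarith
      refine e5.trans ?_
      have h5 : (cut m x * f' i j x) ^ 2 ≤ f' i j x ^ 2 := by
        rw [mul_pow]
        nlinarith [sq_nonneg (f' i j x)]
      have h6 : (cut' m x * f i j x) ^ 2 ≤ (C / m) ^ 2 * (f i j x ^ 2 / x ^ 2) := by
        rw [mul_pow]
        calc cut' m x ^ 2 * f i j x ^ 2 ≤ (C / m) ^ 2 / x ^ 2 * f i j x ^ 2 :=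
              mul_le_mul_of_nonneg_right e3 (sq_nonneg _)
          _ = _ := by ring
      have h7 : 0 < 1 / δ := by positivity
      have h8 : (1 + δ) * (cut m x * f' i j x) ^ 2 ≤ (1 + δ) * f' i j x ^ 2 :=
        mul_le_mul_of_nonneg_left h5 (by linarith)
      have h9 : (1 + 1 / δ) * (cut' m x * f i j x) ^ 2 ≤
          (1 + 1 / δ) * ((C / m) ^ 2 * (f i j x ^ 2 / x ^ 2)) :=
        mul_le_mul_of_nonneg_left h6 (by linarith)
      linarith
    have hpi : 0 ≤ Real.pi ^ 2 / 4 := by positivity
    calc Real.pi ^ 2 / 4 * ∫ r in a..b, T r ≤ Real.pi ^ 2 / 4 * ∫ x, ((GM fun i j => g i j x) *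
          (GM fun i j => g i j x) * (GM fun i j => g i j x)).trace :=
          mul_le_mul_of_nonneg_left hleft hpi
      _ ≤ ∫ x, (GM fun i j => g' i j x).trace := hA
      _ ≤ _ := hright
  have key2 : ∀ a b : ℝ, 0 < a → a ≤ b → Real.pi ^ 2 / 4 * ∫ r in a..b, T r ≤ E := by
    intro a b ha hab
    have hE0 : 0 ≤ E := Finset.sum_nonneg fun i _ => Finset.sum_nonneg fun j _ =>
      setIntegral_nonneg measurableSet_Ioi fun r _ => sq_nonneg _
    have h1 : ∀ δ : ℝ, 0 < δ → Real.pi ^ 2 / 4 * ∫ r in a..b, T r ≤ (1 + δ) * E := by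
      intro δ hδ
      have h2 : Tendsto (fun m : ℝ => (1 + δ) * E + (1 + 1 / δ) * (C / m) ^ 2 * H) atTop
          (𝓝 ((1 + δ) * E + (1 + 1 / δ) * 0 ^ 2 * H)) := by
        apply Tendsto.const_add
        apply Tendsto.mul_const
        apply Tendsto.const_mul
        apply Tendsto.pow
        exact tendsto_const_nhds.div_atTop tendsto_id
      have h3 := ge_of_tendsto h2 (key a b ha hab δ hδ)
      have h4 : (1 + δ) * E + (1 + 1 / δ) * 0 ^ 2 * H = (1 + δ) * E := by ring
      rwa [h4] at h3
    have h5 : Tendsto (fun δ : ℝ => (1 + δ) * E) (𝓝[>] 0) (𝓝 ((1 + 0) * E)) := by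
      have : Continuous fun δ : ℝ => (1 + δ) * E := by fun_prop
      exact (this.tendsto 0).mono_left nhdsWithin_le_nhds
    rw [add_zero, one_mul] at h5
    refine ge_of_tendsto h5 ?_
    filter_upwards [self_mem_nhdsWithin] with δ hδ
    exact h1 δ hδ
  have hpi : 0 < Real.pi ^ 2 / 4 := by positivity
  have hfin := of_bdd hTc (fun r _ => hT0 r) (M := E / (Real.pi ^ 2 / 4)) (fun a b ha hab => by
    rw [le_div_iff₀ hpi, mul_comm]
    exact key2 a b ha hab)
  refine ⟨hfin.1, ?_⟩
  rw [mul_comm, ← le_div_iff₀ hpi]
  exact hfin.2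

end Pool.Agent.K7.H84.AM
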