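import Pool.Agent.K7.H84.AM.Three

/-!
The density inequality for finitely many orthonormal functions on a compact space.
-/

set_option autoImplicit false

open MeasureTheory Set Filter Topology

namespace Pool.Agent.K7.H84.AM

variable {S : Type} [TopologicalSpace S] [CompactSpace S] [MeasurableSpace S] [OpensMeasurableSpace S]
  {μ : Measure S} [IsFiniteMeasure μ] {J : Type} [Fintype J] [DecidableEq J] {I : Type} [Fintype I]

theorem density {Y : J → S → ℝ} (hY : ∀ j, Continuous (Y j))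
    (ho : ∀ j k, ∫ ω, Y j ω * Y k ω ∂μ = if j = k then 1 else 0) {c : J → ℝ} (hc : ∀ j, 0 < c j)
    (w : I → J → ℝ) {s M : ℝ} (hs : 2 ≤ s) (hM0 : 0 ≤ M)
    (hM : ∀ ω, ∑ j, c j ^ (3 / 2 - s) * Y j ω ^ 2 ≤ M) :
    (∫ ω, (∑ i, (∑ j, w i j * Y j ω) ^ 2) ^ (s / (s - 1)) ∂μ) ^ (s - 1) ≤
      (∑ i, ∑ j, c j * w i j ^ 2) ^ (s - 2) *
        ((∑ j, ∑ k, c j ^ (1 / 2 : ℝ) * (∑ i, w i j * w i k) ^ 2) * M) := by
  set ρ : S → ℝ := fun ω => ∑ i, (∑ j, w i j * Y j ω) ^ 2 with hρ
  have hρc : Continuous ρ := continuous_finsetSum _ fun i _ =>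
    (continuous_finsetSum _ fun k _ => continuous_const.mul (hY k)).pow 2
  have hρ0 : ∀ ω, 0 ≤ ρ ω := fun ω => Finset.sum_nonneg fun i _ => sq_nonneg _
  set a : ℝ := ∑ i, ∑ j, c j * w i j ^ 2 with ha
  set b : ℝ := ∑ j, ∑ k, c j ^ (1 / 2 : ℝ) * (∑ i, w i j * w i k) ^ 2 with hb
  have ha0 : 0 ≤ a := Finset.sum_nonneg fun i _ => Finset.sum_nonneg fun j _ =>
    mul_nonneg (hc j).le (sq_nonneg _)
  have hb0 : 0 ≤ b := Finset.sum_nonneg fun i _ => Finset.sum_nonneg fun j _ =>
    mul_nonneg (Real.rpow_nonneg (hc i).le _) (sq_nonneg _)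
  have hs1 : 0 < s - 1 := by linarith
  have hs0 : 0 < s := by linarith
  have hp : 0 < s / (s - 1) := by positivity
  set X : ℝ := ∫ ω, ρ ω ^ (s / (s - 1)) ∂μ with hX
  have hX0 : 0 ≤ X := integral_nonneg fun ω => Real.rpow_nonneg (hρ0 ω) _
  -- the inequality with a regularised weight
  have h1 : ∀ ε : ℝ, 0 < ε → X ≤ a ^ (1 - 2 / s) *
      (√b * √(M * ∫ ω, (ρ ω + ε) ^ (s / (s - 1)) ∂μ)) ^ (2 / s) := by
    intro ε hε
    have hpos : ∀ ω, 0 < ρ ω + ε := fun ω => by linarith [hρ0 ω]
    have hh : Continuous fun ω => (1 / (s - 1)) * Real.log (ρ ω + ε) := by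
      apply continuous_const.mul
      exact (hρc.add continuous_const).log fun ω => (hpos ω).ne'
    have h2 := interp (μ := μ) hY ho hc w hh hs hM
    have e1 : ∀ ω, Real.exp (s * ((1 / (s - 1)) * Real.log (ρ ω + ε))) =
        (ρ ω + ε) ^ (s / (s - 1)) := by
      intro ω
      rw [Real.rpow_def_of_pos (hpos ω)]
      congr 1
      field_simp
    simp only [e1] at h2
    refine le_trans ?_ h2
    rw [hX]
    refine integral_mono (int_cont ?_) (int_cont ?_) fun ω => ?_
    · exact hρc.rpow_const fun ω => Or.inr hp.le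
    · exact (Real.continuous_exp.comp hh).mul hρc
    · simp only
      have e2 : Real.exp ((1 / (s - 1)) * Real.log (ρ ω + ε)) = (ρ ω + ε) ^ (1 / (s - 1)) := by
        rw [Real.rpow_def_of_pos (hpos ω), mul_comm]
      rw [e2]
      have e3 : s / (s - 1) = 1 / (s - 1) + 1 := by
        field_simp
        ring
      rcases (hρ0 ω).eq_or_lt with h0 | h0
      · rw [← h0, Real.zero_rpow hp.ne']
        simp
        have : ρ ω = 0 := h0.symm
        rw [hρ] at this
        simp only at this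
        rw [this, mul_zero]
      · rw [e3, Real.rpow_add_one h0.ne']
        refine mul_le_mul_of_nonneg_right ?_ (hρ0 ω)
        exact Real.rpow_le_rpow (hρ0 ω) (by linarith) (by positivity)
  -- the limit
  have h3 : Tendsto (fun ε : ℝ => ∫ ω, (ρ ω + ε) ^ (s / (s - 1)) ∂μ) (𝓝[>] 0) (𝓝 X) := by
    obtain ⟨B, hB⟩ := (isCompact_range hρc).isBounded.exists_norm_le
    have hB' : ∀ ω, ρ ω ≤ B := fun ω => (le_abs_self _).trans (hB _ (mem_range_self ω))
    apply tendsto_integral_filter_of_dominated_convergence (fun _ => (|B| + 1) ^ (s / (s - 1)))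
    · filter_upwards [self_mem_nhdsWithin] with ε hε
      apply Continuous.aestronglyMeasurable
      exact (hρc.add continuous_const).rpow_const fun ω => Or.inr hp.le
    · have : ∀ᶠ ε : ℝ in 𝓝[>] 0, ε ≤ 1 := by
        apply Filter.Eventually.filter_mono nhdsWithin_le_nhds
        exact Iic_mem_nhds one_pos
      filter_upwards [self_mem_nhdsWithin, this] with ε hε hε1
      have hε0 : (0 : ℝ) < ε := hε
      refine Eventually.of_forall fun ω => ?_
      have h4 : 0 ≤ ρ ω + ε := by linarith [hρ0 ω]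
      rw [Real.norm_eq_abs, abs_of_nonneg (Real.rpow_nonneg h4 _)]
      apply Real.rpow_le_rpow h4 _ hp.le
      have := hB' ω
      have := le_abs_self B
      linarith
    · exact integrable_const _
    · refine Eventually.of_forall fun ω => ?_
      have h5 : Continuous fun ε : ℝ => (ρ ω + ε) ^ (s / (s - 1)) :=
        (continuous_const.add continuous_id).rpow_const fun ω => Or.inr hp.le
      have h6 := h5.tendsto 0
      simp only [add_zero] at h6
      exact h6.mono_left nhdsWithin_le_nhds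
  have h4 : X ≤ a ^ (1 - 2 / s) * (√b * √(M * X)) ^ (2 / s) := by
    have h5 : Tendsto (fun ε : ℝ => a ^ (1 - 2 / s) *
        (√b * √(M * ∫ ω, (ρ ω + ε) ^ (s / (s - 1)) ∂μ)) ^ (2 / s)) (𝓝[>] 0)
        (𝓝 (a ^ (1 - 2 / s) * (√b * √(M * X)) ^ (2 / s))) := by
      have h6 : Continuous fun t : ℝ => a ^ (1 - 2 / s) * (√b * √(M * t)) ^ (2 / s) := by
        apply continuous_const.mul
        apply Continuous.rpow_const _ fun t => Or.inr (by positivity)
        fun_prop
      exact (h6.tendsto X).comp h3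
    refine ge_of_tendsto h5 ?_
    filter_upwards [self_mem_nhdsWithin] with ε hε
    exact h1 ε hε
  rcases hX0.eq_or_lt with h0 | h0
  · have h7 : X = 0 := h0.symm
    rw [h7, Real.zero_rpow hs1.ne']
    exact mul_nonneg (Real.rpow_nonneg ha0 _) (mul_nonneg hb0 hM0)
  · have h8 : X ^ s ≤ a ^ (s - 2) * (b * (M * X)) := by
      calc X ^ s ≤ (a ^ (1 - 2 / s) * (√b * √(M * X)) ^ (2 / s)) ^ s :=
            Real.rpow_le_rpow hX0 h4 hs0.le
        _ = a ^ (s - 2) * (b * (M * X)) := by
            have e1 : 0 ≤ √b * √(M * X) := by positivity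
            rw [Real.mul_rpow (Real.rpow_nonneg ha0 _) (Real.rpow_nonneg e1 _),
              ← Real.rpow_mul ha0, ← Real.rpow_mul e1]
            have e2 : (1 - 2 / s) * s = s - 2 := by field_simp
            have e3 : 2 / s * s = 2 := by field_simp
            rw [e2, e3]
            congr 1
            rw [show (2 : ℝ) = ((2 : ℕ) : ℝ) by norm_num, Real.rpow_natCast, mul_pow,
              Real.sq_sqrt hb0, Real.sq_sqrt (by positivity)]
    have h9 : X ^ s = X ^ (s - 1) * X := by
      rw [← Real.rpow_add_one h0.ne']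
      congr 1
      ring
    rw [h9] at h8
    have h10 : a ^ (s - 2) * (b * (M * X)) = (a ^ (s - 2) * (b * M)) * X := by ring
    rw [h10] at h8
    exact le_of_mul_le_mul_right h8 h0

end Pool.Agent.K7.H84.AM
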