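import Pool.Agent.K7.H84.AM.Harm
import Pool.Agent.K7.H84.AM.Half
import Pool.Agent.K7.H84.AM.Sph
import Pool.Agent.R117.RL.ShellFull

/-!
The energy of sums of products of radial functions and harmonic polynomials.
-/

set_option autoImplicit false

open MeasureTheory Set Filter Topology Metric

namespace Pool.Agent.K7.H84.AM

open Pool.Agent.R117.RL (E sg om sg_pos)

/-- the square of the gradient of a real function -/
noncomputable def gr2 {d : ℕ} (v : E d → ℝ) (x : E d) : ℝ := ∑ i, fderiv ℝ v x (ee i) ^ 2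

section
variable {k : ℕ} {J : Type} [Fintype J]

/-- a sum of products of radial functions and polynomials -/
noncomputable def vv (Y : J → MP (k + 1)) (F : J → ℝ → ℝ) (x : E (k + 1)) : ℝ :=
  ∑ j, F j ‖x‖ * ev (Y j) x

theorem vv_deriv (Y : J → MP (k + 1)) {F : J → ℝ → ℝ} {F' : J → ℝ} {x : E (k + 1)} (hx : x ≠ 0)
    (hF : ∀ j, HasDerivAt (F j) (F' j) ‖x‖) :
    HasFDerivAt (vv Y F) (∑ j, (F j ‖x‖ • fderiv ℝ (ev (Y j)) x +
      ev (Y j) x • (F' j • ((1 / ‖x‖) • innerSL ℝ x)))) x := by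
  unfold vv
  apply HasFDerivAt.fun_sum
  intro j _
  have h1 : HasFDerivAt (fun y : E (k + 1) => F j ‖y‖) (F' j • ((1 / ‖x‖) • innerSL ℝ x)) x :=
    (hF j).comp_hasFDerivAt x (Pool.Agent.R117.RL.norm_deriv hx)
  exact h1.mul (ev_differentiable (Y j) x).hasFDerivAt

theorem vv_pder (Y : J → MP (k + 1)) {F : J → ℝ → ℝ} {F' : J → ℝ} {x : E (k + 1)} (hx : x ≠ 0)
    (hF : ∀ j, HasDerivAt (F j) (F' j) ‖x‖) (i : Fin (k + 1)) :
    fderiv ℝ (vv Y F) x (ee i) = x i / ‖x‖ * (∑ j, F' j * ev (Y j) x) +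
      ∑ j, F j ‖x‖ * ev (MvPolynomial.pderiv i (Y j)) x := by
  rw [(vv_deriv Y hx hF).fderiv, sum_apply, Finset.mul_sum, ← Finset.sum_add_distrib]
  refine Finset.sum_congr rfl fun j _ => ?_
  rw [add_apply, smul_apply, smul_apply, smul_apply, smul_apply, ev_pder, innerSL_apply_apply]
  have : inner ℝ x (ee i) = x i := by
    unfold ee
    rw [EuclideanSpace.inner_single_right]
    simp
  rw [this]
  simp only [smul_eq_mul]
  ring

variable [DecidableEq J]

/-- the integral of the square over a sphere -/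
theorem sph_sq {Y : J → MP (k + 1)} {dg : J → ℕ} (hY : ∀ j, Y j ∈ Harm k (dg j))
    (ho : ∀ i j, sp (Y i) (Y j) = if i = j then 1 else 0) (a : J → ℝ) (r : ℝ) :
    ∫ ω : Sph (k + 1), (∑ j, a j * ev (Y j) (r • (ω : E (k + 1)))) ^ 2 ∂(sig (k + 1)) =
      ∑ j, (r ^ dg j * a j) ^ 2 := by
  have h1 := ortho_real (μ := sig (k + 1)) (Y := fun j ω => ev (Y j) (ω : E (k + 1)))
    (fun j => ev_sph_cont (Y j)) ho (fun j => r ^ dg j * a j)
  rw [← h1]
  congr 1
  funext ω
  congr 1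
  refine Finset.sum_congr rfl fun j _ => ?_
  rw [ev_hom (hY j).1]
  ring

theorem sph_coord (ω : Sph (k + 1)) : ∑ i, ((ω : E (k + 1)) i) ^ 2 = 1 := by
  rw [← EuclideanSpace.real_norm_sq_eq, norm_eq_of_mem_sphere]
  norm_num

/-- the integral of the square of the gradient over a sphere -/
theorem sph_grad (hk : 1 ≤ k) {Y : J → MP (k + 1)} {dg : J → ℕ} (hY : ∀ j, Y j ∈ Harm k (dg j))
    (ho : ∀ i j, sp (Y i) (Y j) = if i = j then 1 else 0) {F : J → ℝ → ℝ} {F' : J → ℝ} {r : ℝ}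
    (hr : 0 < r) (hF : ∀ j, HasDerivAt (F j) (F' j) r) :
    ∫ ω : Sph (k + 1), gr2 (vv Y F) (r • (ω : E (k + 1))) ∂(sig (k + 1)) =
      ∑ j, ((r ^ dg j * F' j + (dg j : ℝ) / r * (r ^ dg j * F j r)) ^ 2 +
        (dg j : ℝ) * ((dg j : ℝ) + k - 1) * ((r ^ dg j * F j r) ^ 2 / r ^ 2)) := by
  set α : J → ℝ := fun j => r ^ dg j * F' j with hα
  set β : J → ℝ := fun j => r ^ dg j * F j r / r with hβ
  set δ : J → ℝ := fun j => dg j * β j with hδ
  have hpt : ∀ ω : Sph (k + 1), gr2 (vv Y F) (r • (ω : E (k + 1))) =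
      (∑ j, (α j + δ j) * ev (Y j) (ω : E (k + 1))) ^ 2 -
      (∑ j, δ j * ev (Y j) (ω : E (k + 1))) ^ 2 +
      ∑ i, (∑ j, β j * ev (MvPolynomial.pderiv i (Y j)) (ω : E (k + 1))) ^ 2 := by
    intro ω
    have hnr : ‖r • (ω : E (k + 1))‖ = r := norm_smul_sph hr ω
    have hx : r • (ω : E (k + 1)) ≠ 0 := by
      rw [← norm_ne_zero_iff, hnr]
      exact hr.ne'
    set A : ℝ := ∑ j, α j * ev (Y j) (ω : E (k + 1)) with hA
    set C : Fin (k + 1) → ℝ := fun i => ∑ j, β j * ev (MvPolynomial.pderiv i (Y j)) (ω : E (k + 1))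
      with hC
    set D : ℝ := ∑ j, δ j * ev (Y j) (ω : E (k + 1)) with hD
    have h1 : ∀ i, fderiv ℝ (vv Y F) (r • (ω : E (k + 1))) (ee i) = (ω : E (k + 1)) i * A + C i := by
      intro i
      rw [vv_pder Y (F' := F') hx (by rw [hnr]; exact hF), hnr]
      congr 1
      · rw [PiLp.smul_apply, smul_eq_mul, mul_div_assoc, mul_comm r, div_mul_cancel₀ _ hr.ne', hA]
        congr 1
        refine Finset.sum_congr rfl fun j _ => ?_
        rw [ev_hom (hY j).1, hα]
        ring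
      · rw [hC]
        refine Finset.sum_congr rfl fun j _ => ?_
        rw [pder_hom (hY j).1 i hr, hβ]
        ring
    have h2 : ∑ i, (ω : E (k + 1)) i * C i = D := by
      rw [hC, hD]
      have e : ∀ i, (ω : E (k + 1)) i * ∑ j, β j * ev (MvPolynomial.pderiv i (Y j)) (ω : E (k + 1)) =
          ∑ j, β j * ((ω : E (k + 1)) i * ev (MvPolynomial.pderiv i (Y j)) (ω : E (k + 1))) := by
        intro i
        rw [Finset.mul_sum]
        exact Finset.sum_congr rfl fun j _ => by ring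
      simp only [e]
      rw [Finset.sum_comm]
      refine Finset.sum_congr rfl fun j _ => ?_
      rw [← Finset.mul_sum, ev_euler (hY j).1, hδ]
      ring
    have h3 : ∑ j, (α j + δ j) * ev (Y j) (ω : E (k + 1)) = A + D := by
      rw [hA, hD, ← Finset.sum_add_distrib]
      exact Finset.sum_congr rfl fun j _ => by ring
    rw [h3]
    unfold gr2
    simp only [h1]
    have h4 : ∀ i, ((ω : E (k + 1)) i * A + C i) ^ 2 =
        ((ω : E (k + 1)) i) ^ 2 * A ^ 2 + 2 * A * ((ω : E (k + 1)) i * C i) + C i ^ 2 := by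
      intro i
      ring
    simp only [h4, Finset.sum_add_distrib, ← Finset.sum_mul, ← Finset.mul_sum]
    rw [sph_coord, h2]
    ring
  simp only [hpt]
  have hcY : ∀ a : J → ℝ, Continuous fun ω : Sph (k + 1) =>
      (∑ j, a j * ev (Y j) (ω : E (k + 1))) ^ 2 := fun a =>
    (continuous_finsetSum _ fun j _ => continuous_const.mul (ev_sph_cont (Y j))).pow 2
  have hcP : ∀ i, Continuous fun ω : Sph (k + 1) =>
      (∑ j, β j * ev (MvPolynomial.pderiv i (Y j)) (ω : E (k + 1))) ^ 2 := fun i =>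
    (continuous_finsetSum _ fun j _ => continuous_const.mul (ev_sph_cont _)).pow 2
  have hcS : Continuous fun ω : Sph (k + 1) =>
      ∑ i, (∑ j, β j * ev (MvPolynomial.pderiv i (Y j)) (ω : E (k + 1))) ^ 2 :=
    continuous_finsetSum _ fun i _ => hcP i
  have e1 : ∫ ω : Sph (k + 1), ((∑ j, (α j + δ j) * ev (Y j) (ω : E (k + 1))) ^ 2 -
      (∑ j, δ j * ev (Y j) (ω : E (k + 1))) ^ 2 +
      ∑ i, (∑ j, β j * ev (MvPolynomial.pderiv i (Y j)) (ω : E (k + 1))) ^ 2) ∂(sig (k + 1)) =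
      ∫ ω : Sph (k + 1), (∑ j, (α j + δ j) * ev (Y j) (ω : E (k + 1))) ^ 2 ∂(sig (k + 1)) -
      ∫ ω : Sph (k + 1), (∑ j, δ j * ev (Y j) (ω : E (k + 1))) ^ 2 ∂(sig (k + 1)) +
      ∫ ω : Sph (k + 1), ∑ i, (∑ j, β j *
        ev (MvPolynomial.pderiv i (Y j)) (ω : E (k + 1))) ^ 2 ∂(sig (k + 1)) := by
    rw [← integral_sub (sph_int (hcY _)) (sph_int (hcY _))]
    exact integral_add ((sph_int (hcY _)).sub (sph_int (hcY _))) (sph_int hcS)
  have hor := fun a : J → ℝ => ortho_real (μ := sig (k + 1))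
    (Y := fun j ω => ev (Y j) (ω : E (k + 1))) (fun j => ev_sph_cont (Y j)) ho a
  rw [e1, hor, hor]
  -- the gradients
  have e2 : ∀ ω : Sph (k + 1), ∑ i, (∑ j, β j *
        ev (MvPolynomial.pderiv i (Y j)) (ω : E (k + 1))) ^ 2 =
      ∑ j, ∑ j', β j * β j' * ∑ i, ev (MvPolynomial.pderiv i (Y j)) (ω : E (k + 1)) *
        ev (MvPolynomial.pderiv i (Y j')) (ω : E (k + 1)) := by
    intro ω
    have e3 : ∀ i, (∑ j, β j * ev (MvPolynomial.pderiv i (Y j)) (ω : E (k + 1))) ^ 2 =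
        ∑ j, ∑ j', β j * β j' * (ev (MvPolynomial.pderiv i (Y j)) (ω : E (k + 1)) *
          ev (MvPolynomial.pderiv i (Y j')) (ω : E (k + 1))) := by
      intro i
      rw [sq, Finset.sum_mul_sum]
      exact Finset.sum_congr rfl fun j _ => Finset.sum_congr rfl fun j' _ => by ring
    simp only [e3]
    rw [Finset.sum_comm]
    refine Finset.sum_congr rfl fun j _ => ?_
    rw [Finset.sum_comm]
    refine Finset.sum_congr rfl fun j' _ => ?_
    rw [Finset.mul_sum]
  simp only [e2]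
  have hI : ∀ j j', Integrable (fun ω : Sph (k + 1) => β j * β j' *
      ∑ i, ev (MvPolynomial.pderiv i (Y j)) (ω : E (k + 1)) *
        ev (MvPolynomial.pderiv i (Y j')) (ω : E (k + 1))) (sig (k + 1)) := fun j j' =>
    sph_int (continuous_const.mul
      (continuous_finsetSum _ fun i _ => (ev_sph_cont _).mul (ev_sph_cont _)))
  rw [integral_finsetSum _ fun j _ => integrable_finsetSum _ fun j' _ => hI j j']
  have e4 : ∀ j, ∫ ω : Sph (k + 1), ∑ j', β j * β j' *
      ∑ i, ev (MvPolynomial.pderiv i (Y j)) (ω : E (k + 1)) *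
        ev (MvPolynomial.pderiv i (Y j')) (ω : E (k + 1)) ∂(sig (k + 1)) =
      (dg j : ℝ) * (2 * (dg j : ℝ) + k - 1) * β j ^ 2 := by
    intro j
    rw [integral_finsetSum _ fun j' _ => hI j j']
    have e5 : ∀ j', ∫ ω : Sph (k + 1), β j * β j' *
      ∑ i, ev (MvPolynomial.pderiv i (Y j)) (ω : E (k + 1)) *
        ev (MvPolynomial.pderiv i (Y j')) (ω : E (k + 1)) ∂(sig (k + 1)) =
        if j = j' then (dg j : ℝ) * (2 * (dg j : ℝ) + k - 1) * β j ^ 2 else 0 := by
      intro j'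
      rw [integral_const_mul]
      have e6 : ∫ ω : Sph (k + 1), ∑ i, ev (MvPolynomial.pderiv i (Y j)) (ω : E (k + 1)) *
        ev (MvPolynomial.pderiv i (Y j')) (ω : E (k + 1)) ∂(sig (k + 1)) = gp (Y j) (Y j') := rfl
      have e7 : lap (Y j) = 0 := (hY j).2
      have e8 : sp (0 : MP (k + 1)) (Y j') = 0 := by
        unfold sp
        simp [ev_zero]
      rw [e6, green hk (hY j).1 (hY j').1, e7, e8, ho]
      by_cases hjj : j = j'
      · subst hjj
        rw [if_pos rfl, if_pos rfl]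
        ring
      · rw [if_neg hjj, if_neg hjj]
        ring
    simp only [e5]
    simp
  simp only [e4]
  rw [← Finset.sum_sub_distrib, ← Finset.sum_add_distrib]
  refine Finset.sum_congr rfl fun j _ => ?_
  rw [hδ, hβ, hα]
  field_simp
  ring

end

end Pool.Agent.K7.H84.AM
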