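import Pool.Agent.Helper717.LT.P_blockA

/-!
Gram matrices of finitely many vectors; systems of vector valued functions of one real variable.
-/

set_option autoImplicit false

open MeasureTheory Set Filter Topology
open scoped Matrix

namespace Pool.Agent.K7.H84.AM

variable {n : ℕ} {J : Type} [Fintype J]

/-- the Gram matrix of the vectors `x i ∈ ℝ^J` -/
def GM (x : Fin n → J → ℝ) : LTd.Mat n := Matrix.of fun i i' => ∑ j, x i j * x i' j

/-- the matrix of the vectors -/
def VM (x : Fin n → J → ℝ) : Matrix (Fin n) J ℝ := Matrix.of x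

theorem GM_eq (x y : Fin n → J → ℝ) :
    (Matrix.of fun i i' => ∑ j, x i j * y i' j : LTd.Mat n) = VM x * (VM y)ᵀ := by
  ext i i'
  simp [VM, Matrix.mul_apply]

theorem GM_quad (x : Fin n → J → ℝ) (v : Fin n → ℝ) :
    ∑ i, ∑ i', v i * v i' * GM x i i' = ∑ j, (∑ i, v i * x i j) ^ 2 := by
  have h1 : ∀ i i', v i * v i' * GM x i i' = ∑ j, (v i * x i j) * (v i' * x i' j) := by
    intro i i'
    unfold GM
    rw [Matrix.of_apply, Finset.mul_sum]
    refine Finset.sum_congr rfl fun j _ => ?_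
    ring
  simp only [h1]
  have h2 : ∀ j, (∑ i, v i * x i j) ^ 2 = ∑ i, ∑ i', (v i * x i j) * (v i' * x i' j) := by
    intro j
    rw [sq, Finset.sum_mul_sum]
  simp only [h2]
  rw [Finset.sum_comm (γ := J)]
  refine Finset.sum_congr rfl fun i _ => ?_
  rw [Finset.sum_comm]

theorem GM_psd (x : Fin n → J → ℝ) : LTd.PSD (GM x) := by
  refine ⟨fun i i' => ?_, fun v => ?_⟩
  · unfold GM
    rw [Matrix.of_apply, Matrix.of_apply]
    exact Finset.sum_congr rfl fun j _ => mul_comm _ _
  · rw [GM_quad]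
    exact Finset.sum_nonneg fun j _ => sq_nonneg _

theorem GM_trace (x : Fin n → J → ℝ) : (GM x).trace = ∑ i, ∑ j, x i j ^ 2 := by
  unfold GM Matrix.trace
  simp only [Matrix.diag_apply, Matrix.of_apply]
  exact Finset.sum_congr rfl fun i _ => Finset.sum_congr rfl fun j _ => (sq _).symm

/-- the Hilbert-Schmidt norm, in the two pictures -/
theorem GM_hs (x : Fin n → J → ℝ) :
    ∑ j, ∑ k, (∑ i, x i j * x i k) ^ 2 = (GM x * GM x).trace := by
  have h1 : (GM x * GM x).trace = ∑ i, ∑ i', (∑ j, x i j * x i' j) * (∑ k, x i k * x i' k) := by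
    simp only [Matrix.trace, Matrix.diag, Matrix.mul_apply]
    refine Finset.sum_congr rfl fun i _ => Finset.sum_congr rfl fun i' _ => ?_
    unfold GM
    rw [Matrix.of_apply, Matrix.of_apply]
    congr 1
    exact Finset.sum_congr rfl fun j _ => mul_comm _ _
  rw [h1]
  have h2 : ∀ j k, (∑ i, x i j * x i k) ^ 2 = ∑ i, ∑ i', (x i j * x i k) * (x i' j * x i' k) := by
    intro j k
    rw [sq, Finset.sum_mul_sum]
  have h3 : ∀ i i', (∑ j, x i j * x i' j) * (∑ k, x i k * x i' k) =
      ∑ j, ∑ k, (x i j * x i k) * (x i' j * x i' k) := by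
    intro i i'
    rw [Finset.sum_mul_sum]
    refine Finset.sum_congr rfl fun j _ => Finset.sum_congr rfl fun k _ => ?_
    ring
  simp only [h2, h3]
  -- j k i i' -> i i' j k
  calc ∑ j, ∑ k, ∑ i, ∑ i', (x i j * x i k) * (x i' j * x i' k)
      = ∑ j, ∑ i, ∑ k, ∑ i', (x i j * x i k) * (x i' j * x i' k) := by
        refine Finset.sum_congr rfl fun j _ => ?_
        rw [Finset.sum_comm]
    _ = ∑ i, ∑ j, ∑ k, ∑ i', (x i j * x i k) * (x i' j * x i' k) := by
        rw [Finset.sum_comm]
    _ = ∑ i, ∑ j, ∑ i', ∑ k, (x i j * x i k) * (x i' j * x i' k) := by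
        refine Finset.sum_congr rfl fun i _ => Finset.sum_congr rfl fun j _ => ?_
        rw [Finset.sum_comm]
    _ = ∑ i, ∑ i', ∑ j, ∑ k, (x i j * x i k) * (x i' j * x i' k) := by
        refine Finset.sum_congr rfl fun i _ => ?_
        rw [Finset.sum_comm]

theorem psd_traces {M : LTd.Mat n} (hM : LTd.PSD M) :
    ∃ r : Fin n → ℝ, (∀ i, 0 ≤ r i) ∧ M.trace = ∑ i, r i ∧ (M * M).trace = ∑ i, r i ^ 2 ∧
      (M * M * M).trace = ∑ i, r i ^ 3 := by
  obtain ⟨V, r, h1, h2, h3, h4⟩ := LTd.specP hM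
  have key : ∀ f : Fin n → ℝ, (V * Matrix.diagonal f * Vᵀ).trace = ∑ i, f i := by
    intro f
    rw [Matrix.mul_assoc, Matrix.trace_mul_comm, Matrix.mul_assoc, h2, Matrix.mul_one,
      Matrix.trace_diagonal]
  have e2 : M * M = V * Matrix.diagonal (fun i => r i ^ 2) * Vᵀ := by
    rw [h4]
    calc V * Matrix.diagonal r * Vᵀ * (V * Matrix.diagonal r * Vᵀ)
        = V * (Matrix.diagonal r * (Vᵀ * V) * Matrix.diagonal r) * Vᵀ := by
          simp only [Matrix.mul_assoc]
      _ = _ := by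
        rw [h2, Matrix.mul_one, Matrix.diagonal_mul_diagonal]
        congr 3
        funext i
        ring
  have e3 : M * M * M = V * Matrix.diagonal (fun i => r i ^ 3) * Vᵀ := by
    rw [e2, h4]
    calc V * Matrix.diagonal (fun i => r i ^ 2) * Vᵀ * (V * Matrix.diagonal r * Vᵀ)
        = V * (Matrix.diagonal (fun i => r i ^ 2) * (Vᵀ * V) * Matrix.diagonal r) * Vᵀ := by
          simp only [Matrix.mul_assoc]
      _ = _ := by
        rw [h2, Matrix.mul_one, Matrix.diagonal_mul_diagonal]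
        congr 3
  refine ⟨r, h3, ?_, ?_, ?_⟩
  · rw [h4]
    exact key r
  · rw [e2]
    exact key _
  · rw [e3]
    exact key _

theorem psd_tr3_nonneg {M : LTd.Mat n} (hM : LTd.PSD M) : 0 ≤ (M * M * M).trace := by
  obtain ⟨r, h0, -, -, h3⟩ := psd_traces hM
  rw [h3]
  exact Finset.sum_nonneg fun i _ => pow_nonneg (h0 i) 3

theorem psd_cs {M : LTd.Mat n} (hM : LTd.PSD M) :
    (M * M).trace ^ 2 ≤ (M * M * M).trace * M.trace := by
  obtain ⟨r, h0, h1, h2, h3⟩ := psd_traces hM
  rw [h1, h2, h3]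
  have h := Finset.sum_mul_sq_le_sq_mul_sq (Finset.univ : Finset (Fin n))
    (fun i => r i * √(r i)) (fun i => √(r i))
  have e1 : ∀ i, r i * √(r i) * √(r i) = r i ^ 2 := by
    intro i
    rw [mul_assoc, Real.mul_self_sqrt (h0 i)]
    ring
  have e2 : ∀ i, (r i * √(r i)) ^ 2 = r i ^ 3 := by
    intro i
    rw [mul_pow, Real.sq_sqrt (h0 i)]
    ring
  have e3 : ∀ i, √(r i) ^ 2 = r i := fun i => Real.sq_sqrt (h0 i)
  simp only [e1, e2, e3] at h
  exact h

/-- systems of vector valued functions of one variable -/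
theorem sys_of (g g' : Fin n → J → ℝ → ℝ) (hg : ∀ i j x, HasDerivAt (g i j) (g' i j x) x)
    (hc : ∀ i j, Continuous (g' i j)) (B : ℝ) (hB : ∀ i j x, B < |x| → g i j x = 0)
    (hB' : ∀ i j x, B < |x| → g' i j x = 0) :
    LTd.Sys (fun x => GM fun i j => g i j x)
      (fun x => Matrix.of fun i i' => ∑ j, g' i j x * g i' j x)
      (fun x => GM fun i j => g' i j x) where
  symR x i i' := (GM_psd _).1 i i'
  der x i i' := by
    have h1 : HasDerivAt (fun t => ∑ j, g i j t * g i' j t)
        (∑ j, (g' i j x * g i' j x + g i j x * g' i' j x)) x := by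
      apply HasDerivAt.fun_sum
      intro j _
      exact (hg i j x).mul (hg i' j x)
    have h2 : (Matrix.of fun i i' => ∑ j, g' i j x * g i' j x : LTd.Mat n) i i' +
        (Matrix.of fun i i' => ∑ j, g' i j x * g i' j x : LTd.Mat n) i' i =
        ∑ j, (g' i j x * g i' j x + g i j x * g' i' j x) := by
      rw [Matrix.of_apply, Matrix.of_apply, ← Finset.sum_add_distrib]
      exact Finset.sum_congr rfl fun j _ => by ring
    rw [h2]
    exact h1
  cS i i' := by
    have hgc : ∀ i j, Continuous (g i j) := fun i j =>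
      continuous_iff_continuousAt.2 fun x => (hg i j x).continuousAt
    simp only [Matrix.of_apply]
    exact continuous_finsetSum _ fun j _ => (hc i j).mul (hgc i' j)
  cQ i i' := by
    simp only [GM, Matrix.of_apply]
    exact continuous_finsetSum _ fun j _ => (hc i j).mul (hc i' j)
  supp := by
    refine ⟨B, fun x hx => ⟨?_, ?_, ?_⟩⟩
    · ext i i'
      simp [GM, hB _ _ x hx]
    · ext i i'
      simp [hB _ _ x hx]
    · ext i i'
      simp [GM, hB' _ _ x hx]
  key x X Y := by
    set A : Matrix (Fin n) J ℝ := VM fun i j => g' i j x with hA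
    set C : Matrix (Fin n) J ℝ := VM fun i j => g i j x with hC
    have e1 : GM (fun i j => g' i j x) = A * Aᵀ := GM_eq _ _
    have e2 : (Matrix.of fun i i' => ∑ j, g' i j x * g i' j x : LTd.Mat n) = A * Cᵀ :=
      GM_eq (fun i j => g' i j x) (fun i j => g i j x)
    have e3 : GM (fun i j => g i j x) = C * Cᵀ := GM_eq _ _
    rw [e1, e2, e3]
    have h1 : 0 ≤ ((X * A - Y * C) * (X * A - Y * C)ᵀ).trace := by
      simp only [Matrix.trace, Matrix.diag, Matrix.mul_apply, Matrix.transpose_apply]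
      exact Finset.sum_nonneg fun i _ => Finset.sum_nonneg fun j _ => mul_self_nonneg _
    have h2 : ((X * A - Y * C) * (X * A - Y * C)ᵀ).trace =
        (X * (A * Aᵀ) * Xᵀ).trace - 2 * (X * (A * Cᵀ) * Yᵀ).trace + (Y * (C * Cᵀ) * Yᵀ).trace := by
      rw [Matrix.transpose_sub, Matrix.sub_mul, Matrix.mul_sub, Matrix.mul_sub, Matrix.trace_sub,
        Matrix.trace_sub, Matrix.trace_sub, Matrix.transpose_mul, Matrix.transpose_mul]
      have h3 : (Y * C * (Aᵀ * Xᵀ)).trace = (X * A * (Cᵀ * Yᵀ)).trace := by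
        rw [← Matrix.trace_transpose]
        simp only [Matrix.transpose_mul, Matrix.transpose_transpose, Matrix.mul_assoc]
      rw [h3]
      simp only [Matrix.mul_assoc]
      ring
    rw [← h2]
    exact h1

end Pool.Agent.K7.H84.AM
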