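import Pool.Agent.K7.H84.AM.Gram

/-!
A Cauchy-Schwarz inequality for Gram matrices, with weights.
-/

set_option autoImplicit false

open MeasureTheory Set Filter Topology
open scoped Matrix

namespace Pool.Agent.K7.H84.AM

variable {n : ℕ} {J : Type} [Fintype J]

theorem GM_cs (x : Fin n → J → ℝ) {c : J → ℝ} (hc : ∀ j, 0 ≤ c j) :
    (∑ j, ∑ k, c j ^ (1 / 2 : ℝ) * (∑ i, x i j * x i k) ^ 2) ^ 2 ≤
      (∑ i, ∑ j, c j * x i j ^ 2) * (GM x * GM x * GM x).trace := by
  set y : Fin n → J → ℝ := fun i j => ∑ i', GM x i i' * x i' j with hy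
  have hsym : ∀ i i', GM x i i' = GM x i' i := (GM_psd x).1
  have h1 : ∀ j, ∑ k, (∑ i, x i j * x i k) ^ 2 = ∑ i, x i j * y i j := by
    intro j
    have e1 : ∀ k, (∑ i, x i j * x i k) ^ 2 = ∑ i, ∑ i', (x i j * x i k) * (x i' j * x i' k) := by
      intro k
      rw [sq, Finset.sum_mul_sum]
    simp only [e1]
    rw [Finset.sum_comm]
    refine Finset.sum_congr rfl fun i _ => ?_
    rw [Finset.sum_comm, hy]
    simp only
    rw [Finset.mul_sum]
    refine Finset.sum_congr rfl fun i' _ => ?_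
    unfold GM
    rw [Matrix.of_apply, Finset.sum_mul, Finset.mul_sum]
    exact Finset.sum_congr rfl fun k _ => by ring
  have h2 : ∑ j, ∑ k, c j ^ (1 / 2 : ℝ) * (∑ i, x i j * x i k) ^ 2 =
      ∑ p : Fin n × J, (c p.2 ^ (1 / 2 : ℝ) * x p.1 p.2) * y p.1 p.2 := by
    have e0 : ∑ p : Fin n × J, (c p.2 ^ (1 / 2 : ℝ) * x p.1 p.2) * y p.1 p.2 =
        ∑ j, ∑ i, (c j ^ (1 / 2 : ℝ) * x i j) * y i j := by
      rw [Fintype.sum_prod_type]
      exact Finset.sum_comm
    rw [e0]
    refine Finset.sum_congr rfl fun j _ => ?_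
    rw [← Finset.mul_sum, h1, Finset.mul_sum]
    exact Finset.sum_congr rfl fun i _ => by ring
  have h3 : ∑ p : Fin n × J, (c p.2 ^ (1 / 2 : ℝ) * x p.1 p.2) ^ 2 = ∑ i, ∑ j, c j * x i j ^ 2 := by
    rw [Fintype.sum_prod_type]
    refine Finset.sum_congr rfl fun i _ => Finset.sum_congr rfl fun j _ => ?_
    rw [mul_pow, ← Real.rpow_natCast (c j ^ (1 / 2 : ℝ)) 2, ← Real.rpow_mul (hc j)]
    norm_num
  have h4 : ∑ p : Fin n × J, y p.1 p.2 ^ 2 = (GM x * GM x * GM x).trace := by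
    rw [Fintype.sum_prod_type]
    have e2 : (GM x * GM x * GM x).trace = ∑ i, ∑ i', (∑ m, GM x i m * GM x m i') * GM x i' i := by
      simp only [Matrix.trace, Matrix.diag_apply, Matrix.mul_apply]
    have e3 : ∀ i, ∑ j, y i j ^ 2 = ∑ i', ∑ m, GM x i m * GM x i i' * GM x m i' := by
      intro i
      have e4 : ∀ j, y i j ^ 2 = ∑ i', ∑ m, (GM x i i' * x i' j) * (GM x i m * x m j) := by
        intro j
        rw [hy]
        simp only
        rw [sq, Finset.sum_mul_sum]
      simp only [e4]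
      rw [Finset.sum_comm]
      refine Finset.sum_congr rfl fun i' _ => ?_
      rw [Finset.sum_comm]
      refine Finset.sum_congr rfl fun m _ => ?_
      have e5 : GM x m i' = ∑ j, x m j * x i' j := rfl
      rw [e5, Finset.mul_sum]
      exact Finset.sum_congr rfl fun j _ => by ring
    rw [e2]
    refine Finset.sum_congr rfl fun i _ => ?_
    rw [e3]
    refine Finset.sum_congr rfl fun i' _ => ?_
    rw [Finset.sum_mul]
    refine Finset.sum_congr rfl fun m _ => ?_
    rw [hsym i' i]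
    ring
  rw [h2, ← h3, ← h4]
  exact Finset.sum_mul_sq_le_sq_mul_sq _ _ _

end Pool.Agent.K7.H84.AM
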