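import Pool.Agent.K7.H84.AM.Sphere

/-!
Green's identity for homogeneous polynomials on the sphere.
-/

set_option autoImplicit false

open MeasureTheory Set Filter Topology Metric

namespace Pool.Agent.K7.H84.AM

open Pool.Agent.R117.RL (E sg om)

/-- a bump function on the line around `1` -/
noncomputable def eta : ContDiffBump (1 : ℝ) := ⟨1 / 4, 1 / 2, by norm_num, by norm_num⟩

theorem eta_zero {t : ℝ} (h : t ≤ 1 / 2 ∨ 3 / 2 ≤ t) : eta t = 0 := by
  apply eta.zero_of_le_dist
  rw [Real.dist_eq]
  show (1 / 2 : ℝ) ≤ |t - 1|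
  rw [le_abs]
  rcases h with h | h
  · right
    linarith
  · left
    linarith

theorem eta_deriv (t : ℝ) : HasDerivAt eta (deriv eta t) t :=
  ((eta.contDiff (n := 1)).differentiable one_ne_zero t).hasDerivAt

theorem eta_deriv_cont : Continuous (deriv eta) :=
  (eta.contDiff (n := 1)).continuous_deriv le_rfl

theorem eta_deriv_zero {t : ℝ} (h : t < 1 / 2 ∨ 3 / 2 < t) : deriv eta t = 0 := by
  have h1 : (eta : ℝ → ℝ) =ᶠ[𝓝 t] fun _ => 0 := by
    have : ({y : ℝ | y < 1 / 2} ∪ {y : ℝ | 3 / 2 < y}) ∈ 𝓝 t :=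
      ((isOpen_lt continuous_id continuous_const).union
        (isOpen_lt continuous_const continuous_id)).mem_nhds h
    filter_upwards [this] with y hy
    apply eta_zero
    rcases hy with hy | hy
    · exact Or.inl hy.le
    · exact Or.inr hy.le
  rw [h1.deriv_eq]
  simp

section
variable {k : ℕ}

/-- the radial bump function -/
noncomputable def phi (x : E (k + 1)) : ℝ := eta (‖x‖ ^ 2)

theorem phi_fderiv (x v : E (k + 1)) : HasFDerivAt (phi (k := k))
    ((deriv eta (‖x‖ ^ 2)) • (2 • (innerSL ℝ x))) x := by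
  have h1 := (hasStrictFDerivAt_norm_sq x).hasFDerivAt
  exact (eta_deriv (‖x‖ ^ 2)).comp_hasFDerivAt x h1

theorem phi_cont : Continuous (phi (k := k)) := eta.continuous.comp (continuous_norm.pow 2)

theorem phi_supp : HasCompactSupport (phi (k := k)) := by
  apply HasCompactSupport.intro (isCompact_closedBall (0 : E (k + 1)) 2)
  intro x hx
  rw [mem_closedBall_zero_iff, not_le] at hx
  unfold phi
  apply eta_zero
  right
  nlinarith

theorem dphi_supp : HasCompactSupport (fun x : E (k + 1) => deriv eta (‖x‖ ^ 2)) := by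
  apply HasCompactSupport.intro (isCompact_closedBall (0 : E (k + 1)) 2)
  intro x hx
  rw [mem_closedBall_zero_iff, not_le] at hx
  apply eta_deriv_zero
  right
  nlinarith

/-- integration by parts -/
theorem green_space {p : MP (k + 1)} {l : ℕ} (hp : p.IsHomogeneous l) (q : MP (k + 1)) :
    ∫ x : E (k + 1), eta (‖x‖ ^ 2) * ∑ i, ev (MvPolynomial.pderiv i p) x *
        ev (MvPolynomial.pderiv i q) x =
      -(2 * l) * (∫ x : E (k + 1), deriv eta (‖x‖ ^ 2) * (ev p x * ev q x)) -
        ∫ x : E (k + 1), eta (‖x‖ ^ 2) * (ev (lap p) x * ev q x) := by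
  have hφ : Differentiable ℝ (phi (k := k)) := fun x => (phi_fderiv x 0).differentiableAt
  have hφi : ∀ (x : E (k + 1)) i, fderiv ℝ (phi (k := k)) x (ee i) =
      2 * x i * deriv eta (‖x‖ ^ 2) := by
    intro x i
    rw [(phi_fderiv x 0).fderiv]
    rw [smul_apply, smul_apply, innerSL_apply_apply]
    have : inner ℝ x (ee i) = x i := by
      unfold ee
      rw [EuclideanSpace.inner_single_right]
      simp
    rw [this]
    simp
    ring
  have hcs : ∀ g : E (k + 1) → ℝ, Continuous g → Integrable fun x => phi x * g x := fun g hg =>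
    (phi_cont.mul hg).integrable_of_hasCompactSupport phi_supp.mul_right
  have hcd : ∀ g : E (k + 1) → ℝ, Continuous g →
      Integrable fun x : E (k + 1) => deriv eta (‖x‖ ^ 2) * g x := fun g hg =>
    ((eta_deriv_cont.comp (continuous_norm.pow 2)).mul hg).integrable_of_hasCompactSupport
      dphi_supp.mul_right
  have h1 : ∀ i, ∫ x : E (k + 1), phi x * (ev (MvPolynomial.pderiv i p) x *
      ev (MvPolynomial.pderiv i q) x) =
      -(∫ x : E (k + 1), deriv eta (‖x‖ ^ 2) * (2 * (x i * ev (MvPolynomial.pderiv i p) x) * ev q x)) -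
        ∫ x : E (k + 1), phi x * (ev (MvPolynomial.pderiv i (MvPolynomial.pderiv i p)) x * ev q x) := by
    intro i
    set f : E (k + 1) → ℝ := fun x => phi x * ev (MvPolynomial.pderiv i p) x with hf
    have hfd : Differentiable ℝ f := hφ.mul (ev_differentiable _)
    have hfi : ∀ x, fderiv ℝ f x (ee i) = phi x *
        ev (MvPolynomial.pderiv i (MvPolynomial.pderiv i p)) x +
        deriv eta (‖x‖ ^ 2) * (2 * (x i * ev (MvPolynomial.pderiv i p) x)) := by
      intro x
      rw [hf, fderiv_fun_mul (hφ x) (ev_differentiable _ x), add_apply, smul_apply, smul_apply,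
        ev_pder, hφi, smul_eq_mul, smul_eq_mul]
      ring
    have hcx : Continuous fun x : E (k + 1) => x i := (coord_contDiff 0 i).continuous
    have hI1 : Integrable fun x => phi x *
        (ev (MvPolynomial.pderiv i (MvPolynomial.pderiv i p)) x * ev q x) :=
      hcs _ ((ev_continuous _).mul (ev_continuous _))
    have hI2 : Integrable fun x : E (k + 1) => deriv eta (‖x‖ ^ 2) *
        (2 * (x i * ev (MvPolynomial.pderiv i p) x) * ev q x) :=
      hcd _ ((continuous_const.mul (hcx.mul (ev_continuous _))).mul (ev_continuous _))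
    have e1 : ∀ x, fderiv ℝ f x (ee i) * ev q x = phi x *
        (ev (MvPolynomial.pderiv i (MvPolynomial.pderiv i p)) x * ev q x) +
        deriv eta (‖x‖ ^ 2) * (2 * (x i * ev (MvPolynomial.pderiv i p) x) * ev q x) := by
      intro x
      rw [hfi]
      ring
    have e2 : ∀ x, f x * fderiv ℝ (ev q) x (ee i) = phi x * (ev (MvPolynomial.pderiv i p) x *
      ev (MvPolynomial.pderiv i q) x) := by
      intro x
      rw [ev_pder, hf]
      ring
    have h2 := integral_mul_fderiv_eq_neg_fderiv_mul_of_integrable (μ := (volume : Measure (E (k + 1))))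
      (f := f) (g := ev q) (v := ee i)
      (by
        simp only [e1]
        exact hI1.add hI2)
      (by
        simp only [e2]
        exact hcs _ ((ev_continuous _).mul (ev_continuous _)))
      (by
        have : (fun x => f x * ev q x) = fun x => phi x * (ev (MvPolynomial.pderiv i p) x * ev q x) := by
          funext x
          rw [hf]
          ring
        rw [this]
        exact hcs _ ((ev_continuous _).mul (ev_continuous _)))
      (fun x _ => hfd x) (fun x _ => ev_differentiable q x)
    simp only [e1, e2] at h2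
    rw [h2, integral_add hI1 hI2]
    ring
  have h3 : ∀ x : E (k + 1), eta (‖x‖ ^ 2) * ∑ i, ev (MvPolynomial.pderiv i p) x *
        ev (MvPolynomial.pderiv i q) x = ∑ i, phi x * (ev (MvPolynomial.pderiv i p) x *
        ev (MvPolynomial.pderiv i q) x) := by
    intro x
    rw [Finset.mul_sum]
    rfl
  simp only [h3]
  have hIa : ∀ i, Integrable fun x : E (k + 1) => phi x * (ev (MvPolynomial.pderiv i p) x *
      ev (MvPolynomial.pderiv i q) x) := fun i => hcs _ ((ev_continuous _).mul (ev_continuous _))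
  rw [integral_finsetSum _ fun i _ => hIa i]
  rw [Finset.sum_congr rfl fun i _ => h1 i, Finset.sum_sub_distrib, Finset.sum_neg_distrib]
  congr 1
  · have hcx : ∀ i, Continuous fun x : E (k + 1) => x i := fun i => (coord_contDiff 0 i).continuous
    have hIb : ∀ i, Integrable fun x : E (k + 1) => deriv eta (‖x‖ ^ 2) *
        (2 * (x i * ev (MvPolynomial.pderiv i p) x) * ev q x) := fun i =>
      hcd _ ((continuous_const.mul ((hcx i).mul (ev_continuous _))).mul (ev_continuous _))
    rw [← integral_finsetSum _ fun i _ => hIb i]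
    rw [neg_mul, ← integral_const_mul]
    congr 1
    congr 1
    funext x
    have h4 := ev_euler hp x
    rw [← Finset.mul_sum, ← Finset.sum_mul, ← Finset.mul_sum, h4]
    ring
  · have hIc : ∀ i, Integrable fun x : E (k + 1) => phi x *
        (ev (MvPolynomial.pderiv i (MvPolynomial.pderiv i p)) x * ev q x) := fun i =>
      hcs _ ((ev_continuous _).mul (ev_continuous _))
    rw [← integral_finsetSum _ fun i _ => hIc i]
    congr 1
    funext x
    rw [← Finset.mul_sum, ← Finset.sum_mul, lap_apply, ev_sum]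
    rfl

/-- the radial moment of the bump function -/
noncomputable def mom (k n : ℕ) : ℝ := ∫ r in Ioi (0 : ℝ), r ^ k * (eta (r ^ 2) * (r ^ n / r ^ 2))

theorem mom_int (k n : ℕ) : IntegrableOn (fun r : ℝ => r ^ k * (eta (r ^ 2) * (r ^ n / r ^ 2)))
    (Ioi (0 : ℝ)) := by
  have h1 : ContinuousOn (fun r : ℝ => r ^ k * (eta (r ^ 2) * (r ^ n / r ^ 2))) (Icc (1 / 2) 2) := by
    apply ContinuousOn.mul (continuous_pow k).continuousOn
    apply ContinuousOn.mul (eta.continuous.comp (continuous_pow 2)).continuousOn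
    apply ContinuousOn.div (continuous_pow n).continuousOn (continuous_pow 2).continuousOn
    intro r hr
    have : (0 : ℝ) < r := by linarith [hr.1]
    positivity
  have h2 : IntegrableOn (fun r : ℝ => r ^ k * (eta (r ^ 2) * (r ^ n / r ^ 2))) (Icc (1 / 2) 2) :=
    h1.integrableOn_compact isCompact_Icc
  refine IntegrableOn.of_forall_sdiff_eq_zero h2 measurableSet_Ioi fun r hr => ?_
  have hr0 : (0 : ℝ) < r := hr.1
  have : eta (r ^ 2) = 0 := by
    apply eta_zero
    by_cases h : r < 1 / 2
    · left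
      nlinarith
    · right
      have h3 : 2 < r := by
        by_contra hcon
        exact hr.2 ⟨not_lt.1 h, not_lt.1 hcon⟩
      nlinarith
  rw [this]
  ring

theorem mom_pos (k n : ℕ) : 0 < mom k n := by
  unfold mom
  rw [integral_pos_iff_support_of_nonneg_ae _ (mom_int k n)]
  · have hsub : Icc (19 / 20 : ℝ) (21 / 20) ⊆
        Function.support (fun r : ℝ => r ^ k * (eta (r ^ 2) * (r ^ n / r ^ 2))) := by
      intro r hr
      have hr0 : (0 : ℝ) < r := by linarith [hr.1]
      have h1 : eta (r ^ 2) = 1 := by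
        apply eta.one_of_mem_closedBall
        rw [mem_closedBall, Real.dist_eq]
        show |r ^ 2 - 1| ≤ 1 / 4
        rw [abs_le]
        constructor <;> nlinarith [hr.1, hr.2]
      rw [Function.mem_support, h1]
      positivity
    have hm : 0 < (volume.restrict (Ioi (0 : ℝ))) (Icc (19 / 20 : ℝ) (21 / 20)) := by
      rw [Measure.restrict_apply measurableSet_Icc]
      have : Icc (19 / 20 : ℝ) (21 / 20) ∩ Ioi 0 = Icc (19 / 20) (21 / 20) := by
        apply inter_eq_left.2
        intro r hr
        have : (0 : ℝ) < r := by linarith [hr.1]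
        exact this
      rw [this, Real.volume_Icc]
      rw [ENNReal.ofReal_pos]
      norm_num
    exact lt_of_lt_of_le hm (measure_mono hsub)
  · refine (ae_restrict_mem measurableSet_Ioi).mono fun r hr => ?_
    have hr0 : (0 : ℝ) < r := hr
    have : 0 ≤ eta (r ^ 2) := eta.nonneg
    simp only [Pi.zero_apply]
    positivity

/-- integration by parts for the moments -/
theorem mom_deriv {k : ℕ} (hk : 1 ≤ k) (n : ℕ) :
    2 * ∫ r in Ioi (0 : ℝ), r ^ k * (deriv eta (r ^ 2) * r ^ n) = -((k : ℝ) + n - 1) * mom k n := by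
  obtain ⟨a, rfl⟩ : ∃ a, k = a + 1 := ⟨k - 1, by omega⟩
  set N := a + n with hN
  have hI2 : IntegrableOn (fun r : ℝ => r ^ (a + 1) * (deriv eta (r ^ 2) * r ^ n)) (Ioi (0 : ℝ)) := by
    have h1 : Continuous (fun r : ℝ => r ^ (a + 1) * (deriv eta (r ^ 2) * r ^ n)) :=
      (continuous_pow _).mul ((eta_deriv_cont.comp (continuous_pow 2)).mul (continuous_pow n))
    have h2 : HasCompactSupport (fun r : ℝ => r ^ (a + 1) * (deriv eta (r ^ 2) * r ^ n)) := by
      apply HasCompactSupport.intro (isCompact_Icc (a := (-2 : ℝ)) (b := 2))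
      intro r hr
      have : deriv eta (r ^ 2) = 0 := by
        apply eta_deriv_zero
        right
        have h3 : ¬ |r| ≤ 2 := fun h => hr (abs_le.1 h)
        rw [not_le] at h3
        rw [← sq_abs]
        nlinarith
      rw [this]
      ring
    exact (h1.integrable_of_hasCompactSupport h2).integrableOn
  have hderiv : ∀ r ∈ Ioi (0 : ℝ), HasDerivAt (fun r : ℝ => r ^ N * eta (r ^ 2))
      ((N : ℝ) * (r ^ (a + 1) * (eta (r ^ 2) * (r ^ n / r ^ 2))) +
        2 * (r ^ (a + 1) * (deriv eta (r ^ 2) * r ^ n))) r := by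
    intro r hr
    have hr0 : (0 : ℝ) < r := hr
    have h1 : HasDerivAt (fun r : ℝ => r ^ 2) (2 * r) r := by simpa using hasDerivAt_pow 2 r
    have h2 : HasDerivAt (fun r : ℝ => eta (r ^ 2)) (deriv eta (r ^ 2) * (2 * r)) r :=
      (eta_deriv _).comp r h1
    have h3 : HasDerivAt (fun r : ℝ => r ^ N) ((N : ℝ) * (r ^ N / r)) r := by
      have := hasDerivAt_pow N r
      rcases Nat.eq_zero_or_pos N with h0 | h0
      · rw [h0] at this ⊢
        simpa using this
      · obtain ⟨M, hM⟩ : ∃ M, N = M + 1 := ⟨N - 1, by omega⟩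
        rw [hM] at this ⊢
        have e : r ^ (M + 1) / r = r ^ M := by
          field_simp
          ring
        rw [e]
        simpa using this
    have h4 := h3.mul h2
    refine h4.congr_deriv ?_
    rw [hN, pow_add]
    field_simp
    ring
  have hint : IntegrableOn (fun r : ℝ => (N : ℝ) * (r ^ (a + 1) * (eta (r ^ 2) * (r ^ n / r ^ 2))) +
        2 * (r ^ (a + 1) * (deriv eta (r ^ 2) * r ^ n))) (Ioi (0 : ℝ)) :=
    ((mom_int (a + 1) n).const_mul _).add (hI2.const_mul _)
  have hlim : Tendsto (fun r : ℝ => r ^ N * eta (r ^ 2)) atTop (𝓝 0) := by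
    apply tendsto_const_nhds.congr'
    filter_upwards [eventually_gt_atTop 2] with r hr
    have : eta (r ^ 2) = 0 := eta_zero (Or.inr (by nlinarith))
    rw [this, mul_zero]
  have hcont : ContinuousWithinAt (fun r : ℝ => r ^ N * eta (r ^ 2)) (Ici 0) 0 :=
    (((continuous_pow N).mul (eta.continuous.comp (continuous_pow 2))).continuousAt).continuousWithinAt
  have h5 := integral_Ioi_of_hasDerivAt_of_tendsto hcont hderiv hint hlim
  have h6 : eta ((0 : ℝ) ^ 2) = 0 := eta_zero (Or.inl (by norm_num))
  rw [h6, mul_zero, sub_zero, integral_add ((mom_int (a + 1) n).const_mul _) (hI2.const_mul _),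
    integral_const_mul, integral_const_mul] at h5
  have h7 : mom (a + 1) n = ∫ r in Ioi (0 : ℝ), r ^ (a + 1) * (eta (r ^ 2) * (r ^ n / r ^ 2)) := rfl
  rw [← h7] at h5
  have h8 : (N : ℝ) = ((a + 1 : ℕ) : ℝ) + n - 1 := by
    rw [hN]
    push_cast
    ring
  rw [← h8]
  linarith

theorem pder_hom {p : MP (k + 1)} {l : ℕ} (hp : p.IsHomogeneous l) (i : Fin (k + 1)) {r : ℝ}
    (hr : 0 < r) (x : E (k + 1)) :
    ev (MvPolynomial.pderiv i p) (r • x) = r ^ l / r * ev (MvPolynomial.pderiv i p) x := by
  rcases Nat.eq_zero_or_pos l with h0 | h0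
  · have h1 : MvPolynomial.pderiv i p = 0 := by
      rw [h0, ← MvPolynomial.totalDegree_zero_iff_isHomogeneous,
        MvPolynomial.totalDegree_eq_zero_iff_eq_C] at hp
      rw [hp]
      simp
    rw [h1, ev_zero, ev_zero, mul_zero]
  · obtain ⟨m, rfl⟩ : ∃ m, l = m + 1 := ⟨l - 1, by omega⟩
    have h1 : (MvPolynomial.pderiv i p).IsHomogeneous m := hp.pderiv
    rw [ev_hom h1]
    congr 1
    field_simp
    ring

theorem lap_ev_hom {p : MP (k + 1)} {l : ℕ} (hp : p.IsHomogeneous l) {r : ℝ}
    (hr : 0 < r) (x : E (k + 1)) : ev (lap p) (r • x) = r ^ l / r ^ 2 * ev (lap p) x := by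
  rcases Nat.lt_or_ge 1 l with h0 | h0
  · obtain ⟨m, rfl⟩ : ∃ m, l = m + 2 := ⟨l - 2, by omega⟩
    have h1 : (lap p).IsHomogeneous m := lap_hom hp
    rw [ev_hom h1]
    congr 1
    field_simp
    ring
  · rw [lap_low hp h0, ev_zero, ev_zero, mul_zero]

/-- the inner product of the gradients on the sphere -/
noncomputable def gp (p q : MP (k + 1)) : ℝ :=
  ∫ ω : Sph (k + 1), ∑ i, ev (MvPolynomial.pderiv i p) (ω : E (k + 1)) *
    ev (MvPolynomial.pderiv i q) (ω : E (k + 1)) ∂(sig (k + 1))

theorem gp_comm (p q : MP (k + 1)) : gp p q = gp q p := by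
  unfold gp
  congr 1
  funext ω
  exact Finset.sum_congr rfl fun i _ => mul_comm _ _

/-- Green's identity on the sphere -/
theorem green (hk : 1 ≤ k) {p q : MP (k + 1)} {l m : ℕ} (hp : p.IsHomogeneous l)
    (hq : q.IsHomogeneous m) :
    gp p q = l * ((k : ℝ) + l + m - 1) * sp p q - sp (lap p) q := by
  have h1 := green_space hp q
  have hcs : ∀ g : E (k + 1) → ℝ, Continuous g →
      Integrable fun x : E (k + 1) => eta (‖x‖ ^ 2) * g x := fun g hg =>
    (phi_cont.mul hg).integrable_of_hasCompactSupport phi_supp.mul_right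
  have hcd : ∀ g : E (k + 1) → ℝ, Continuous g →
      Integrable fun x : E (k + 1) => deriv eta (‖x‖ ^ 2) * g x := fun g hg =>
    ((eta_deriv_cont.comp (continuous_norm.pow 2)).mul hg).integrable_of_hasCompactSupport
      dphi_supp.mul_right
  have h2 := hom_radial (k := k) (ψ := fun r => eta (r ^ 2)) (κ := fun r => r ^ (l + m) / r ^ 2)
    (h := fun x => ∑ i, ev (MvPolynomial.pderiv i p) x * ev (MvPolynomial.pderiv i q) x)
    (fun r hr ω => by
      rw [Finset.mul_sum]
      refine Finset.sum_congr rfl fun i _ => ?_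
      rw [pder_hom hp i hr, pder_hom hq i hr, pow_add]
      field_simp)
    (hcs _ (continuous_finsetSum _ fun i _ => (ev_continuous _).mul (ev_continuous _)))
  have h3 := hom_radial (k := k) (ψ := fun r => deriv eta (r ^ 2)) (κ := fun r => r ^ (l + m))
    (h := fun x => ev p x * ev q x)
    (fun r hr ω => by
      rw [ev_hom hp, ev_hom hq, pow_add]
      ring)
    (hcd _ ((ev_continuous _).mul (ev_continuous _)))
  have h4 := hom_radial (k := k) (ψ := fun r => eta (r ^ 2)) (κ := fun r => r ^ (l + m) / r ^ 2)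
    (h := fun x => ev (lap p) x * ev q x)
    (fun r hr ω => by
      rw [lap_ev_hom hp hr, ev_hom hq, pow_add]
      field_simp)
    (hcs _ ((ev_continuous _).mul (ev_continuous _)))
  rw [h2, h3, h4] at h1
  have h5 := mom_deriv hk (l + m)
  have hM := mom_pos k (l + m)
  have e1 : (∫ r in Ioi (0 : ℝ), r ^ k * (eta (r ^ 2) * (r ^ (l + m) / r ^ 2))) = mom k (l + m) := rfl
  rw [e1] at h1
  have e2 : ∫ ω : Sph (k + 1), ∑ i, ev (MvPolynomial.pderiv i p) (ω : E (k + 1)) *
    ev (MvPolynomial.pderiv i q) (ω : E (k + 1)) ∂(sig (k + 1)) = gp p q := rfl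
  have e3 : ∫ ω : Sph (k + 1), ev p (ω : E (k + 1)) * ev q (ω : E (k + 1)) ∂(sig (k + 1)) =
    sp p q := rfl
  have e4 : ∫ ω : Sph (k + 1), ev (lap p) (ω : E (k + 1)) * ev q (ω : E (k + 1)) ∂(sig (k + 1)) =
    sp (lap p) q := rfl
  rw [e2, e3, e4] at h1
  have h6 : mom k (l + m) * gp p q =
      mom k (l + m) * (l * ((k : ℝ) + l + m - 1) * sp p q - sp (lap p) q) := by
    rw [h1]
    set X := ∫ r in Ioi (0 : ℝ), r ^ k * (deriv eta (r ^ 2) * r ^ (l + m)) with hX
    have h7 : X = -((k : ℝ) + (l + m : ℕ) - 1) * mom k (l + m) / 2 := by linarith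
    rw [h7]
    push_cast
    ring
  exact mul_left_cancel₀ hM.ne' h6

/-- harmonic polynomials are orthogonal to all polynomials of lower degree -/
theorem harm_orth (hk : 1 ≤ k) {p : MP (k + 1)} {l : ℕ} (hp : p.IsHomogeneous l)
    (hh : lap p = 0) : ∀ (m : ℕ), m < l → ∀ q : MP (k + 1), q.IsHomogeneous m → sp p q = 0 := by
  intro m
  induction m using Nat.strong_induction_on with
  | _ m ih =>
    intro hm q hq
    have h1 := green hk hp hq
    have h2 := green hk hq hp
    rw [gp_comm, h2, hh] at h1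
    have h3 : sp (0 : MP (k + 1)) q = 0 := by
      unfold sp
      simp [ev_zero]
    rw [h3, sp_comm q p] at h1
    have h4 : sp (lap q) p = 0 := by
      rcases Nat.lt_or_ge 1 m with h0 | h0
      · rw [sp_comm]
        exact ih (m - 2) (by omega) (by omega) _ (lap_hom hq)
      · rw [lap_low hq h0]
        unfold sp
        simp [ev_zero]
    rw [h4] at h1
    have hk' : (1 : ℝ) ≤ k := by exact_mod_cast hk
    have hm' : (m : ℝ) < l := by exact_mod_cast hm
    have hm0 : (0 : ℝ) ≤ m := Nat.cast_nonneg m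
    have h5 : ((l : ℝ) - m) * ((k : ℝ) + l + m - 1) * sp p q = 0 := by linarith
    have h6 : 0 < ((l : ℝ) - m) * ((k : ℝ) + l + m - 1) := by
      apply mul_pos <;> linarith
    exact (mul_eq_zero.1 h5).resolve_left h6.ne'

end

end Pool.Agent.K7.H84.AM
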