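import Pool.Agent.K7.H84.AM.Green

/-!
Orthonormal bases of the harmonic polynomials, and their kernels.
-/

set_option autoImplicit false

open MeasureTheory Set Filter Topology Metric

namespace Pool.Agent.K7.H84.AM

open Pool.Agent.R117.RL (E sg om sg_pos)

/-- the number of independent harmonic homogeneous polynomials of degree `l` in `k + 1` variables -/
def nh (k l : ℕ) : ℝ := ((l + k).choose l : ℕ) - if 2 ≤ l then (((l - 2 + k).choose (l - 2) : ℕ) : ℝ) else 0

/-- the harmonic homogeneous polynomials -/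
noncomputable def Harm (k l : ℕ) : Submodule ℝ (MP (k + 1)) :=
  MvPolynomial.homogeneousSubmodule (Fin (k + 1)) ℝ l ⊓ LinearMap.ker lap

theorem sp_nsq_right {k : ℕ} (p q : MP (k + 1)) : sp p (nsq * q) = sp p q := by
  unfold sp
  congr 1
  funext ω
  rw [ev_mul, ev_nsq, norm_eq_of_mem_sphere]
  ring

theorem ev_nsq_mul {k : ℕ} (q : MP (k + 1)) (ω : Sph (k + 1)) :
    ev (nsq * q) (ω : E (k + 1)) = ev q (ω : E (k + 1)) := by
  rw [ev_mul, ev_nsq, norm_eq_of_mem_sphere]
  ring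

/-- the kernel bound for orthonormal harmonic polynomials -/
theorem harm_kernel {k : ℕ} (hk : 1 ≤ k) {l m : ℕ} {Y : Fin m → MP (k + 1)}
    (hY : ∀ j, Y j ∈ Harm k l) (ho : ∀ i j, sp (Y i) (Y j) = if i = j then 1 else 0)
    (ω : Sph (k + 1)) : ∑ j, ev (Y j) (ω : E (k + 1)) ^ 2 ≤ nh k l / sg (k + 1) := by
  have hsg := sg_pos (Nat.succ_pos k)
  obtain ⟨K, hK1, hK2, -⟩ := kernel k l
  set P₀ : MP (k + 1) := ∑ j, ev (Y j) (ω : E (k + 1)) • Y j with hP₀
  have hP₀h : P₀.IsHomogeneous l := by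
    have : P₀ ∈ MvPolynomial.homogeneousSubmodule (Fin (k + 1)) ℝ l :=
      Submodule.sum_mem _ fun i _ => Submodule.smul_mem _ _ (hY i).1
    exact this
  have hP₀l : lap P₀ = 0 := by
    have : P₀ ∈ LinearMap.ker (lap (d := k + 1)) :=
      Submodule.sum_mem _ fun i _ => Submodule.smul_mem _ _ (hY i).2
    exact this
  have h1 : ev P₀ (ω : E (k + 1)) = ∑ j, ev (Y j) (ω : E (k + 1)) ^ 2 := by
    rw [hP₀, ev_sum]
    refine Finset.sum_congr rfl fun j _ => ?_
    rw [ev_smul, sq]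
  have h2 : sp P₀ P₀ = ∑ j, ev (Y j) (ω : E (k + 1)) ^ 2 := sp_self_of_onb ho _
  have hn : 0 ≤ ∑ j, ev (Y j) (ω : E (k + 1)) ^ 2 := Finset.sum_nonneg fun j _ => sq_nonneg _
  set S := ∑ j, ev (Y j) (ω : E (k + 1)) ^ 2 with hS
  have hK0 : 0 ≤ K := by
    have : 0 ≤ K * sg (k + 1) := by rw [hK1]; positivity
    exact nonneg_of_mul_nonneg_left this hsg
  by_cases h2l : 2 ≤ l
  · obtain ⟨K', hK1', -, hK3'⟩ := kernel k (l - 2)
    obtain ⟨q, hq1, hq2, hq3, -⟩ := hK3' ω
    have hK0' : 0 ≤ K' := by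
      have : 0 ≤ K' * sg (k + 1) := by rw [hK1']; positivity
      exact nonneg_of_mul_nonneg_left this hsg
    set P : MP (k + 1) := P₀ + nsq * q with hP
    have hPh : P.IsHomogeneous l := by
      apply hP₀h.add
      have := nsq_hom.mul hq1
      have e : 2 + (l - 2) = l := by omega
      rwa [e] at this
    have h3 : ev P (ω : E (k + 1)) = S + K' := by
      rw [hP, ev_add, h1, ev_nsq_mul, hq2]
    have h4 : sp P P = S + K' := by
      have h5 : sp P₀ q = 0 := harm_orth hk hP₀h hP₀l (l - 2) (by omega) q hq1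
      rw [hP, sp_add_left, sp_add_right, sp_add_right, sp_nsq_right, sp_nsq_right, h2, h5,
        sp_comm (nsq * q) P₀, sp_nsq_right, h5, sp_comm (nsq * q) q, sp_nsq_right, hq3]
      ring
    have h6 := hK2 P hPh ω
    rw [h3, h4] at h6
    have h7 : S + K' ≤ K := by
      rcases (add_nonneg hn hK0').eq_or_lt with h8 | h8
      · rw [← h8]
        exact hK0
      · nlinarith
    unfold nh
    rw [if_pos h2l, le_div_iff₀ hsg, ← hK1, ← hK1']
    nlinarith
  · have h6 := hK2 P₀ hP₀h ω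
    rw [h1, h2] at h6
    have h7 : S ≤ K := by
      rcases hn.eq_or_lt with h8 | h8
      · rw [← h8]
        exact hK0
      · nlinarith
    unfold nh
    rw [if_neg h2l, sub_zero, le_div_iff₀ hsg, ← hK1]
    nlinarith

theorem harm_orth' {k : ℕ} (hk : 1 ≤ k) {l m : ℕ} (hlm : l ≠ m) {p q : MP (k + 1)}
    (hp : p ∈ Harm k l) (hq : q ∈ Harm k m) : sp p q = 0 := by
  rcases lt_or_gt_of_ne hlm with h | h
  · rw [sp_comm]
    exact harm_orth hk hq.1 hq.2 l h p hp.1
  · exact harm_orth hk hp.1 hp.2 m h q hq.1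

/-- orthonormal basis of the harmonic polynomials with degrees in a finite set -/
theorem exists_basis {k : ℕ} (hk : 1 ≤ k) (L : Finset ℕ) :
    ∃ (J : Type) (_ : Fintype J) (_ : DecidableEq J) (Y : J → MP (k + 1)) (dg : J → ℕ),
      (∀ j, dg j ∈ L ∧ Y j ∈ Harm k (dg j)) ∧
      (∀ i j, sp (Y i) (Y j) = if i = j then 1 else 0) ∧
      (∀ (g : ℕ → ℝ), (∀ l ∈ L, 0 ≤ g l) → ∀ ω : Sph (k + 1),
        ∑ j, g (dg j) * ev (Y j) (ω : E (k + 1)) ^ 2 ≤ ∑ l ∈ L, g l * (nh k l / sg (k + 1))) ∧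
      (∀ l ∈ L, ∀ p ∈ Harm k l, p = ∑ j, sp p (Y j) • Y j) := by
  classical
  have h0 : ∀ l : ℕ, ∃ b : Fin (Module.finrank ℝ (Harm k l)) → MP (k + 1), (∀ i, b i ∈ Harm k l) ∧
      (∀ i j, sp (b i) (b j) = if i = j then 1 else 0) ∧
      ∀ p ∈ Harm k l, p = ∑ i, sp p (b i) • b i := fun l =>
    exists_onb (l := l) (Harm k l) inf_le_left
  choose b hb1 hb2 hb3 using h0
  refine ⟨Σ l : L, Fin (Module.finrank ℝ (Harm k l)), inferInstance, inferInstance,
    fun j => b j.1 j.2, fun j => j.1, fun j => ⟨j.1.2, hb1 _ _⟩, ?_, ?_, ?_⟩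
  · rintro ⟨l, i⟩ ⟨m, j⟩
    by_cases hlm : l = m
    · subst hlm
      simp only [hb2]
      by_cases hij : i = j
      · subst hij
        simp
      · rw [if_neg hij, if_neg]
        intro h
        apply hij
        simpa using h
    · rw [if_neg (by
        intro h
        exact hlm (congrArg Sigma.fst h))]
      exact harm_orth' hk (fun h => hlm (Subtype.ext h)) (hb1 _ _) (hb1 _ _)
  · intro g hg ω
    rw [Fintype.sum_sigma, ← Finset.sum_coe_sort L (fun l => g l * (nh k l / sg (k + 1)))]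
    refine Finset.sum_le_sum fun l _ => ?_
    simp only
    rw [← Finset.mul_sum]
    exact mul_le_mul_of_nonneg_left (harm_kernel hk (hb1 l) (hb2 l) ω) (hg l l.2)
  · intro l hl p hp
    rw [Fintype.sum_sigma, Finset.sum_eq_single (⟨l, hl⟩ : L)]
    · exact hb3 l p hp
    · intro m _ hm
      refine Finset.sum_eq_zero fun i _ => ?_
      have : sp p (b m i) = 0 :=
        harm_orth' hk (fun h => hm (Subtype.ext h.symm)) hp (hb1 _ _)
      simp only
      rw [this, zero_smul]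
    · intro h
      exact absurd (Finset.mem_univ _) h

end Pool.Agent.K7.H84.AM
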