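import Pool.Agent.K7.H84.AM.Conseq

/-!
High dimensions.
-/

set_option autoImplicit false

open MeasureTheory Set Filter Topology Metric

namespace Pool.Agent.K7.H84.AM

open Pool.Agent.R117.RL (E sg om sg_pos pow_frac Kcl grad2 om_pos)

/-- quotients of factorials -/
theorem fact_ratio (l n : ℕ) : ((l + n).factorial : ℝ) / l.factorial ≤
    Real.exp (((l : ℝ) + n + 1) * Real.log ((l : ℝ) + n + 1) - ((l : ℝ) + 1) * Real.log ((l : ℝ) + 1) -
      n) := by
  induction n with
  | zero =>
    have h3 : (l.factorial : ℝ) ≠ 0 := by positivity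
    rw [show l + 0 = l from rfl, div_self h3]
    simp
  | succ n ih =>
    have e1 : ((l + (n + 1)).factorial : ℝ) / l.factorial =
        ((l : ℝ) + n + 1) * (((l + n).factorial : ℝ) / l.factorial) := by
      rw [show l + (n + 1) = (l + n) + 1 by ring, Nat.factorial_succ]
      push_cast
      ring
    rw [e1]
    set a : ℝ := (l : ℝ) + n + 1 with ha
    have ha0 : 0 < a := by positivity
    have h1 : 1 ≤ (a + 1) * Real.log ((a + 1) / a) := by
      have h2 := Real.one_sub_inv_le_log_of_pos (x := (a + 1) / a) (by positivity)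
      have h3 : 1 - ((a + 1) / a)⁻¹ = 1 / (a + 1) := by
        field_simp
        ring
      rw [h3, div_le_iff₀ (by positivity)] at h2
      linarith
    have e2 : Real.log ((a + 1) / a) = Real.log (a + 1) - Real.log a :=
      Real.log_div (by positivity) (by positivity)
    rw [e2] at h1
    have e3 : (l : ℝ) + ((n + 1 : ℕ) : ℝ) + 1 = a + 1 := by
      rw [ha]
      push_cast
      ring
    rw [e3]
    calc a * (((l + n).factorial : ℝ) / l.factorial)
        ≤ Real.exp (Real.log a) * Real.exp (a * Real.log a - ((l : ℝ) + 1) * Real.log ((l : ℝ) + 1) -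
          n) := by
          rw [Real.exp_log ha0]
          exact mul_le_mul_of_nonneg_left ih ha0.le
      _ ≤ _ := by
          rw [← Real.exp_add]
          apply Real.exp_le_exp.2
          push_cast
          linarith

/-- the exponent -/
noncomputable def gR (t : ℝ) : ℝ :=
  2 * ((1 + t) * Real.log (1 + t) - t * Real.log t - 1 - Real.log (t + 1 / 2))

theorem gR_mono {s t : ℝ} (hs : 0 ≤ s) (hst : s ≤ t) : gR s ≤ gR t := by
  have hc : ContinuousOn gR (Ici 0) := by
    unfold gR
    apply ContinuousOn.mul continuousOn_const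
    apply ContinuousOn.sub
    · apply ContinuousOn.sub _ continuousOn_const
      apply ContinuousOn.sub
      · exact (Real.continuous_mul_log.comp (continuous_const.add continuous_id)).continuousOn
      · exact Real.continuous_mul_log.continuousOn
    · apply ContinuousOn.log (by fun_prop)
      intro x hx
      have : (0 : ℝ) ≤ x := hx
      positivity
  have hd : ∀ x : ℝ, 0 < x → HasDerivAt gR
      (2 * ((1 * Real.log (1 + x) + (1 + x) * (1 / (1 + x))) - (1 * Real.log x + x * (1 / x)) -
        1 / (x + 1 / 2))) x := by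
    intro x hx
    have h1 : (1 + x) ≠ 0 := by positivity
    have h2 : (x + 1 / 2) ≠ 0 := by positivity
    have e1 : HasDerivAt (fun t : ℝ => 1 + t) 1 x := (hasDerivAt_id' x).const_add 1
    have e2 : HasDerivAt (fun t : ℝ => (1 + t) * Real.log (1 + t))
        (1 * Real.log (1 + x) + (1 + x) * (1 / (1 + x))) x := e1.mul (e1.log h1)
    have e3 : HasDerivAt (fun t : ℝ => t * Real.log t) (1 * Real.log x + x * (1 / x)) x :=
      (hasDerivAt_id' x).mul ((hasDerivAt_id' x).log hx.ne')
    have e4 : HasDerivAt (fun t : ℝ => Real.log (t + 1 / 2)) (1 / (x + 1 / 2)) x :=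
      ((hasDerivAt_id' x).add_const (1 / 2)).log h2
    exact (((e2.sub e3).sub_const 1).sub e4).const_mul 2
  have hm : MonotoneOn gR (Ici 0) := by
    apply monotoneOn_of_deriv_nonneg (convex_Ici 0) hc
    · intro x hx
      rw [interior_Ici] at hx
      exact (hd x hx).differentiableAt.differentiableWithinAt
    · intro x hx
      rw [interior_Ici] at hx
      have hx0 : (0 : ℝ) < x := hx
      rw [(hd x hx0).deriv]
      have h1 : (1 + x) * (1 / (1 + x)) = 1 := by field_simp
      have h2 : x * (1 / x) = 1 := by field_simp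
      rw [h1, h2]
      have h3 := Real.le_log_one_add_of_nonneg (x := 1 / x) (by positivity)
      have h4 : Real.log (1 + 1 / x) = Real.log (1 + x) - Real.log x := by
        rw [← Real.log_div (by positivity) (by positivity)]
        congr 1
        field_simp
        ring
      have h5 : 2 * (1 / x) / (1 / x + 2) = 1 / (x + 1 / 2) := by
        field_simp
        ring
      rw [h4, h5] at h3
      linarith
  exact hm hs (hs.trans hst) hst

theorem gR_neg {t : ℝ} (ht : 0 ≤ t) : gR t < 0 := by
  -- in terms of y = 1 / (2 t + 1)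
  have hF : ∀ y : ℝ, 0 < y → y ≤ 1 →
      (1 + y) * Real.log (1 + y) - (1 - y) * Real.log (1 - y) - 2 * y < 0 := by
    intro y hy hy1
    have hc : ContinuousOn (fun y : ℝ => (1 + y) * Real.log (1 + y) - (1 - y) * Real.log (1 - y) -
        2 * y) (Icc 0 1) := by
      apply ContinuousOn.sub _ (by fun_prop)
      apply ContinuousOn.sub
      · exact (Real.continuous_mul_log.comp (continuous_const.add continuous_id)).continuousOn
      · exact (Real.continuous_mul_log.comp (continuous_const.sub continuous_id)).continuousOn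
    have hd : ∀ x : ℝ, 0 < x → x < 1 → HasDerivAt (fun y : ℝ => (1 + y) * Real.log (1 + y) -
        (1 - y) * Real.log (1 - y) - 2 * y)
        ((1 * Real.log (1 + x) + (1 + x) * (1 / (1 + x))) -
          (-1 * Real.log (1 - x) + (1 - x) * (-1 / (1 - x))) - 2 * 1) x := by
      intro x hx hx1
      have h1 : (1 + x) ≠ 0 := by positivity
      have h2 : (1 - x) ≠ 0 := by linarith
      have e1 : HasDerivAt (fun t : ℝ => 1 + t) 1 x := (hasDerivAt_id' x).const_add 1
      have e2 : HasDerivAt (fun t : ℝ => 1 - t) (-1) x := (hasDerivAt_id' x).const_sub 1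
      exact ((e1.mul (e1.log h1)).sub (e2.mul (e2.log h2))).sub ((hasDerivAt_id' x).const_mul 2)
    have hm : StrictAntiOn (fun y : ℝ => (1 + y) * Real.log (1 + y) -
        (1 - y) * Real.log (1 - y) - 2 * y) (Icc 0 1) := by
      apply strictAntiOn_of_deriv_neg (convex_Icc 0 1) hc
      intro x hx
      rw [interior_Icc] at hx
      rw [(hd x hx.1 hx.2).deriv]
      have h1 : 0 < 1 + x := by linarith [hx.1]
      have h2 : 0 < 1 - x := by linarith [hx.2]
      have h3 : (1 + x) * (1 / (1 + x)) = 1 := by field_simp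
      have h4 : (1 - x) * (-1 / (1 - x)) = -1 := by field_simp
      rw [h3, h4]
      have h5 : Real.log (1 + x) + Real.log (1 - x) < 0 := by
        rw [← Real.log_mul h1.ne' h2.ne']
        apply Real.log_neg (by positivity)
        nlinarith [hx.1]
      linarith
    have h0 := hm (show (0 : ℝ) ∈ Icc 0 1 by simp) (show y ∈ Icc (0 : ℝ) 1 from ⟨hy.le, hy1⟩) hy
    simpa using h0
  have hy0 : 0 < 1 / (2 * t + 1) := by positivity
  have hy1 : 1 / (2 * t + 1) ≤ 1 := by
    rw [div_le_one (by positivity)]
    linarith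
  have h := hF _ hy0 hy1
  have e1 : 1 + 1 / (2 * t + 1) = (1 + t) / (t + 1 / 2) := by
    field_simp
    ring
  have e2 : 1 - 1 / (2 * t + 1) = t / (t + 1 / 2) := by
    field_simp
    ring
  have ht2 : 0 < t + 1 / 2 := by linarith
  rw [e1, e2, Real.log_div (by positivity) ht2.ne'] at h
  have h3 : t * Real.log (t / (t + 1 / 2)) = t * Real.log t - t * Real.log (t + 1 / 2) := by
    rcases ht.eq_or_lt with h0 | h0
    · rw [← h0]
      simp
    · rw [Real.log_div h0.ne' ht2.ne']
      ring
  have e3 : 1 / (2 * t + 1) = (1 / 2) / (t + 1 / 2) := by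
    field_simp
  rw [e3] at h
  have e4 : (1 + t) / (t + 1 / 2) * (Real.log (1 + t) - Real.log (t + 1 / 2)) -
      t / (t + 1 / 2) * Real.log (t / (t + 1 / 2)) - 2 * ((1 / 2) / (t + 1 / 2)) =
      ((1 + t) * (Real.log (1 + t) - Real.log (t + 1 / 2)) - t * Real.log (t / (t + 1 / 2)) - 1) /
        (t + 1 / 2) := by
    field_simp
  rw [e4, div_neg_iff] at h
  rcases h with h | h
  · exact absurd h.2 (by linarith)
  · have h5 := h.1
    rw [h3] at h5
    unfold gR
    nlinarith

/-- the size of `V`, sharp to exponential order -/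
theorem V_exp {n l : ℕ} (hn : 1 ≤ n) : V n l ^ 2 ≤
    Real.exp (((n : ℝ) + 3) * gR ((l : ℝ) / ((n : ℝ) + 3)) + 18 +
      6 * Real.log ((l : ℝ) + ((n : ℝ) + 3))) := by
  have hn' : (1 : ℝ) ≤ n := by exact_mod_cast hn
  have hx : (0 : ℝ) ≤ l := Nat.cast_nonneg l
  set x : ℝ := (l : ℝ) with hxd
  set d : ℝ := (n : ℝ) + 3 with hd
  have hd4 : 4 ≤ d := by linarith
  have hmu : mu (n + 2) l = x + (d - 2) / 2 := by
    unfold mu
    rw [hd]
    push_cast
    ring
  have hmu0 : 0 < mu (n + 2) l := by rw [hmu]; linarith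
  have hcc : cc (n + 2) l = (x + (d - 1) / 2) * (x + (d - 3) / 2) := by
    rw [cc_mu, hmu]
    ring
  have ha : 0 < x + (d - 3) / 2 := by linarith
  have ha1 : 0 < x + (d - 1) / 2 := by linarith
  have hc0 : 0 < cc (n + 2) l := by
    rw [hcc]
    positivity
  have hVs := V_sq hc0
  have hcp : 0 < cc (n + 2) l ^ (n + 1) := by positivity
  have h1 : V n l ^ 2 = Q n l ^ 2 / cc (n + 2) l ^ (n + 1) := by
    rw [eq_div_iff hcp.ne']
    exact hVs
  set F : ℝ := (x + n + 1) * Real.log (x + n + 1) - (x + 1) * Real.log (x + 1) - n with hF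
  have hQ : Q n l ≤ Real.exp (Real.log (mu (n + 2) l) + F) := by
    unfold Q
    rw [Real.exp_add, Real.exp_log hmu0]
    exact mul_le_mul_of_nonneg_left (fact_ratio l n) hmu0.le
  have hQ2 : Q n l ^ 2 ≤ Real.exp (2 * (Real.log (mu (n + 2) l) + F)) := by
    have h2 := pow_le_pow_left₀ (Q_nonneg n l) hQ 2
    rw [← Real.exp_nat_mul] at h2
    exact_mod_cast h2
  have hcl : cc (n + 2) l ^ (n + 1) = Real.exp (((n : ℝ) + 1) * Real.log (cc (n + 2) l)) := by
    rw [mul_comm, ← Real.rpow_def_of_pos hc0]
    have : ((n : ℝ) + 1) = ((n + 1 : ℕ) : ℝ) := by push_cast; ring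
    rw [this, Real.rpow_natCast]
  rw [h1, hcl, div_eq_mul_inv, ← Real.exp_neg]
  refine (mul_le_mul_of_nonneg_right hQ2 (Real.exp_pos _).le).trans ?_
  rw [← Real.exp_add]
  apply Real.exp_le_exp.2
  -- the comparison of the exponents
  have hxd0 : 0 < x + d := by linarith
  have hb0 : 0 < x + d / 2 := by linarith
  have g1 : d * gR (x / d) = 2 * ((x + d) * Real.log (x + d) - x * Real.log x - d) -
      2 * d * Real.log (x + d / 2) := by
    unfold gR
    have hdne : d ≠ 0 := by linarith
    have e1 : Real.log (1 + x / d) = Real.log (x + d) - Real.log d := by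
      rw [← Real.log_div hxd0.ne' hdne]
      congr 1
      field_simp
      ring
    have e2 : x / d * Real.log (x / d) = x / d * (Real.log x - Real.log d) := by
      rcases hx.eq_or_lt with h0 | h0
      · rw [← h0]
        simp
      · rw [Real.log_div h0.ne' hdne]
    have e3 : Real.log (x / d + 1 / 2) = Real.log (x + d / 2) - Real.log d := by
      rw [← Real.log_div hb0.ne' hdne]
      congr 1
      field_simp
    rw [e1, e2, e3]
    field_simp
    ring
  have g2 : Real.log (mu (n + 2) l) ≤ Real.log (x + d) := by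
    apply Real.log_le_log hmu0
    rw [hmu]
    linarith
  have g3 : (x + n + 1) * Real.log (x + n + 1) ≤ (x + d) * Real.log (x + d) := by
    apply mul_le_mul (by linarith) (Real.log_le_log (by linarith) (by linarith))
      (Real.log_nonneg (by linarith)) hxd0.le
  have g4 : x * Real.log x ≤ (x + 1) * Real.log (x + 1) := by
    rcases Nat.eq_zero_or_pos l with h0 | h0
    · rw [hxd, h0]
      simp
    · have hx1 : 1 ≤ x := by rw [hxd]; exact_mod_cast h0
      apply mul_le_mul (by linarith) (Real.log_le_log (by linarith) (by linarith))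
        (Real.log_nonneg hx1) (by linarith)
  have g5 : 2 * d * Real.log (x + d / 2) - 4 * Real.log (x + d) - 12 ≤
      ((n : ℝ) + 1) * Real.log (cc (n + 2) l) := by
    have k1 : Real.log (cc (n + 2) l) = Real.log (x + (d - 1) / 2) + Real.log (x + (d - 3) / 2) := by
      rw [hcc, Real.log_mul ha1.ne' ha.ne']
    have k2 : Real.log (x + (d - 3) / 2) ≤ Real.log (x + (d - 1) / 2) :=
      Real.log_le_log ha (by linarith)
    have k3 : Real.log (x + d / 2) - 3 / n ≤ Real.log (x + (d - 3) / 2) := by
      have k4 := Real.log_le_sub_one_of_pos (x := (x + d / 2) / (x + (d - 3) / 2)) (by positivity)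
      rw [Real.log_div hb0.ne' ha.ne'] at k4
      have k5 : (x + d / 2) / (x + (d - 3) / 2) - 1 ≤ 3 / n := by
        have k6 : (x + d / 2) / (x + (d - 3) / 2) - 1 = (3 / 2) / (x + (d - 3) / 2) := by
          rw [eq_div_iff ha.ne', sub_mul, div_mul_cancel₀ _ ha.ne']
          ring
        rw [k6, div_le_div_iff₀ ha (by linarith)]
        rw [hd]
        nlinarith
      linarith
    have k7 : ((n : ℝ) + 1) * (2 * (Real.log (x + d / 2) - 3 / n)) ≤
        ((n : ℝ) + 1) * Real.log (cc (n + 2) l) := by
      apply mul_le_mul_of_nonneg_left _ (by linarith)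
      linarith
    have k8 : ((n : ℝ) + 1) * (3 / n) ≤ 6 := by
      rw [mul_div_assoc', div_le_iff₀ (by linarith)]
      linarith
    have k9 : Real.log (x + d / 2) ≤ Real.log (x + d) := Real.log_le_log hb0 (by linarith)
    have k10 : (n : ℝ) + 1 = d - 2 := by rw [hd]; ring
    rw [k10] at k7 k8 ⊢
    nlinarith
  have g6 : (n : ℝ) = d - 3 := by rw [hd]; ring
  rw [g1, hF]
  rw [g6] at g5 g3 ⊢
  linarith

theorem log_small {δ C : ℝ} (hδ : 0 < δ) : ∀ᶠ d : ℕ in atTop, 10 * Real.log d + C ≤ δ * d := by
  have h1 : Tendsto (fun x : ℝ => Real.log x / x) atTop (𝓝 0) := by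
    have := Real.isLittleO_log_id_atTop.tendsto_div_nhds_zero
    simpa using this
  have h2 : Tendsto (fun d : ℕ => Real.log (d : ℝ) / d) atTop (𝓝 0) :=
    h1.comp tendsto_natCast_atTop_atTop
  have h3 : Tendsto (fun d : ℕ => 1 / (d : ℝ)) atTop (𝓝 0) := tendsto_one_div_atTop_nhds_zero_nat
  have h4 : Tendsto (fun d : ℕ => 10 * (Real.log (d : ℝ) / d) + C * (1 / (d : ℝ))) atTop
      (𝓝 (10 * 0 + C * 0)) := (h2.const_mul 10).add (h3.const_mul C)
  simp only [mul_zero, add_zero] at h4
  filter_upwards [h4.eventually (gt_mem_nhds hδ), eventually_ge_atTop 1] with d hd hd1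
  have hd0 : (0 : ℝ) < d := by exact_mod_cast hd1
  have e : 10 * Real.log d + C = (10 * (Real.log (d : ℝ) / d) + C * (1 / (d : ℝ))) * d := by
    field_simp
  rw [e]
  exact mul_le_mul_of_nonneg_right hd.le hd0.le

/-- **high dimension, angular momenta at most `κ d`** -/
theorem high {κ c : ℝ} (hκ : 0 ≤ κ) (hc : c < Real.exp (-gR κ)) :
    ∀ᶠ d : ℕ in atTop, ∀ L : ℕ, (L : ℝ) ≤ κ * d → AngularBound d {l | l ≤ L} (c * Kcl d) := by
  wlog hc0 : 0 < c generalizing c
  · have he := Real.exp_pos (-gR κ)
    have h1 := this (c := Real.exp (-gR κ) / 2) (by linarith) (by positivity)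
    filter_upwards [h1] with d hd L hL
    refine (hd L hL).mono ?_
    apply mul_le_mul_of_nonneg_right (by linarith)
    have := om_pos d
    unfold Kcl
    positivity
  set δ : ℝ := -gR κ - Real.log c with hδ
  have hδ0 : 0 < δ := by
    have h1 := Real.log_lt_log hc0 hc
    rw [Real.log_exp] at h1
    linarith
  have hl1 : 0 ≤ Real.log (1 + κ) := Real.log_nonneg (by linarith)
  filter_upwards [log_small (C := 18 + 8 * Real.log (1 + κ)) hδ0, eventually_ge_atTop 4] with d hd hd4
    L hL
  obtain ⟨n, rfl⟩ : ∃ n, d = n + 2 + 1 := ⟨d - 3, by omega⟩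
  have hn : 1 ≤ n := by omega
  have hn' : (1 : ℝ) ≤ n := by exact_mod_cast hn
  set D : ℝ := ((n + 2 + 1 : ℕ) : ℝ) with hD
  have hDn : D = (n : ℝ) + 3 := by rw [hD]; push_cast; ring
  have hD4 : 4 ≤ D := by linarith
  have hlD : 0 ≤ Real.log D := Real.log_nonneg (by linarith)
  have hcc : ∀ l : ℕ, 3 / 4 ≤ cc (n + 2) l := by
    intro l
    have hl : (0 : ℝ) ≤ l := Nat.cast_nonneg l
    rw [cc_mu]
    have h1 : 1 ≤ mu (n + 2) l := by
      unfold mu
      push_cast
      linarith
    nlinarith
  have hsg := sg_pos (Nat.succ_pos (n + 2))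
  rw [Nat.succ_eq_add_one] at hsg
  -- the bound of the summands
  set Vm : ℝ := Real.exp ((D * gR κ + 18 + 6 * Real.log ((1 + κ) * D)) / 2) with hVm
  have hV : ∀ l : ℕ, l ≤ L → V n l ≤ Vm := by
    intro l hl
    have hl' : (l : ℝ) ≤ κ * D := le_trans (by exact_mod_cast hl) hL
    have hl0 : (0 : ℝ) ≤ l := Nat.cast_nonneg l
    have h1 := V_exp (l := l) hn
    rw [← hDn] at h1
    have h2 : V n l ^ 2 ≤ Vm ^ 2 := by
      refine h1.trans ?_
      rw [hVm, ← Real.exp_nat_mul]
      apply Real.exp_le_exp.2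
      have h3 : gR ((l : ℝ) / D) ≤ gR κ := gR_mono (by positivity) (by
        rw [div_le_iff₀ (by linarith)]
        exact hl')
      have h4 : Real.log ((l : ℝ) + D) ≤ Real.log ((1 + κ) * D) :=
        Real.log_le_log (by linarith) (by linarith)
      have h5 : D * gR ((l : ℝ) / D) ≤ D * gR κ := mul_le_mul_of_nonneg_left h3 (by linarith)
      push_cast
      linarith
    exact le_of_sq_le_sq h2 (Real.exp_pos _).le
  have hVm0 : 0 < Vm := Real.exp_pos _
  refine bound_theta (by omega) _ (W := (κ * D + 1) * (2 * Vm)) (fun l _ => by linarith [hcc l])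
    (by positivity) (fun S hS => ?_) ?_
  · have h1 : ∀ l ∈ S, cc (n + 2) l ^ (-((n + 2 : ℕ) : ℝ) / 2) * (nh (n + 2) l / sg (n + 2 + 1)) ≤
        2 / ((n + 2 - 1).factorial * sg (n + 2 + 1)) * (2 * Vm) := by
      intro l hl
      have hlL : l ≤ L := hS hl
      have hc1 : 0 < cc (n + 2) l := by linarith [hcc l]
      rw [term_eq hc1, show n + 2 - 1 = n + 1 by omega]
      apply mul_le_mul_of_nonneg_left _ (by positivity)
      rw [div_le_iff₀ (Real.sqrt_pos.2 hc1)]
      have h2 : 1 / 2 ≤ √(cc (n + 2) l) := by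
        apply Real.le_sqrt_of_sq_le
        linarith [hcc l]
      have h3 := hV l hlL
      nlinarith
    have h2 : (S.card : ℝ) ≤ κ * D + 1 := by
      have h3 : S ⊆ Finset.range (L + 1) := fun l hl => Finset.mem_range.2 (Nat.lt_succ_of_le (hS hl))
      have h4 := Finset.card_le_card h3
      rw [Finset.card_range] at h4
      have h5 : (S.card : ℝ) ≤ L + 1 := by exact_mod_cast h4
      linarith
    refine (Finset.sum_le_card_nsmul S _ _ h1).trans ?_
    rw [nsmul_eq_mul]
    calc (S.card : ℝ) * (2 / ((n + 2 - 1).factorial * sg (n + 2 + 1)) * (2 * Vm))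
        ≤ (κ * D + 1) * (2 / ((n + 2 - 1).factorial * sg (n + 2 + 1)) * (2 * Vm)) :=
          mul_le_mul_of_nonneg_right h2 (by positivity)
      _ = _ := by ring
  · have hBB := BB_ge (n + 2) (by omega)
    have e1 : (((n + 2 : ℕ) : ℝ) + 1) = D := by rw [hDn]; push_cast; ring
    rw [e1] at hBB
    have hD2 : 0 < D ^ 2 := by positivity
    have h1 : c ^ (n + 2 + 1) = Real.exp (D * Real.log c) := by
      rw [mul_comm, ← Real.rpow_def_of_pos hc0, hD, Real.rpow_natCast]
    have h2 : ((κ * D + 1) * (2 * Vm)) ^ 2 ≤ 4 * Real.exp (D * gR κ + 18 + 8 * Real.log ((1 + κ) * D)) := by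
      have h3 : (κ * D + 1) ≤ Real.exp (Real.log ((1 + κ) * D)) := by
        rw [Real.exp_log (by positivity)]
        linarith
      have h4 : (κ * D + 1) ^ 2 ≤ Real.exp (2 * Real.log ((1 + κ) * D)) := by
        have h5 := pow_le_pow_left₀ (by positivity) h3 2
        rw [← Real.exp_nat_mul] at h5
        exact_mod_cast h5
      have h6 : Vm ^ 2 = Real.exp (D * gR κ + 18 + 6 * Real.log ((1 + κ) * D)) := by
        rw [hVm, ← Real.exp_nat_mul]
        congr 1
        push_cast
        ring
      calc ((κ * D + 1) * (2 * Vm)) ^ 2 = 4 * ((κ * D + 1) ^ 2 * Vm ^ 2) := by ring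
        _ ≤ 4 * (Real.exp (2 * Real.log ((1 + κ) * D)) *
            Real.exp (D * gR κ + 18 + 6 * Real.log ((1 + κ) * D))) := by
            rw [h6]
            apply mul_le_mul_of_nonneg_left _ (by norm_num)
            exact mul_le_mul_of_nonneg_right h4 (Real.exp_pos _).le
        _ = _ := by
            rw [← Real.exp_add]
            congr 2
            ring
    have h7 : c ^ (n + 2 + 1) * ((κ * D + 1) * (2 * Vm)) ^ 2 * D ^ 2 ≤ 7 := by
      have h8 : D ^ 2 = Real.exp (2 * Real.log D) := by
        rw [mul_comm, ← Real.rpow_def_of_pos (by linarith)]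
        norm_num
      have h9 : Real.log ((1 + κ) * D) = Real.log (1 + κ) + Real.log D :=
        Real.log_mul (by positivity) (by positivity)
      calc c ^ (n + 2 + 1) * ((κ * D + 1) * (2 * Vm)) ^ 2 * D ^ 2
          ≤ c ^ (n + 2 + 1) * (4 * Real.exp (D * gR κ + 18 + 8 * Real.log ((1 + κ) * D))) * D ^ 2 := by
            apply mul_le_mul_of_nonneg_right _ hD2.le
            exact mul_le_mul_of_nonneg_left h2 (by positivity)
        _ = 4 * Real.exp (D * Real.log c + (D * gR κ + 18 + 8 * Real.log ((1 + κ) * D)) +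
            2 * Real.log D) := by
            rw [h1, h8, Real.exp_add (D * Real.log c + _), Real.exp_add (D * Real.log c)]
            ring
        _ ≤ 4 * 1 := by
            apply mul_le_mul_of_nonneg_left _ (by norm_num)
            rw [Real.exp_le_one_iff, h9]
            rw [hδ] at hd
            linarith
        _ ≤ 7 := by norm_num
    by_contra hcon
    rw [not_le] at hcon
    have := mul_lt_mul_of_pos_right hcon hD2
    linarith

end Pool.Agent.K7.H84.AM
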