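import Pool.Agent.K7.H84.AM.Polar

/-!
Homogeneous polynomials as functions.
-/

set_option autoImplicit false

open MeasureTheory Set Filter Topology Metric

namespace Pool.Agent.K7.H84.AM

open Pool.Agent.R117.RL (E sg om)

/-- real polynomials in `d` variables -/
abbrev MP (d : ℕ) := MvPolynomial (Fin d) ℝ

/-- the polynomial function -/
noncomputable def ev {d : ℕ} (p : MP d) (x : E d) : ℝ := MvPolynomial.eval (fun i => x i) p

section
variable {d : ℕ}

theorem ev_add (p q : MP d) (x : E d) : ev (p + q) x = ev p x + ev q x := by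
  simp [ev]

theorem ev_smul (a : ℝ) (p : MP d) (x : E d) : ev (a • p) x = a * ev p x := by
  simp [ev, MvPolynomial.smul_eval]

theorem ev_mul (p q : MP d) (x : E d) : ev (p * q) x = ev p x * ev q x := by
  simp [ev]

theorem ev_zero (x : E d) : ev (0 : MP d) x = 0 := by
  simp [ev]

theorem ev_sum {ι : Type} (s : Finset ι) (f : ι → MP d) (x : E d) :
    ev (∑ i ∈ s, f i) x = ∑ i ∈ s, ev (f i) x := by
  simp [ev]

theorem coord_contDiff (n : WithTop ℕ∞) (i : Fin d) : ContDiff ℝ n (fun x : E d => x i) :=
  (EuclideanSpace.proj (𝕜 := ℝ) i).contDiff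

theorem ev_contDiff (n : WithTop ℕ∞) (p : MP d) : ContDiff ℝ n (ev p) := by
  induction p using MvPolynomial.induction_on with
  | C a =>
    have : ev (MvPolynomial.C a : MP d) = fun _ => a := by
      funext x
      simp [ev]
    rw [this]
    exact contDiff_const
  | add p q hp hq =>
    have : ev (p + q) = fun x => ev p x + ev q x := funext fun x => ev_add p q x
    rw [this]
    exact hp.add hq
  | mul_X p i hp =>
    have : ev (p * MvPolynomial.X i) = fun x => ev p x * x i := by
      funext x
      simp [ev]
    rw [this]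
    exact hp.mul (coord_contDiff n i)

theorem ev_continuous (p : MP d) : Continuous (ev p) := (ev_contDiff 0 p).continuous

theorem ev_differentiable (p : MP d) : Differentiable ℝ (ev p) :=
  (ev_contDiff 1 p).differentiable one_ne_zero

theorem coord_fderiv (i : Fin d) (x v : E d) : fderiv ℝ (fun x : E d => x i) x v = v i := by
  have : (fun x : E d => x i) = (EuclideanSpace.proj (𝕜 := ℝ) i : E d → ℝ) := rfl
  rw [this, ContinuousLinearMap.fderiv]
  rfl

theorem ev_fderiv (p : MP d) (x v : E d) :
    fderiv ℝ (ev p) x v = ∑ i, v i * ev (MvPolynomial.pderiv i p) x := by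
  induction p using MvPolynomial.induction_on with
  | C a =>
    have : ev (MvPolynomial.C a : MP d) = fun _ => a := by
      funext x
      simp [ev]
    rw [this]
    simp [ev]
  | add p q hp hq =>
    have : ev (p + q) = fun x => ev p x + ev q x := funext fun x => ev_add p q x
    rw [this, fderiv_fun_add (ev_differentiable p x) (ev_differentiable q x)]
    rw [add_apply, hp, hq, ← Finset.sum_add_distrib]
    refine Finset.sum_congr rfl fun i _ => ?_
    rw [map_add, ev_add]
    ring
  | mul_X p i hp =>
    have : ev (p * MvPolynomial.X i) = fun x => ev p x * x i := by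
      funext x
      simp [ev]
    rw [this, fderiv_fun_mul (ev_differentiable p x)
      ((coord_contDiff 1 i).differentiable one_ne_zero x)]
    rw [add_apply, smul_apply, smul_apply, hp, coord_fderiv]
    have h1 : ∀ j, v j * ev (MvPolynomial.pderiv j (p * MvPolynomial.X i)) x =
        x i * (v j * ev (MvPolynomial.pderiv j p) x) + (if j = i then v j * ev p x else 0) := by
      intro j
      rw [Derivation.leibniz, smul_eq_mul, smul_eq_mul, ev_add, ev_mul, ev_mul]
      have h2 : ev (MvPolynomial.X i : MP d) x = x i := by simp [ev]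
      rw [h2, MvPolynomial.pderiv_X]
      by_cases hij : j = i
      · subst hij
        rw [Pi.single_eq_same, if_pos rfl]
        have h3 : ev (1 : MP d) x = 1 := by simp [ev]
        rw [h3]
        ring
      · rw [if_neg hij]
        have h3 : (Pi.single j (1 : MP d) : Fin d → MP d) i = 0 :=
          Pi.single_eq_of_ne (fun h => hij h.symm) _
        rw [h3, ev_zero]
        ring
    rw [Finset.sum_congr rfl fun j _ => h1 j, Finset.sum_add_distrib, ← Finset.mul_sum]
    simp only [Finset.sum_ite_eq', Finset.mem_univ, if_true, smul_eq_mul]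
    ring

/-- the `i`-th unit vector -/
noncomputable def ee (i : Fin d) : E d := EuclideanSpace.single i 1

theorem ev_pder (p : MP d) (x : E d) (i : Fin d) :
    fderiv ℝ (ev p) x (ee i) = ev (MvPolynomial.pderiv i p) x := by
  rw [ev_fderiv]
  have h1 : ∀ j, (ee i : E d) j = if j = i then 1 else 0 := by
    intro j
    unfold ee
    rw [PiLp.single_apply]
  simp only [h1, ite_mul, one_mul, zero_mul, Finset.sum_ite_eq', Finset.mem_univ, if_true]

theorem ev_hom {p : MP d} {l : ℕ} (hp : p.IsHomogeneous l) (t : ℝ) (x : E d) :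
    ev p (t • x) = t ^ l * ev p x := by
  unfold ev
  rw [MvPolynomial.eval_eq', MvPolynomial.eval_eq', Finset.mul_sum]
  refine Finset.sum_congr rfl fun s hs => ?_
  have h1 : ∑ i, s i = l := by
    have := hp (MvPolynomial.mem_support_iff.1 hs)
    rw [Finsupp.weight_apply] at this
    rw [← this, Finsupp.sum_fintype _ _ (by simp)]
    simp
  have h2 : ∏ i, ((t • x) i) ^ (s i) = t ^ l * ∏ i, (x i) ^ (s i) := by
    have h3 : ∀ i, ((t • x) i) ^ (s i) = t ^ (s i) * (x i) ^ (s i) := by
      intro i
      rw [PiLp.smul_apply, smul_eq_mul, mul_pow]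
    rw [Finset.prod_congr rfl fun i _ => h3 i, Finset.prod_mul_distrib, Finset.prod_pow_eq_pow_sum,
      h1]
  rw [h2]
  ring

/-- Euler's relation -/
theorem ev_euler {p : MP d} {l : ℕ} (hp : p.IsHomogeneous l) (x : E d) :
    ∑ i, x i * ev (MvPolynomial.pderiv i p) x = l * ev p x := by
  have h := hp.sum_X_mul_pderiv
  have h2 := congrArg (fun q => ev q x) h
  simp only [ev_sum, ev_mul] at h2
  have h3 : ∀ i, ev (MvPolynomial.X i : MP d) x = x i := fun i => by simp [ev]
  simp only [h3] at h2
  rw [h2]
  simp [ev]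

theorem ev_ext {p q : MP d} (h : ∀ x, ev p x = ev q x) : p = q := by
  apply MvPolynomial.funext
  intro x
  exact h (WithLp.toLp 2 x)

/-- the Laplacian of a polynomial -/
noncomputable def lap : MP d →ₗ[ℝ] MP d :=
  ∑ i, (MvPolynomial.pderiv i).toLinearMap ∘ₗ (MvPolynomial.pderiv i).toLinearMap

theorem lap_apply (p : MP d) : lap p = ∑ i, MvPolynomial.pderiv i (MvPolynomial.pderiv i p) := by
  unfold lap
  simp [LinearMap.sum_apply]

theorem lap_hom {p : MP d} {l : ℕ} (hp : p.IsHomogeneous l) : (lap p).IsHomogeneous (l - 2) := by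
  rw [lap_apply]
  apply MvPolynomial.IsHomogeneous.sum
  intro i _
  have := (hp.pderiv (i := i)).pderiv (i := i)
  have e : l - 1 - 1 = l - 2 := by omega
  rwa [e] at this

theorem lap_low {p : MP d} {l : ℕ} (hp : p.IsHomogeneous l) (hl : l ≤ 1) : lap p = 0 := by
  rw [lap_apply]
  apply Finset.sum_eq_zero
  intro i _
  have h1 : (MvPolynomial.pderiv i p).IsHomogeneous 0 := by
    have := hp.pderiv (i := i)
    have e : l - 1 = 0 := by omega
    rwa [e] at this
  rw [← MvPolynomial.totalDegree_zero_iff_isHomogeneous,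
    MvPolynomial.totalDegree_eq_zero_iff_eq_C] at h1
  rw [h1]
  simp

/-- the polynomial `|x|²` -/
noncomputable def nsq : MP d := ∑ i, MvPolynomial.X i ^ 2

theorem ev_nsq (x : E d) : ev nsq x = ‖x‖ ^ 2 := by
  unfold nsq
  rw [ev_sum, EuclideanSpace.real_norm_sq_eq]
  refine Finset.sum_congr rfl fun i _ => ?_
  simp [ev]

theorem nsq_hom : (nsq : MP d).IsHomogeneous 2 := by
  unfold nsq
  apply MvPolynomial.IsHomogeneous.sum
  intro i _
  exact MvPolynomial.isHomogeneous_X_pow i 2

/-- linear change of variables -/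
theorem exists_comp {p : MP d} {l : ℕ} (hp : p.IsHomogeneous l) (O : E d →ₗ[ℝ] E d) :
    ∃ q : MP d, q.IsHomogeneous l ∧ ∀ x, ev q x = ev p (O x) := by
  refine ⟨MvPolynomial.aeval (fun i => ∑ j, MvPolynomial.C ((O (ee j)) i) * MvPolynomial.X j) p,
    ?_, fun x => ?_⟩
  · have h := hp.aeval (fun i => ∑ j, MvPolynomial.C ((O (ee j)) i) * MvPolynomial.X j : _ → MP d)
      (n := 1) (fun i => by
        apply MvPolynomial.IsHomogeneous.sum
        intro j _
        exact MvPolynomial.isHomogeneous_C_mul_X _ _)
    rwa [one_mul] at h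
  · unfold ev
    have h1 : ∀ y : Fin d → MP d, MvPolynomial.eval (fun i => x i) (MvPolynomial.aeval y p) =
        MvPolynomial.eval (fun i => MvPolynomial.eval (fun i => x i) (y i)) p := by
      intro y
      clear hp
      induction p using MvPolynomial.induction_on with
      | C a => simp
      | add p q hp hq => rw [map_add, map_add, map_add, hp, hq]
      | mul_X p i hp =>
        rw [map_mul, map_mul, map_mul, hp, MvPolynomial.aeval_X, MvPolynomial.eval_X]
    rw [h1]
    congr 1
    congr 1
    funext i
    simp only [map_sum, map_mul, MvPolynomial.eval_C, MvPolynomial.eval_X]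
    have h2 : x = ∑ j, x j • (ee j : E d) := by
      have := (EuclideanSpace.basisFun (Fin d) ℝ).sum_repr x
      simp only [EuclideanSpace.basisFun_apply, EuclideanSpace.basisFun_repr] at this
      exact this.symm
    conv_rhs => rw [h2, map_sum]
    simp only [map_smul]
    rw [WithLp.ofLp_sum, Finset.sum_apply]
    refine Finset.sum_congr rfl fun j _ => ?_
    simp [mul_comm]

end

/-- the number of monomials -/
theorem finrank_hom (k l : ℕ) :
    Module.finrank ℝ (MvPolynomial.homogeneousSubmodule (Fin (k + 1)) ℝ l) = (l + k).choose l := by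
  rw [MvPolynomial.homogeneousSubmodule_eq_finsupp_supported]
  have h1 := Module.finrank_eq_nat_card_basis (MvPolynomial.basisRestrictSupport (R := ℝ)
    {s : Fin (k + 1) →₀ ℕ | s.degree = l})
  have hset : {s : Fin (k + 1) →₀ ℕ | s.degree = l} =
      ((Finset.finsuppAntidiag (Finset.univ : Finset (Fin (k + 1))) l :
        Finset (Fin (k + 1) →₀ ℕ)) : Set (Fin (k + 1) →₀ ℕ)) := by
    ext s
    simp only [mem_ofPred_eq, Finset.mem_coe, Finset.mem_finsuppAntidiag]
    rw [Finsupp.degree_eq_sum]
    simp
  refine h1.trans ?_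
  rw [hset]
  have h2 := Finset.card_finsuppAntidiag_nat_eq_choose (s := (Finset.univ : Finset (Fin (k + 1)))) l
  rw [Nat.card_coe_set_eq, Set.ncard_coe_finset, h2, Finset.card_univ, Fintype.card_fin]
  congr 1
  omega

end Pool.Agent.K7.H84.AM
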