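import Pool.Agent.R117.RL.Rad

/-!
Polar coordinates.
-/

set_option autoImplicit false

open MeasureTheory Set Filter Topology Metric

namespace Pool.Agent.K7.H84.AM

open Pool.Agent.R117.RL (E sg om)

/-- the unit sphere -/
abbrev Sph (d : ℕ) := sphere (0 : E d) 1

/-- the surface measure of the unit sphere -/
noncomputable abbrev sig (d : ℕ) : Measure (Sph d) := (volume : Measure (E d)).toSphere

theorem sig_univ {k : ℕ} : (sig (k + 1)).real univ = sg (k + 1) := by
  rw [Measure.toSphere_real_apply_univ, finrank_euclideanSpace_fin]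
  rfl

theorem fin_E (k : ℕ) : Module.finrank ℝ (E (k + 1)) - 1 = k := by
  rw [finrank_euclideanSpace_fin, Nat.add_sub_cancel]

section
variable {k : ℕ} {F : Type} [NormedAddCommGroup F] [NormedSpace ℝ F]

theorem polar_prod_integral (f : E (k + 1) → F) :
    ∫ x, f x = ∫ p : Sph (k + 1) × Ioi (0 : ℝ), f ((p.2 : ℝ) • (p.1 : E (k + 1)))
      ∂((sig (k + 1)).prod (.volumeIoiPow k)) := by
  calc ∫ x : E (k + 1), f x
      = ∫ x : ({(0 : E (k + 1))}ᶜ : Set (E (k + 1))), f x.1
          ∂((volume : Measure (E (k + 1))).comap (↑)) := by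
        rw [integral_subtype_comap (measurableSet_singleton _).compl f, restrict_compl_singleton]
    _ = _ := by
        have h := (volume : Measure (E (k + 1))).measurePreserving_homeomorphUnitSphereProd.integral_comp
          (Homeomorph.measurableEmbedding _)
          (fun p : (sphere (0 : E (k + 1)) 1) × (Ioi (0 : ℝ)) =>
            f ((p.2 : ℝ) • (p.1 : E (k + 1))))
        rw [fin_E] at h
        rw [← h]
        apply integral_congr_ae
        filter_upwards with x
        simp only [homeomorphUnitSphereProd_apply_snd_coe, homeomorphUnitSphereProd_apply_fst_coe]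
        congr 1
        have hx : ‖(x : E (k + 1))‖ ≠ 0 := norm_ne_zero_iff.2 x.2
        rw [smul_smul, mul_inv_cancel₀ hx, one_smul]

theorem polar_prod_integrable (f : E (k + 1) → F) :
    Integrable f ↔ Integrable (fun p : Sph (k + 1) × Ioi (0 : ℝ) =>
      f ((p.2 : ℝ) • (p.1 : E (k + 1)))) ((sig (k + 1)).prod (.volumeIoiPow k)) := by
  have h := (volume : Measure (E (k + 1))).measurePreserving_homeomorphUnitSphereProd.integrable_comp_emb
    (Homeomorph.measurableEmbedding _)
    (g := (fun p : (sphere (0 : E (k + 1)) 1) × (Ioi (0 : ℝ)) =>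
      f ((p.2 : ℝ) • (p.1 : E (k + 1)))))
  rw [fin_E] at h
  rw [← h]
  have e1 : ((fun p : (sphere (0 : E (k + 1)) 1) × (Ioi (0 : ℝ)) =>
      f ((p.2 : ℝ) • (p.1 : E (k + 1)))) ∘ (homeomorphUnitSphereProd (E (k + 1)))) =
      f ∘ (Subtype.val : ({(0 : E (k + 1))}ᶜ : Set (E (k + 1))) → E (k + 1)) := by
    funext x
    simp only [Function.comp, homeomorphUnitSphereProd_apply_snd_coe,
      homeomorphUnitSphereProd_apply_fst_coe]
    congr 1
    have hx : ‖(x : E (k + 1))‖ ≠ 0 := norm_ne_zero_iff.2 x.2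
    rw [smul_smul, mul_inv_cancel₀ hx, one_smul]
  rw [e1]
  have h2 := (MeasurableEmbedding.subtype_coe
    (measurableSet_singleton (0 : E (k + 1))).compl).integrable_map_iff
    (μ := (volume : Measure (E (k + 1))).comap
      (Subtype.val : ({(0 : E (k + 1))}ᶜ : Set (E (k + 1))) → E (k + 1))) (g := f)
  rw [← h2]
  have h3 : Measure.map (Subtype.val : ({(0 : E (k + 1))}ᶜ : Set (E (k + 1))) → E (k + 1))
      ((volume : Measure (E (k + 1))).comap Subtype.val) = volume := by
    rw [map_comap_subtype_coe (measurableSet_singleton (0 : E (k + 1))).compl,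
      restrict_compl_singleton]
  rw [h3]

theorem radial_measure (h : ℝ → F) :
    ∫ y : Ioi (0 : ℝ), h y ∂(Measure.volumeIoiPow k) = ∫ r in Ioi (0 : ℝ), r ^ k • h r := by
  simp only [Measure.volumeIoiPow, ENNReal.ofReal]
  rw [integral_withDensity_eq_integral_smul,
    integral_subtype_comap measurableSet_Ioi fun a ↦ Real.toNNReal (a ^ k) • h a,
    setIntegral_congr_fun measurableSet_Ioi fun x hx ↦ ?_]
  · rw [NNReal.smul_def, Real.coe_toNNReal _ (pow_nonneg hx.out.le _)]
  · exact (measurable_subtype_coe.pow_const _).real_toNNReal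

theorem radial_measure_int {h : ℝ → F} :
    Integrable (fun y : Ioi (0 : ℝ) => h y) (Measure.volumeIoiPow k) ↔
      IntegrableOn (fun r => r ^ k • h r) (Ioi (0 : ℝ)) := by
  simp only [Measure.volumeIoiPow, ENNReal.ofReal]
  rw [integrable_withDensity_iff_integrable_smul
    (measurable_subtype_coe.pow_const _).real_toNNReal]
  have h1 := integrableOn_iff_comap_subtypeVal (μ := (volume : Measure ℝ)) (s := Ioi (0 : ℝ))
    measurableSet_Ioi (f := fun a : ℝ => Real.toNNReal (a ^ k) • h a)
  have h2 : IntegrableOn (fun r => r ^ k • h r) (Ioi (0 : ℝ)) ↔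
      IntegrableOn (fun a : ℝ => Real.toNNReal (a ^ k) • h a) (Ioi (0 : ℝ)) := by
    apply integrableOn_congr_fun _ measurableSet_Ioi
    intro x hx
    simp only
    rw [NNReal.smul_def, Real.coe_toNNReal _ (pow_nonneg (le_of_lt hx) _)]
  rw [h2, h1]
  rfl

/-- polar coordinates, integrable functions -/
theorem polar_integral [CompleteSpace F] {f : E (k + 1) → F} (hf : Integrable f) :
    ∫ x, f x = ∫ r in Ioi (0 : ℝ), r ^ k • ∫ ω : Sph (k + 1), f (r • (ω : E (k + 1))) ∂(sig (k + 1)) := by
  rw [polar_prod_integral, integral_prod_symm _ ((polar_prod_integrable f).1 hf)]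
  exact radial_measure (fun r => ∫ ω : Sph (k + 1), f (r • (ω : E (k + 1))) ∂(sig (k + 1)))

/-- polar coordinates, nonnegative continuous functions -/
theorem polar_nonneg {f : E (k + 1) → ℝ} (hf : ContinuousOn f {0}ᶜ) (h0 : ∀ x, 0 ≤ f x) :
    Integrable f ↔ IntegrableOn
      (fun r : ℝ => r ^ k * ∫ ω : Sph (k + 1), f (r • (ω : E (k + 1))) ∂(sig (k + 1))) (Ioi 0) := by
  rw [polar_prod_integrable]
  have hc : Continuous (fun p : Sph (k + 1) × Ioi (0 : ℝ) => f ((p.2 : ℝ) • (p.1 : E (k + 1)))) := by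
    have h1 : Continuous (fun p : Sph (k + 1) × Ioi (0 : ℝ) => ((p.2 : ℝ) • (p.1 : E (k + 1)))) := by
      fun_prop
    apply hf.comp_continuous h1
    intro p
    rw [mem_compl_iff, mem_singleton_iff, smul_eq_zero, not_or]
    exact ⟨ne_of_gt p.2.2, ne_zero_of_mem_unit_sphere p.1⟩
  have h1 := integrable_prod_iff' (μ := sig (k + 1)) (ν := Measure.volumeIoiPow k)
    hc.aestronglyMeasurable
  rw [h1]
  have h2 : ∀ y : Ioi (0 : ℝ), Integrable (fun ω : Sph (k + 1) => f ((y : ℝ) • (ω : E (k + 1))))
      (sig (k + 1)) := by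
    intro y
    have hcy : Continuous (fun ω : Sph (k + 1) => f ((y : ℝ) • (ω : E (k + 1)))) :=
      hc.comp (by fun_prop : Continuous fun ω : Sph (k + 1) => (ω, y))
    obtain ⟨C, hC⟩ := (isCompact_range hcy).isBounded.exists_norm_le
    refine Integrable.mono' (integrable_const C) hcy.aestronglyMeasurable ?_
    exact Eventually.of_forall fun x => hC _ (mem_range_self x)
  constructor
  · intro h
    have h3 := h.2
    have h4 : (fun y : Ioi (0 : ℝ) => ∫ ω : Sph (k + 1), ‖f ((y : ℝ) • (ω : E (k + 1)))‖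
        ∂(sig (k + 1))) = fun y : Ioi (0 : ℝ) => (fun r : ℝ => ∫ ω : Sph (k + 1),
          f (r • (ω : E (k + 1))) ∂(sig (k + 1))) y := by
      funext y
      simp only
      refine integral_congr_ae (Eventually.of_forall fun ω => ?_)
      simp only
      rw [Real.norm_eq_abs, abs_of_nonneg (h0 _)]
    rw [h4] at h3
    exact (radial_measure_int (h := fun r : ℝ => ∫ ω : Sph (k + 1),
          f (r • (ω : E (k + 1))) ∂(sig (k + 1)))).1 h3
  · intro h
    refine ⟨Eventually.of_forall h2, ?_⟩
    have h4 : (fun y : Ioi (0 : ℝ) => ∫ ω : Sph (k + 1), ‖f ((y : ℝ) • (ω : E (k + 1)))‖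
        ∂(sig (k + 1))) = fun y : Ioi (0 : ℝ) => (fun r : ℝ => ∫ ω : Sph (k + 1),
          f (r • (ω : E (k + 1))) ∂(sig (k + 1))) y := by
      funext y
      simp only
      refine integral_congr_ae (Eventually.of_forall fun ω => ?_)
      simp only
      rw [Real.norm_eq_abs, abs_of_nonneg (h0 _)]
    rw [h4]
    exact (radial_measure_int (h := fun r : ℝ => ∫ ω : Sph (k + 1),
          f (r • (ω : E (k + 1))) ∂(sig (k + 1)))).2 h

end

end Pool.Agent.K7.H84.AM
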