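import Pool.Agent.K7.H84.AM.Complex
import Pool.Agent.R117.RL.ShellCst

/-!
The dimensions of the spaces of spherical harmonics, relative to powers of the centrifugal
coefficients.
-/

set_option autoImplicit false

open MeasureTheory Set Filter Topology Metric

namespace Pool.Agent.K7.H84.AM

open Pool.Agent.R117.RL (E sg om sg_pos pow_frac)

/-- `l + (k - 1) / 2` -/
noncomputable def mu (k l : ℕ) : ℝ := l + ((k : ℝ) - 1) / 2

theorem cc_mu (k l : ℕ) : cc k l = mu k l ^ 2 - 1 / 4 := by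
  unfold cc mu
  ring

/-- `μ (l + n)! / l!` -/
noncomputable def Q (n l : ℕ) : ℝ := mu (n + 2) l * ((l + n).factorial / l.factorial)

theorem Q_step (n l : ℕ) :
    Q (n + 2) l = Q n (l + 1) * (mu (n + 2) (l + 1) ^ 2 - (((n : ℝ) + 1) / 2) ^ 2) := by
  unfold Q mu
  have h1 : ((l + (n + 2)).factorial : ℝ) = (l + n + 2) * (l + 1 + n).factorial := by
    rw [show l + (n + 2) = (l + 1 + n) + 1 by ring, Nat.factorial_succ]
    push_cast
    ring
  have h2 : ((l + 1).factorial : ℝ) = (l + 1) * l.factorial := by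
    rw [Nat.factorial_succ]
    push_cast
    ring
  have h3 : (l.factorial : ℝ) ≠ 0 := by positivity
  have h4 : (l : ℝ) + 1 ≠ 0 := by positivity
  rw [h1, h2]
  push_cast
  field_simp
  ring

theorem nh_Q (n l : ℕ) : nh (n + 2) l = 2 * Q n l / (n + 1).factorial := by
  have hn : ((n + 1).factorial : ℝ) ≠ 0 := by positivity
  have hn' : (n.factorial : ℝ) ≠ 0 := by positivity
  rcases l with _ | _ | m
  · unfold nh Q mu
    simp only [Nat.factorial_succ, zero_add, Nat.choose_zero_right, Nat.cast_one, Nat.factorial_zero,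
      if_neg (show ¬ (2 ≤ 0) by norm_num)]
    push_cast
    field_simp
    ring
  · unfold nh Q mu
    simp only [if_neg (show ¬ (2 ≤ 0 + 1) by norm_num), zero_add, Nat.factorial_one,
      Nat.choose_one_right]
    rw [show 1 + n = n + 1 by ring]
    push_cast
    field_simp
    ring
  · unfold nh Q mu
    have h1 : 2 ≤ m + 1 + 1 := by omega
    rw [if_pos h1, show m + 1 + 1 + (n + 2) = m + n + 4 by ring,
      show m + 1 + 1 - 2 + (n + 2) = m + n + 2 by omega, show m + 1 + 1 - 2 = m by omega,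
      show m + 1 + 1 = m + 2 by ring, Nat.cast_choose ℝ (show m + 2 ≤ m + n + 4 by omega),
      Nat.cast_choose ℝ (show m ≤ m + n + 2 by omega), show m + n + 4 - (m + 2) = n + 2 by omega,
      show m + n + 2 - m = n + 2 by omega, show m + 2 + n = m + n + 2 by ring]
    have e1 : ((m + n + 4).factorial : ℝ) = (m + n + 4) * ((m + n + 3) * (m + n + 2).factorial) := by
      rw [show m + n + 4 = (m + n + 2) + 1 + 1 by ring, Nat.factorial_succ, Nat.factorial_succ]
      push_cast
      ring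
    have e2 : ((m + 2).factorial : ℝ) = (m + 2) * ((m + 1) * m.factorial) := by
      rw [show m + 2 = m + 1 + 1 by ring, Nat.factorial_succ, Nat.factorial_succ]
      push_cast
      ring
    have e3 : ((n + 2).factorial : ℝ) = (n + 2) * (n + 1).factorial := by
      rw [show n + 2 = (n + 1) + 1 by ring, Nat.factorial_succ]
      push_cast
      ring
    rw [e1, e2, e3]
    have h3 : (m.factorial : ℝ) ≠ 0 := by positivity
    have h4 : (m : ℝ) + 1 ≠ 0 := by positivity
    have h5 : (m : ℝ) + 2 ≠ 0 := by positivity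
    have h6 : (n : ℝ) + 2 ≠ 0 := by positivity
    push_cast
    field_simp
    ring

theorem Q_pos {n l : ℕ} (h : 0 < mu (n + 2) l) : 0 < Q n l := by
  unfold Q
  positivity

theorem Q_nonneg (n l : ℕ) : 0 ≤ Q n l := by
  unfold Q mu
  push_cast
  have : (0 : ℝ) ≤ l + ((n : ℝ) + 2 - 1) / 2 := by
    have h1 : (0 : ℝ) ≤ l := Nat.cast_nonneg l
    have h2 : (0 : ℝ) ≤ n := Nat.cast_nonneg n
    linarith
  positivity

theorem T_bound (n : ℕ) : ∀ l : ℕ, 1 / 2 < mu (n + 2) l →
    Q n l ^ 2 * (1 - 1 / (4 * mu (n + 2) l ^ 2)) ^ 2 *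
      Real.exp (((n : ℝ) + 2) * n * (n - 2) / (12 * mu (n + 2) l ^ 2)) ≤ cc (n + 2) l ^ (n + 1) := by
  induction n using Nat.strong_induction_on with
  | _ n ih =>
    intro l hl
    rcases n with _ | _ | n
    · have h0 : Q 0 l = mu (0 + 2) l := by
        unfold Q
        have h3 : (l.factorial : ℝ) ≠ 0 := by positivity
        rw [show l + 0 = l from rfl, div_self h3, mul_one]
      rw [h0]
      set m := mu (0 + 2) l with hm
      have hm2 : 1 / 4 < m ^ 2 := by nlinarith
      have hm0 : 0 < m ^ 2 := by linarith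
      have hc : cc (0 + 2) l = m ^ 2 - 1 / 4 := cc_mu _ _
      rw [hc]
      have e1 : m ^ 2 * (1 - 1 / (4 * m ^ 2)) ^ 2 = (m ^ 2 - 1 / 4) * (1 - 1 / (4 * m ^ 2)) := by
        field_simp
      have e2 : (((0 : ℕ) : ℝ) + 2) * ((0 : ℕ) : ℝ) * (((0 : ℕ) : ℝ) - 2) / (12 * m ^ 2) = 0 := by
        simp
      rw [e1, e2, Real.exp_zero, mul_one, zero_add, pow_one]
      apply mul_le_of_le_one_right (by linarith)
      have : 0 < 1 / (4 * m ^ 2) := by positivity
      linarith
    · have h0 : Q (0 + 1) l = mu (0 + 1 + 2) l ^ 2 := by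
        unfold Q
        rw [zero_add, Nat.factorial_succ]
        have h3 : (l.factorial : ℝ) ≠ 0 := by positivity
        push_cast
        unfold mu
        push_cast
        field_simp
        ring
      rw [h0]
      set m := mu (0 + 1 + 2) l with hm
      have hm2 : 1 / 4 < m ^ 2 := by nlinarith
      have hm0 : 0 < m ^ 2 := by linarith
      have hc : cc (0 + 1 + 2) l = m ^ 2 - 1 / 4 := cc_mu _ _
      rw [hc]
      have e1 : (m ^ 2) ^ 2 * (1 - 1 / (4 * m ^ 2)) ^ 2 = (m ^ 2 - 1 / 4) ^ 2 := by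
        field_simp
      rw [e1, show 0 + 1 + 1 = 2 from rfl]
      apply mul_le_of_le_one_right (sq_nonneg _)
      rw [Real.exp_le_one_iff]
      apply div_nonpos_of_nonpos_of_nonneg _ (by positivity)
      norm_num
    · have hmu : mu (n + 1 + 1 + 2) l = mu (n + 2) (l + 1) := by
        unfold mu
        push_cast
        ring
      have hcc : cc (n + 1 + 1 + 2) l = cc (n + 2) (l + 1) := by
        rw [cc_mu, cc_mu, hmu]
      rw [hmu] at hl
      have hih := ih n (by omega) (l + 1) hl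
      rw [hmu, hcc, show n + 1 + 1 = n + 2 from rfl, Q_step]
      set m := mu (n + 2) (l + 1) with hm
      set c := cc (n + 2) (l + 1) with hc
      have hcm : c = m ^ 2 - 1 / 4 := cc_mu _ _
      have hm2 : 1 / 4 < m ^ 2 := by nlinarith
      have hm0 : 0 < m ^ 2 := by linarith
      have hc0 : 0 < c := by rw [hcm]; linarith
      set a : ℝ := (n : ℝ) * (n + 2) / 4 with ha
      have ha0 : 0 ≤ a := by rw [ha]; positivity
      have e1 : m ^ 2 - (((n : ℝ) + 1) / 2) ^ 2 = c - a := by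
        rw [hcm, ha]
        ring
      have hpos : 0 ≤ c - a := by
        rw [← e1, hm]
        unfold mu
        push_cast
        have h1 : (0 : ℝ) ≤ l := Nat.cast_nonneg l
        have h2 : (0 : ℝ) ≤ n := Nat.cast_nonneg n
        nlinarith
      have e2 : (c - a) * Real.exp (a / m ^ 2) ≤ c := by
        have h1 : c - a ≤ c * Real.exp (-(a / m ^ 2)) := by
          have h2 := Real.add_one_le_exp (-(a / m ^ 2))
          have h3 : c - a ≤ c * (-(a / m ^ 2) + 1) := by
            have h4 : c * (a / m ^ 2) ≤ a := by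
              rw [← mul_div_assoc, div_le_iff₀ hm0]
              have : c ≤ m ^ 2 := by rw [hcm]; linarith
              nlinarith
            linarith
          exact h3.trans (mul_le_mul_of_nonneg_left h2 hc0.le)
        calc (c - a) * Real.exp (a / m ^ 2)
            ≤ (c * Real.exp (-(a / m ^ 2))) * Real.exp (a / m ^ 2) :=
              mul_le_mul_of_nonneg_right h1 (Real.exp_pos _).le
          _ = c := by rw [mul_assoc, ← Real.exp_add, neg_add_cancel, Real.exp_zero, mul_one]
      rw [e1]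
      have e3 : Real.exp ((((n + 2 : ℕ) : ℝ) + 2) * ((n + 2 : ℕ) : ℝ) * (((n + 2 : ℕ) : ℝ) - 2) /
          (12 * m ^ 2)) = Real.exp (((n : ℝ) + 2) * n * (n - 2) / (12 * m ^ 2)) *
            (Real.exp (a / m ^ 2)) ^ 2 := by
        rw [← Real.exp_nat_mul, ← Real.exp_add]
        congr 1
        rw [ha]
        push_cast
        field_simp
        try ring
      rw [e3]
      calc (Q n (l + 1) * (c - a)) ^ 2 * (1 - 1 / (4 * m ^ 2)) ^ 2 *
            (Real.exp (((n : ℝ) + 2) * n * (n - 2) / (12 * m ^ 2)) * Real.exp (a / m ^ 2) ^ 2)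
          = (Q n (l + 1) ^ 2 * (1 - 1 / (4 * m ^ 2)) ^ 2 *
            Real.exp (((n : ℝ) + 2) * n * (n - 2) / (12 * m ^ 2))) *
            ((c - a) * Real.exp (a / m ^ 2)) ^ 2 := by ring
        _ ≤ c ^ (n + 1) * c ^ 2 := by
            apply mul_le_mul hih _ (sq_nonneg _) (by positivity)
            exact pow_le_pow_left₀ (mul_nonneg hpos (Real.exp_pos _).le) e2 2
        _ = c ^ (n + 2 + 1) := by
            rw [← pow_add]

/-- the summands of `S`, up to the factor `2 / ((n + 1)! σ)` -/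
noncomputable def V (n l : ℕ) : ℝ := cc (n + 2) l ^ (-((n : ℝ) + 1) / 2) * Q n l

theorem V_sq {n l : ℕ} (h : 0 < cc (n + 2) l) : V n l ^ 2 * cc (n + 2) l ^ (n + 1) = Q n l ^ 2 := by
  unfold V
  have e1 : (cc (n + 2) l ^ (-((n : ℝ) + 1) / 2)) ^ 2 * cc (n + 2) l ^ (n + 1) = 1 := by
    rw [← Real.rpow_natCast (cc (n + 2) l ^ (-((n : ℝ) + 1) / 2)) 2, ← Real.rpow_mul h.le,
      ← Real.rpow_natCast (cc (n + 2) l) (n + 1), ← Real.rpow_add h]
    have : -((n : ℝ) + 1) / 2 * ((2 : ℕ) : ℝ) + ((n + 1 : ℕ) : ℝ) = 0 := by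
      push_cast
      ring
    rw [this, Real.rpow_zero]
  rw [mul_pow, mul_right_comm, e1, one_mul]

theorem V_nonneg {n l : ℕ} (h : 0 < cc (n + 2) l) : 0 ≤ V n l :=
  mul_nonneg (Real.rpow_nonneg h.le _) (Q_nonneg n l)

theorem V_bound {n l : ℕ} (h : 1 / 2 < mu (n + 2) l) :
    V n l ≤ (1 - 1 / (4 * mu (n + 2) l ^ 2))⁻¹ *
      Real.exp (-(((n : ℝ) + 2) * n * (n - 2) / (24 * mu (n + 2) l ^ 2))) := by
  have hT := T_bound n l h
  set m := mu (n + 2) l with hm
  have hm2 : 1 / 4 < m ^ 2 := by nlinarith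
  have hm0 : 0 < m ^ 2 := by linarith
  have hc : 0 < cc (n + 2) l := by rw [cc_mu]; linarith
  have h1 : 0 < 1 - 1 / (4 * m ^ 2) := by
    rw [sub_pos, div_lt_one (by positivity)]
    linarith
  have hVn := V_nonneg hc
  have hcp : 0 < cc (n + 2) l ^ (n + 1) := by positivity
  rw [← V_sq hc] at hT
  have h2 : V n l ^ 2 * ((1 - 1 / (4 * m ^ 2)) ^ 2 *
      Real.exp (((n : ℝ) + 2) * n * (n - 2) / (12 * m ^ 2))) ≤ 1 := by
    by_contra hcon
    rw [not_le] at hcon
    have := mul_lt_mul_of_pos_right hcon hcp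
    rw [one_mul] at this
    nlinarith
  have e1 : Real.exp (((n : ℝ) + 2) * n * (n - 2) / (12 * m ^ 2)) =
      (Real.exp (((n : ℝ) + 2) * n * (n - 2) / (24 * m ^ 2))) ^ 2 := by
    rw [← Real.exp_nat_mul]
    congr 1
    push_cast
    field_simp
    ring
  rw [e1, ← mul_pow, ← mul_pow] at h2
  have h3 : V n l * ((1 - 1 / (4 * m ^ 2)) *
      Real.exp (((n : ℝ) + 2) * n * (n - 2) / (24 * m ^ 2))) ≤ 1 := by
    have h4 : 0 ≤ V n l * ((1 - 1 / (4 * m ^ 2)) *
      Real.exp (((n : ℝ) + 2) * n * (n - 2) / (24 * m ^ 2))) := by positivity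
    nlinarith
  rw [Real.exp_neg, ← mul_inv, ← one_div, le_div_iff₀ (by positivity)]
  exact h3

theorem term_eq {n l : ℕ} (h : 0 < cc (n + 2) l) :
    cc (n + 2) l ^ (-((n + 2 : ℕ) : ℝ) / 2) * (nh (n + 2) l / sg (n + 2 + 1)) =
      2 / ((n + 1).factorial * sg (n + 2 + 1)) * (V n l / √(cc (n + 2) l)) := by
  rw [nh_Q]
  unfold V
  have e1 : cc (n + 2) l ^ (-((n + 2 : ℕ) : ℝ) / 2) =
      cc (n + 2) l ^ (-((n : ℝ) + 1) / 2) / √(cc (n + 2) l) := by
    rw [Real.sqrt_eq_rpow, ← Real.rpow_sub h]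
    congr 1
    push_cast
    ring
  have hs := sg_pos (show 0 < n + 2 + 1 by omega)
  have hn : ((n + 1).factorial : ℝ) ≠ 0 := by positivity
  rw [e1]
  field_simp

end Pool.Agent.K7.H84.AM
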