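import Pool.Agent.K7.H84.AM.Energy
import Pool.Agent.K7.H84.AM.Gram2

/-!
The kinetic inequality for real systems with angular momenta in a finite set.
-/

set_option autoImplicit false

open MeasureTheory Set Filter Topology Metric

namespace Pool.Agent.K7.H84.AM

open Pool.Agent.R117.RL (E sg om sg_pos pow_frac)

/-- the constant -/
noncomputable def KA (k : ℕ) (S : ℝ) : ℝ :=
  ((k : ℝ) + 1) * (Real.pi ^ 2 / 4) ^ (1 / ((k + 1 : ℕ) : ℝ)) *
    (1 / (k : ℝ)) ^ ((k : ℝ) / ((k + 1 : ℕ) : ℝ)) * (1 / S) ^ (2 / ((k + 1 : ℕ) : ℝ))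

theorem KA_nonneg (k : ℕ) {S : ℝ} (hS : 0 ≤ S) : 0 ≤ KA k S := by
  unfold KA
  positivity

theorem KA_pow {k : ℕ} {S : ℝ} (hS : 0 ≤ S) :
    KA k S ^ (k + 1) = ((k : ℝ) + 1) ^ (k + 1) * (Real.pi ^ 2 / 4) * (1 / (k : ℝ)) ^ k *
      (1 / S) ^ 2 := by
  unfold KA
  have e1 := pow_frac (x := Real.pi ^ 2 / 4) (by positivity) (Nat.succ_pos k) 1
  have e2 := pow_frac (x := 1 / (k : ℝ)) (by positivity) (Nat.succ_pos k) k
  have e3 := pow_frac (x := 1 / S) (by positivity) (Nat.succ_pos k) 2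
  simp only [Nat.succ_eq_add_one, Nat.cast_one, Nat.cast_ofNat, pow_one] at e1 e2 e3
  rw [mul_pow, mul_pow, mul_pow, e1, e2, e3]

/-- the inequality of the means -/
theorem amgm {k : ℕ} (hk : 1 ≤ k) {x y : ℝ} (hx : 0 ≤ x) (hy : 0 ≤ y) :
    ((k : ℝ) + 1) ^ (k + 1) * x * (1 / (k : ℝ)) ^ k * y ^ k ≤ (x + y) ^ (k + 1) := by
  have hk' : (1 : ℝ) ≤ k := by exact_mod_cast hk
  have hcast : ((k + 1 : ℕ) : ℝ) = (k : ℝ) + 1 := by push_cast; ring
  have hp1 : 0 ≤ ((k : ℝ) + 1) * x := by positivity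
  have hp2 : 0 ≤ ((k : ℝ) + 1) * (y / k) := by positivity
  have h1 := Real.geom_mean_le_arith_mean2_weighted (w₁ := 1 / ((k + 1 : ℕ) : ℝ))
    (w₂ := (k : ℝ) / ((k + 1 : ℕ) : ℝ)) (by positivity) (by positivity) hp1 hp2
    (by rw [hcast]; field_simp; ring)
  have h2 : 1 / ((k + 1 : ℕ) : ℝ) * (((k : ℝ) + 1) * x) +
      (k : ℝ) / ((k + 1 : ℕ) : ℝ) * (((k : ℝ) + 1) * (y / k)) = x + y := by
    rw [hcast]
    field_simp
  rw [h2] at h1
  have e1 := pow_frac hp1 (Nat.succ_pos k) 1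
  have e2 := pow_frac hp2 (Nat.succ_pos k) k
  simp only [Nat.succ_eq_add_one, Nat.cast_one, pow_one] at e1 e2
  have h3 := pow_le_pow_left₀ (by positivity) h1 (k + 1)
  rw [mul_pow, e1, e2] at h3
  refine le_trans (le_of_eq ?_) h3
  rw [mul_pow, div_pow, div_pow, one_pow, pow_succ]
  field_simp

theorem ptwA {k : ℕ} (hk : 1 ≤ k) {S X a Z r : ℝ} (hS : 0 < S) (hX : 0 ≤ X)
    (ha : 0 ≤ a) (hr : 0 < r) (h : Z ^ (k + 1) ≤ a ^ k * X * S ^ 2)
    {Q : ℝ} (hQ0 : 0 ≤ Q) (hQ : Q ^ (k + 1) * r ^ (2 * k) = Z ^ (k + 1)) :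
    KA k S * Q ≤ Real.pi ^ 2 / 4 * X + a / r ^ 2 := by
  have hπ := Real.pi_pos
  have h0 : 0 ≤ Real.pi ^ 2 / 4 * X + a / r ^ 2 := by positivity
  have hKA := KA_nonneg k hS.le
  rw [← pow_le_pow_iff_left₀ (mul_nonneg hKA hQ0) h0 (Nat.succ_ne_zero k)]
  have h1 := amgm hk (x := Real.pi ^ 2 / 4 * X) (y := a / r ^ 2) (by positivity) (by positivity)
  refine le_trans ?_ h1
  rw [Nat.succ_eq_add_one, mul_pow, KA_pow hS.le]
  have hr2 : 0 < r ^ (2 * k) := by positivity
  have hQ' : Q ^ (k + 1) = Z ^ (k + 1) / r ^ (2 * k) := by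
    rw [eq_div_iff hr2.ne', hQ]
  rw [hQ', div_pow a, ← pow_mul]
  have h2 : Z ^ (k + 1) / S ^ 2 ≤ a ^ k * X := by
    rw [div_le_iff₀ (by positivity)]
    exact h
  have hk0 : (0 : ℝ) < k := by exact_mod_cast hk
  calc ((k : ℝ) + 1) ^ (k + 1) * (Real.pi ^ 2 / 4) * (1 / (k : ℝ)) ^ k * (1 / S) ^ 2 *
        (Z ^ (k + 1) / r ^ (2 * k))
      = (((k : ℝ) + 1) ^ (k + 1) * (Real.pi ^ 2 / 4) * (1 / (k : ℝ)) ^ k / r ^ (2 * k)) *
        (Z ^ (k + 1) / S ^ 2) := by
        rw [div_pow, one_pow]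
        field_simp
    _ ≤ (((k : ℝ) + 1) ^ (k + 1) * (Real.pi ^ 2 / 4) * (1 / (k : ℝ)) ^ k / r ^ (2 * k)) *
        (a ^ k * X) := mul_le_mul_of_nonneg_left h2 (by positivity)
    _ = _ := by ring

/-- the centrifugal coefficient -/
noncomputable def cc (k l : ℕ) : ℝ := ((k : ℝ) / 2) ^ 2 - (k : ℝ) / 2 + l * ((l : ℝ) + k - 1)

/-- the energy identity for real functions on the half line -/
theorem total_real {α lam : ℝ} {f f' : ℝ → ℝ} (hα : 0 < α) (hl : 0 ≤ lam)
    (hαα : 0 < α ^ 2 - α + lam)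
    (hf : ∀ r, 0 < r → HasDerivAt f (f' r) r)
    (hc : ContinuousOn f' (Ioi 0)) (h2 : IntegrableOn (fun r => f r ^ 2) (Ioi 0))
    (hφ : IntegrableOn (fun r => (f' r - (α / r) * f r) ^ 2 + lam * (f r ^ 2 / r ^ 2)) (Ioi 0)) :
    IntegrableOn (fun r => f' r ^ 2 + (α ^ 2 - α + lam) * (f r ^ 2 / r ^ 2)) (Ioi 0) ∧
    (∫ r in Ioi 0, (f' r ^ 2 + (α ^ 2 - α + lam) * (f r ^ 2 / r ^ 2))) ≤
      ∫ r in Ioi 0, ((f' r - (α / r) * f r) ^ 2 + lam * (f r ^ 2 / r ^ 2)) := by
  have e1 : ∀ x : ℝ, ‖(x : ℂ)‖ ^ 2 = x ^ 2 := fun x => by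
    rw [Complex.norm_real, Real.norm_eq_abs, sq_abs]
  have e2 : ∀ r, ‖((f' r : ℝ) : ℂ) - (α / r) • ((f r : ℝ) : ℂ)‖ ^ 2 = (f' r - (α / r) * f r) ^ 2 := by
    intro r
    have e3 : ((f' r : ℝ) : ℂ) - (α / r) • ((f r : ℝ) : ℂ) =
        ((f' r - (α / r) * f r : ℝ) : ℂ) := by
      rw [Complex.real_smul]
      push_cast
      ring
    rw [e3, e1]
  have h := Pool.Agent.R117.RL.total2 (α := α) (lam := lam) (f := fun r => ((f r : ℝ) : ℂ))
    (f' := fun r => ((f' r : ℝ) : ℂ)) hα hl hαα (fun r hr => (hf r hr).ofReal_comp)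
    (Complex.continuous_ofReal.comp_continuousOn hc) (by simp only [e1]; exact h2)
    (by simp only [e1, e2]; exact hφ)
  simp only [e1, e2] at h
  exact h

section
variable {k n : ℕ} {J : Type} [Fintype J] [DecidableEq J]

theorem vv_cont {Y : J → MP (k + 1)} {F F' : J → ℝ → ℝ}
    (hF : ∀ j r, 0 < r → HasDerivAt (F j) (F' j r) r) : ContinuousOn (vv Y F) {0}ᶜ := by
  unfold vv
  refine continuousOn_finsetSum _ fun j _ => ?_
  refine ContinuousOn.mul ?_ (ev_continuous (Y j)).continuousOn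
  have h1 : ContinuousOn (F j) (Ioi 0) := fun r hr => (hF j r hr).continuousAt.continuousWithinAt
  exact h1.comp continuous_norm.continuousOn fun x hx => norm_pos_iff.2 hx

theorem gr2_cont {Y : J → MP (k + 1)} {F F' : J → ℝ → ℝ}
    (hF : ∀ j r, 0 < r → HasDerivAt (F j) (F' j r) r) (hc : ∀ j, ContinuousOn (F' j) (Ioi 0)) :
    ContinuousOn (gr2 (vv Y F)) {0}ᶜ := by
  have hn : MapsTo (fun x : E (k + 1) => ‖x‖) {0}ᶜ (Ioi 0) := fun x hx => norm_pos_iff.2 hx
  have h1 : ∀ j, ContinuousOn (F j) (Ioi 0) := fun j r hr =>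
    (hF j r hr).continuousAt.continuousWithinAt
  have h2 : ContinuousOn (fun x : E (k + 1) => ∑ i : Fin (k + 1),
      (x i / ‖x‖ * (∑ j, F' j ‖x‖ * ev (Y j) x) +
      ∑ j, F j ‖x‖ * ev (MvPolynomial.pderiv i (Y j)) x) ^ 2) {0}ᶜ := by
    refine continuousOn_finsetSum _ fun i _ => ?_
    apply ContinuousOn.pow
    apply ContinuousOn.add
    · apply ContinuousOn.mul
      · apply ContinuousOn.div (coord_contDiff 0 i).continuous.continuousOn
          continuous_norm.continuousOn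
        intro x hx
        exact norm_ne_zero_iff.2 hx
      · refine continuousOn_finsetSum _ fun j _ => ?_
        exact ((hc j).comp continuous_norm.continuousOn hn).mul (ev_continuous _).continuousOn
    · refine continuousOn_finsetSum _ fun j _ => ?_
      exact ((h1 j).comp continuous_norm.continuousOn hn).mul (ev_continuous _).continuousOn
  refine h2.congr fun x hx => ?_
  unfold gr2
  refine Finset.sum_congr rfl fun i _ => ?_
  rw [vv_pder Y (F' := fun j => F' j ‖x‖) hx fun j => hF j _ (norm_pos_iff.2 hx)]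

theorem sph_meas {f : E (k + 1) → ℝ} (hf : ContinuousOn f {0}ᶜ) :
    AEStronglyMeasurable (fun r : ℝ => ∫ ω : Sph (k + 1), f (r • (ω : E (k + 1))) ∂(sig (k + 1)))
      (volume.restrict (Ioi 0)) := by
  apply ContinuousOn.aestronglyMeasurable _ measurableSet_Ioi
  rw [continuousOn_iff_continuous_restrict]
  have hc : Continuous (fun p : Ioi (0 : ℝ) × Sph (k + 1) => f ((p.1 : ℝ) • (p.2 : E (k + 1)))) := by
    have h1 : Continuous (fun p : Ioi (0 : ℝ) × Sph (k + 1) => ((p.1 : ℝ) • (p.2 : E (k + 1)))) := by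
      fun_prop
    apply hf.comp_continuous h1
    intro p
    rw [mem_compl_iff, mem_singleton_iff, smul_eq_zero, not_or]
    exact ⟨ne_of_gt p.1.2, ne_zero_of_mem_unit_sphere p.2⟩
  haveI : LocallyCompactSpace (Ioi (0 : ℝ)) := isOpen_Ioi.locallyCompactSpace
  have h2 := continuous_parametric_integral_of_continuous (μ := sig (k + 1))
    (f := fun (r : Ioi (0 : ℝ)) (ω : Sph (k + 1)) => f ((r : ℝ) • (ω : E (k + 1)))) hc
    (s := univ) isCompact_univ
  simp only [Measure.restrict_univ] at h2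
  exact h2

/-- the kinetic inequality for real systems -/
theorem real_system (hk : 1 ≤ k) {Y : J → MP (k + 1)} {dg : J → ℕ}
    (hY : ∀ j, Y j ∈ Harm k (dg j))
    (ho : ∀ i j, sp (Y i) (Y j) = if i = j then 1 else 0) {S : ℝ} (hS : 0 < S)
    (hcp : ∀ j, 0 < cc k (dg j))
    (hSb : ∀ ω : Sph (k + 1),
      ∑ j, cc k (dg j) ^ (-(k : ℝ) / 2) * ev (Y j) (ω : E (k + 1)) ^ 2 ≤ S)
    (F F' : Fin n → J → ℝ → ℝ) (hF : ∀ i j r, 0 < r → HasDerivAt (F i j) (F' i j r) r)
    (hc : ∀ i j, ContinuousOn (F' i j) (Ioi 0))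
    (h2 : ∀ i, Integrable fun x => vv Y (F i) x ^ 2)
    (hd : ∀ i, Integrable (gr2 (vv Y (F i))))
    (hB : ∀ a : Fin n → ℝ, ∫ x, (∑ i, a i * vv Y (F i) x) ^ 2 ≤ ∑ i, a i ^ 2) :
    Integrable (fun x => (∑ i, vv Y (F i) x ^ 2) ^ (1 + 2 / ((k + 1 : ℕ) : ℝ))) ∧
    KA k S * ∫ x, (∑ i, vv Y (F i) x ^ 2) ^ (1 + 2 / ((k + 1 : ℕ) : ℝ)) ≤
      ∑ i, ∫ x, gr2 (vv Y (F i)) x := by
  have hk' : (1 : ℝ) ≤ k := by exact_mod_cast hk
  set α : ℝ := (k : ℝ) / 2 with hα
  have hα0 : 0 < α := by rw [hα]; positivity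
  set lam : J → ℝ := fun j => (dg j : ℝ) * ((dg j : ℝ) + k - 1) with hlam
  have hlam0 : ∀ j, 0 ≤ lam j := by
    intro j
    apply mul_nonneg (Nat.cast_nonneg _)
    have : (0 : ℝ) ≤ dg j := Nat.cast_nonneg _
    linarith
  have hccj : ∀ j, cc k (dg j) = α ^ 2 - α + lam j := fun j => rfl
  -- the profiles
  set w : ℝ → ℝ := fun r => r ^ α with hw
  set w' : ℝ → ℝ := fun r => α * r ^ (α - 1) with hw'
  have hws : ∀ r, 0 < r → w r ^ 2 = r ^ k := by
    intro r hr
    rw [hw]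
    simp only
    rw [← Real.rpow_natCast (r ^ α) 2, ← Real.rpow_mul hr.le, hα, ← Real.rpow_natCast r k]
    congr 1
    push_cast
    ring
  have hwd : ∀ r, 0 < r → HasDerivAt w (w' r) r := fun r hr =>
    (Real.hasDerivAt_rpow_const (Or.inl hr.ne'))
  have hww : ∀ r, 0 < r → w' r = α / r * w r := by
    intro r hr
    rw [hw, hw']
    simp only
    rw [Real.rpow_sub_one hr.ne']
    field_simp
  set A : Fin n → J → ℝ → ℝ := fun i j r => r ^ dg j * F i j r with hA
  set A' : Fin n → J → ℝ → ℝ := fun i j r =>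
    r ^ dg j * F' i j r + (dg j : ℝ) / r * (r ^ dg j * F i j r) with hA'
  have hAd : ∀ i j r, 0 < r → HasDerivAt (A i j) (A' i j r) r := by
    intro i j r hr
    have h1 : HasDerivAt (fun r : ℝ => r ^ dg j) ((dg j : ℝ) / r * r ^ dg j) r := by
      have := hasDerivAt_pow (dg j) r
      rcases Nat.eq_zero_or_pos (dg j) with h0 | h0
      · rw [h0] at this ⊢
        simpa using this
      · obtain ⟨M, hM⟩ : ∃ M, dg j = M + 1 := ⟨dg j - 1, by omega⟩
        rw [hM] at this ⊢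
        have e : (((M + 1 : ℕ) : ℝ)) / r * r ^ (M + 1) = ((M + 1 : ℕ) : ℝ) * r ^ (M + 1 - 1) := by
          rw [Nat.add_sub_cancel, pow_succ]
          field_simp
        rw [e]
        exact this
    refine (h1.mul (hF i j r hr)).congr_deriv ?_
    rw [hA']
    ring
  set f : Fin n → J → ℝ → ℝ := fun i j r => w r * A i j r with hf
  set f' : Fin n → J → ℝ → ℝ := fun i j r => w' r * A i j r + w r * A' i j r with hf'
  have hfd : ∀ i j r, 0 < r → HasDerivAt (f i j) (f' i j r) r := fun i j r hr =>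
    (hwd r hr).mul (hAd i j r hr)
  have hcF : ∀ i j, ContinuousOn (F i j) (Ioi 0) := fun i j r hr =>
    (hF i j r hr).continuousAt.continuousWithinAt
  have hcA : ∀ i j, ContinuousOn (A i j) (Ioi 0) := fun i j r hr =>
    (hAd i j r hr).continuousAt.continuousWithinAt
  have hcw : ContinuousOn w (Ioi 0) := fun r hr => (hwd r hr).continuousAt.continuousWithinAt
  have hcw' : ContinuousOn w' (Ioi 0) := by
    apply ContinuousOn.mul continuousOn_const
    exact ContinuousOn.rpow_const continuousOn_id fun r hr => Or.inl (ne_of_gt hr)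
  have hcA' : ∀ i j, ContinuousOn (A' i j) (Ioi 0) := by
    intro i j
    apply ContinuousOn.add
    · exact (continuousOn_pow _).mul (hc i j)
    · apply ContinuousOn.mul
      · apply ContinuousOn.div continuousOn_const continuousOn_id
        intro r hr
        exact ne_of_gt hr
      · exact (continuousOn_pow _).mul (hcF i j)
  have hcf : ∀ i j, ContinuousOn (f i j) (Ioi 0) := fun i j => hcw.mul (hcA i j)
  have hcf' : ∀ i j, ContinuousOn (f' i j) (Ioi 0) := fun i j =>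
    (hcw'.mul (hcA i j)).add (hcw.mul (hcA' i j))
  have hsub : ∀ i j r, 0 < r → f' i j r - (α / r) * f i j r = w r * A' i j r := by
    intro i j r hr
    rw [hf, hf']
    simp only
    rw [hww r hr]
    ring
  -- the sphere integrals
  have hS1 : ∀ i, ∀ r ∈ Ioi (0 : ℝ),
      r ^ k * ∫ ω : Sph (k + 1), vv Y (F i) (r • (ω : E (k + 1))) ^ 2 ∂(sig (k + 1)) =
        ∑ j, f i j r ^ 2 := by
    intro i r hr
    have hr0 : (0 : ℝ) < r := hr
    have e1 : ∀ ω : Sph (k + 1), vv Y (F i) (r • (ω : E (k + 1))) ^ 2 =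
        (∑ j, F i j r * ev (Y j) (r • (ω : E (k + 1)))) ^ 2 := by
      intro ω
      unfold vv
      rw [norm_smul_sph hr0]
    simp only [e1]
    rw [sph_sq hY ho, Finset.mul_sum]
    refine Finset.sum_congr rfl fun j _ => ?_
    have e2 : f i j r ^ 2 = (w r) ^ 2 * (r ^ dg j * F i j r) ^ 2 := mul_pow _ _ _
    rw [e2, hws r hr0]
  have hS2 : ∀ i, ∀ r ∈ Ioi (0 : ℝ),
      r ^ k * ∫ ω : Sph (k + 1), gr2 (vv Y (F i)) (r • (ω : E (k + 1))) ∂(sig (k + 1)) =
        ∑ j, ((f' i j r - (α / r) * f i j r) ^ 2 + lam j * (f i j r ^ 2 / r ^ 2)) := by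
    intro i r hr
    have hr0 : (0 : ℝ) < r := hr
    rw [sph_grad hk hY ho hr0 fun j => hF i j r hr0, Finset.mul_sum]
    refine Finset.sum_congr rfl fun j _ => ?_
    rw [hsub i j r hr0, hf, hA, hA', hlam]
    simp only
    rw [mul_pow (w r), mul_pow (w r), hws r hr0]
    ring
  have hP1 : ∀ i, IntegrableOn (fun r => ∑ j, f i j r ^ 2) (Ioi 0) := fun i =>
    (((polar_nonneg ((vv_cont (hF i)).pow 2) fun x => sq_nonneg _).1 (h2 i))).congr_fun
      (hS1 i) measurableSet_Ioi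
  have hP2 : ∀ i, IntegrableOn (fun r => ∑ j, ((f' i j r - (α / r) * f i j r) ^ 2 +
      lam j * (f i j r ^ 2 / r ^ 2))) (Ioi 0) := fun i =>
    (((polar_nonneg (gr2_cont (hF i) (hc i)) fun x =>
      Finset.sum_nonneg fun _ _ => sq_nonneg _).1 (hd i))).congr_fun (hS2 i) measurableSet_Ioi
  have hf2 : ∀ i j, IntegrableOn (fun r => f i j r ^ 2) (Ioi 0) := by
    intro i j
    refine Integrable.mono' (hP1 i) (((hcf i j).pow 2).aestronglyMeasurable measurableSet_Ioi) ?_
    refine Eventually.of_forall fun r => ?_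
    rw [Real.norm_eq_abs, abs_of_nonneg (sq_nonneg _)]
    exact Finset.single_le_sum (f := fun j => f i j r ^ 2) (fun j _ => sq_nonneg _)
      (Finset.mem_univ j)
  have hne2 : ∀ r ∈ Ioi (0 : ℝ), r ^ 2 ≠ 0 := fun r hr => pow_ne_zero 2 (ne_of_gt hr)
  have hcφ : ∀ i j, ContinuousOn (fun r => (f' i j r - (α / r) * f i j r) ^ 2 +
      lam j * (f i j r ^ 2 / r ^ 2)) (Ioi 0) := by
    intro i j
    apply ContinuousOn.add
    · apply ContinuousOn.pow
      apply (hcf' i j).sub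
      apply ContinuousOn.mul _ (hcf i j)
      exact ContinuousOn.div continuousOn_const continuousOn_id fun r hr => ne_of_gt hr
    · exact continuousOn_const.mul (((hcf i j).pow 2).div (continuousOn_pow 2) hne2)
  have hφn : ∀ i j r, 0 ≤ (f' i j r - (α / r) * f i j r) ^ 2 + lam j * (f i j r ^ 2 / r ^ 2) := by
    intro i j r
    have := hlam0 j
    positivity
  have hφ2 : ∀ i j, IntegrableOn (fun r => (f' i j r - (α / r) * f i j r) ^ 2 +
      lam j * (f i j r ^ 2 / r ^ 2)) (Ioi 0) := by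
    intro i j
    refine Integrable.mono' (hP2 i) ((hcφ i j).aestronglyMeasurable measurableSet_Ioi) ?_
    refine Eventually.of_forall fun r => ?_
    rw [Real.norm_eq_abs, abs_of_nonneg (hφn i j r)]
    exact Finset.single_le_sum (f := fun j => (f' i j r - (α / r) * f i j r) ^ 2 +
      lam j * (f i j r ^ 2 / r ^ 2)) (fun j _ => hφn i j r) (Finset.mem_univ j)
  have htot := fun i j => total_real hα0 (hlam0 j) (by rw [← hccj]; exact hcp j) (hfd i j)
    (hcf' i j) (hf2 i j) (hφ2 i j)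
  simp only [← hccj] at htot
  have hfp : ∀ i j, IntegrableOn (fun r => f' i j r ^ 2) (Ioi 0) := by
    intro i j
    refine Integrable.mono' (htot i j).1 (((hcf' i j).pow 2).aestronglyMeasurable measurableSet_Ioi) ?_
    refine Eventually.of_forall fun r => ?_
    rw [Real.norm_eq_abs, abs_of_nonneg (sq_nonneg _)]
    have := hcp j
    have : 0 ≤ cc k (dg j) * (f i j r ^ 2 / r ^ 2) := by positivity
    linarith
  have hfr : ∀ i j, IntegrableOn (fun r => f i j r ^ 2 / r ^ 2) (Ioi 0) := by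
    intro i j
    refine Integrable.mono' ((htot i j).1.const_mul (cc k (dg j))⁻¹)
      ((((hcf i j).pow 2).div (continuousOn_pow 2) hne2).aestronglyMeasurable measurableSet_Ioi) ?_
    refine Eventually.of_forall fun r => ?_
    have h0 : 0 ≤ f i j r ^ 2 / r ^ 2 := by positivity
    have h1 := hcp j
    rw [Real.norm_eq_abs, abs_of_nonneg h0, mul_add, ← mul_assoc, inv_mul_cancel₀ h1.ne', one_mul]
    have : 0 ≤ (cc k (dg j))⁻¹ * f' i j r ^ 2 := by positivity
    linarith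
  -- Bessel
  have hBf : ∀ v : Fin n → ℝ, ∫ r in Ioi 0, ∑ j, (∑ i, v i * f i j r) ^ 2 ≤ ∑ i, v i ^ 2 := by
    intro v
    refine le_trans (le_of_eq ?_) (hB v)
    have hcv : ContinuousOn (fun x => ∑ i, v i * vv Y (F i) x) {0}ᶜ :=
      continuousOn_finsetSum _ fun i _ => continuousOn_const.mul (vv_cont (hF i))
    have hvm : ∀ {g : E (k + 1) → ℝ}, ContinuousOn g {0}ᶜ → AEStronglyMeasurable g volume := by
      intro g hg
      have h3 := hg.aestronglyMeasurable (μ := volume) isOpen_compl_singleton.measurableSet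
      rwa [restrict_compl_singleton] at h3
    have hint : Integrable (fun x => (∑ i, v i * vv Y (F i) x) ^ 2) := by
      refine Integrable.mono' (g := fun x => (∑ i, v i ^ 2) * ∑ i, vv Y (F i) x ^ 2)
        ((integrable_finsetSum _ fun i _ => h2 i).const_mul _) (hvm (hcv.pow 2)) ?_
      refine Eventually.of_forall fun x => ?_
      rw [Real.norm_eq_abs, abs_of_nonneg (sq_nonneg _)]
      exact Finset.sum_mul_sq_le_sq_mul_sq _ _ _
    rw [polar_integral hint]
    refine setIntegral_congr_fun measurableSet_Ioi fun r hr => ?_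
    have hr0 : (0 : ℝ) < r := hr
    simp only [smul_eq_mul]
    have e1 : ∀ ω : Sph (k + 1), (∑ i, v i * vv Y (F i) (r • (ω : E (k + 1)))) ^ 2 =
        (∑ j, (∑ i, v i * F i j r) * ev (Y j) (r • (ω : E (k + 1)))) ^ 2 := by
      intro ω
      congr 1
      unfold vv
      rw [norm_smul_sph hr0]
      simp only [Finset.mul_sum, Finset.sum_mul]
      rw [Finset.sum_comm]
      exact Finset.sum_congr rfl fun j _ => Finset.sum_congr rfl fun i _ => by ring
    simp only [e1]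
    rw [sph_sq hY ho, Finset.mul_sum]
    refine Finset.sum_congr rfl fun j _ => ?_
    have e2 : ∑ i, v i * f i j r = w r * (r ^ dg j * ∑ i, v i * F i j r) := by
      rw [Finset.mul_sum, Finset.mul_sum]
      refine Finset.sum_congr rfl fun i _ => ?_
      show v i * (w r * (r ^ dg j * F i j r)) = w r * (r ^ dg j * (v i * F i j r))
      ring
    rw [e2, mul_pow (w r), hws r hr0]
  have hop := half_op f f' hfd hcf' hf2 hfp hfr hBf
  set X : ℝ → ℝ := fun r => ((GM fun i j => f i j r) * (GM fun i j => f i j r) *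
      (GM fun i j => f i j r)).trace with hX
  set a : ℝ → ℝ := fun r => ∑ i, ∑ j, cc k (dg j) * f i j r ^ 2 with ha
  have hX0 : ∀ r, 0 ≤ X r := fun r => psd_tr3_nonneg (GM_psd _)
  have ha0 : ∀ r, 0 ≤ a r := fun r => Finset.sum_nonneg fun i _ => Finset.sum_nonneg fun j _ =>
    mul_nonneg (hcp j).le (sq_nonneg _)
  have har : IntegrableOn (fun r => a r / r ^ 2) (Ioi 0) := by
    have e : ∀ r, a r / r ^ 2 = ∑ i, ∑ j, cc k (dg j) * (f i j r ^ 2 / r ^ 2) := by
      intro r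
      rw [ha]
      simp only [Finset.sum_div, mul_div_assoc]
    simp only [e]
    exact integrable_finsetSum _ fun i _ => integrable_finsetSum _ fun j _ =>
      (hfr i j).const_mul _
  -- the pointwise inequality
  set p : ℝ := 1 + 2 / ((k + 1 : ℕ) : ℝ) with hp
  have hpp : 0 < p := by rw [hp]; positivity
  set ρ : E (k + 1) → ℝ := fun x => ∑ i, vv Y (F i) x ^ 2 with hρ
  have hρ0 : ∀ x, 0 ≤ ρ x := fun x => Finset.sum_nonneg fun i _ => sq_nonneg _
  have hρc : ContinuousOn ρ {0}ᶜ := continuousOn_finsetSum _ fun i _ => (vv_cont (hF i)).pow 2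
  have hpt : ∀ r ∈ Ioi (0 : ℝ), KA k S *
      (r ^ k * ∫ ω : Sph (k + 1), ρ (r • (ω : E (k + 1))) ^ p ∂(sig (k + 1))) ≤
        Real.pi ^ 2 / 4 * X r + a r / r ^ 2 := by
    intro r hr
    have hr0 : (0 : ℝ) < r := hr
    set s : ℝ := ((k : ℝ) + 3) / 2 with hs
    have hs2 : 2 ≤ s := by rw [hs]; linarith
    have hden := density (μ := sig (k + 1)) (Y := fun j ω => ev (Y j) (ω : E (k + 1)))
      (fun j => ev_sph_cont (Y j)) ho (c := fun j => cc k (dg j)) hcp (fun i j => f i j r)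
      hs2 hS.le (by
        intro ω
        have e : 3 / 2 - s = -(k : ℝ) / 2 := by rw [hs]; ring
        rw [e]
        exact hSb ω)
    have es : s / (s - 1) = p := by
      have e9 : s - 1 = ((k : ℝ) + 1) / 2 := by rw [hs]; ring
      rw [e9, hs, hp]
      push_cast
      field_simp
      ring
    rw [es] at hden
    set Z : ℝ := ∫ ω : Sph (k + 1),
      (∑ i, (∑ j, f i j r * ev (Y j) (ω : E (k + 1))) ^ 2) ^ p ∂(sig (k + 1)) with hZ
    have hZ0 : 0 ≤ Z := integral_nonneg fun ω => Real.rpow_nonneg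
      (Finset.sum_nonneg fun i _ => sq_nonneg _) _
    set b : ℝ := ∑ j, ∑ j', cc k (dg j) ^ (1 / 2 : ℝ) * (∑ i, f i j r * f i j' r) ^ 2 with hbdef
    have hb0 : 0 ≤ b := Finset.sum_nonneg fun i _ => Finset.sum_nonneg fun j _ =>
      mul_nonneg (Real.rpow_nonneg (hcp i).le _) (sq_nonneg _)
    have hcs : b ^ 2 ≤ a r * X r := GM_cs (fun i j => f i j r) fun j => (hcp j).le
    obtain ⟨k', rfl⟩ : ∃ k', k = k' + 1 := ⟨k - 1, by omega⟩
    have hZpow : Z ^ (k' + 1 + 1) ≤ a r ^ (k' + 1) * X r * S ^ 2 := by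
      have h3 := pow_le_pow_left₀ (Real.rpow_nonneg hZ0 _) hden 2
      have e1 : (Z ^ (s - 1)) ^ 2 = Z ^ (k' + 1 + 1) := by
        rw [← Real.rpow_natCast, ← Real.rpow_mul hZ0, ← Real.rpow_natCast Z (k' + 1 + 1)]
        congr 1
        rw [hs]
        push_cast
        ring
      have e2 : (a r ^ (s - 2)) ^ 2 = a r ^ k' := by
        rw [← Real.rpow_natCast, ← Real.rpow_mul (ha0 r), ← Real.rpow_natCast (a r) k']
        congr 1
        rw [hs]
        push_cast
        ring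
      rw [e1, mul_pow] at h3
      have h4 : (a r ^ (s - 2)) ^ 2 * (b * S) ^ 2 ≤ a r ^ (k' + 1) * X r * S ^ 2 := by
        rw [e2, mul_pow]
        calc a r ^ k' * (b ^ 2 * S ^ 2) ≤ a r ^ k' * (a r * X r * S ^ 2) :=
              mul_le_mul_of_nonneg_left (mul_le_mul_of_nonneg_right hcs (sq_nonneg _))
                (pow_nonneg (ha0 r) _)
          _ = _ := by
              rw [pow_succ]
              ring
      exact h3.trans h4
    -- relation of the two integrals
    set Q : ℝ := r ^ (k' + 1) * ∫ ω : Sph (k' + 1 + 1), ρ (r • (ω : E (k' + 1 + 1))) ^ p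
      ∂(sig (k' + 1 + 1)) with hQ
    have hQ0 : 0 ≤ Q := mul_nonneg (by positivity)
      (integral_nonneg fun ω => Real.rpow_nonneg (hρ0 _) _)
    have hrk : 0 < r ^ (k' + 1) := by positivity
    have hZQ : Z = (r ^ (k' + 1)) ^ (p - 1) * Q := by
      rw [hQ, ← mul_assoc, hZ, ← integral_const_mul]
      congr 1
      funext ω
      have e3 : ∑ i, (∑ j, f i j r * ev (Y j) (ω : E (k' + 1 + 1))) ^ 2 =
          r ^ (k' + 1) * ρ (r • (ω : E (k' + 1 + 1))) := by
        rw [hρ]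
        simp only
        rw [Finset.mul_sum]
        refine Finset.sum_congr rfl fun i _ => ?_
        unfold vv
        rw [norm_smul_sph hr0, ← hws r hr0, ← mul_pow, Finset.mul_sum]
        congr 1
        refine Finset.sum_congr rfl fun j _ => ?_
        rw [ev_hom (hY j).1, hf, hA]
        ring
      rw [e3, Real.mul_rpow hrk.le (hρ0 _)]
      congr 1
      rw [← Real.rpow_add_one hrk.ne']
      congr 1
      ring
    refine ptwA hk hS (hX0 r) (ha0 r) hr0 hZpow hQ0 ?_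
    have e9 : Z ^ (k' + 1 + 1) =
        ((r ^ (k' + 1)) ^ (p - 1)) ^ (k' + 1 + 1) * Q ^ (k' + 1 + 1) := by
      rw [hZQ]
      exact mul_pow _ _ _
    rw [e9]
    have e4 : ((r ^ (k' + 1)) ^ (p - 1)) ^ (k' + 1 + 1) = r ^ (2 * (k' + 1)) := by
      rw [← Real.rpow_natCast ((r ^ (k' + 1)) ^ (p - 1)), ← Real.rpow_mul hrk.le]
      have e5 : (p - 1) * ((k' + 1 + 1 : ℕ) : ℝ) = ((2 : ℕ) : ℝ) := by
        rw [hp]
        field_simp
        push_cast
        ring
      rw [e5, Real.rpow_natCast, ← pow_mul]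
      congr 1
      ring
    rw [e4]
    ring
  -- integration
  have hKA : 0 < KA k S := by
    unfold KA
    have := Real.pi_pos
    positivity
  have hgi : IntegrableOn (fun r => Real.pi ^ 2 / 4 * X r + a r / r ^ 2) (Ioi 0) :=
    (hop.1.const_mul _).add har
  have hρp : ContinuousOn (fun x => ρ x ^ p) {0}ᶜ := hρc.rpow_const fun x _ => Or.inr hpp.le
  have hρpi : Integrable (fun x => ρ x ^ p) := by
    rw [polar_nonneg hρp fun x => Real.rpow_nonneg (hρ0 x) _]
    refine Integrable.mono' (hgi.const_mul (KA k S)⁻¹) ?_ ?_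
    · apply AEStronglyMeasurable.mul
      · exact (continuous_pow k).aestronglyMeasurable
      · exact sph_meas hρp
    · refine (ae_restrict_mem measurableSet_Ioi).mono fun r hr => ?_
      have hr0 : (0 : ℝ) < r := hr
      have h0 : 0 ≤ r ^ k * ∫ ω : Sph (k + 1), ρ (r • (ω : E (k + 1))) ^ p ∂(sig (k + 1)) :=
        mul_nonneg (by positivity) (integral_nonneg fun ω => Real.rpow_nonneg (hρ0 _) _)
      rw [Real.norm_eq_abs, abs_of_nonneg h0, inv_mul_eq_div, le_div_iff₀ hKA, mul_comm]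
      exact hpt r hr
  refine ⟨hρpi, ?_⟩
  have h5 : KA k S * ∫ x, ρ x ^ p ≤ ∫ r in Ioi 0, (Real.pi ^ 2 / 4 * X r + a r / r ^ 2) := by
    rw [polar_integral hρpi, ← integral_const_mul]
    refine setIntegral_mono_on ?_ hgi measurableSet_Ioi fun r hr => ?_
    · have := (polar_nonneg hρp fun x => Real.rpow_nonneg (hρ0 x) _).1 hρpi
      exact this.const_mul _
    · simp only [smul_eq_mul]
      exact hpt r hr
  refine h5.trans ?_
  rw [integral_add (hop.1.const_mul _) har, integral_const_mul]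
  have e6 : ∫ r in Ioi 0, a r / r ^ 2 =
      ∑ i, ∑ j, cc k (dg j) * ∫ r in Ioi 0, f i j r ^ 2 / r ^ 2 := by
    have e : ∀ r, a r / r ^ 2 = ∑ i, ∑ j, cc k (dg j) * (f i j r ^ 2 / r ^ 2) := by
      intro r
      rw [ha]
      simp only [Finset.sum_div, mul_div_assoc]
    simp only [e]
    rw [integral_finsetSum _ fun i _ => integrable_finsetSum _ fun j _ => (hfr i j).const_mul _]
    refine Finset.sum_congr rfl fun i _ => ?_
    rw [integral_finsetSum _ fun j _ => (hfr i j).const_mul _]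
    exact Finset.sum_congr rfl fun j _ => integral_const_mul _ _
  rw [e6]
  calc Real.pi ^ 2 / 4 * (∫ r in Ioi 0, X r) +
        ∑ i, ∑ j, cc k (dg j) * ∫ r in Ioi 0, f i j r ^ 2 / r ^ 2
      ≤ ∑ i, ∑ j, (∫ r in Ioi 0, f' i j r ^ 2) +
        ∑ i, ∑ j, cc k (dg j) * ∫ r in Ioi 0, f i j r ^ 2 / r ^ 2 :=
        add_le_add hop.2 le_rfl
    _ = ∑ i, ∑ j, ∫ r in Ioi 0, (f' i j r ^ 2 + cc k (dg j) * (f i j r ^ 2 / r ^ 2)) := by
        rw [← Finset.sum_add_distrib]
        refine Finset.sum_congr rfl fun i _ => ?_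
        rw [← Finset.sum_add_distrib]
        refine Finset.sum_congr rfl fun j _ => ?_
        rw [integral_add (hfp i j) ((hfr i j).const_mul _), integral_const_mul]
    _ ≤ ∑ i, ∑ j, ∫ r in Ioi 0, ((f' i j r - (α / r) * f i j r) ^ 2 +
          lam j * (f i j r ^ 2 / r ^ 2)) :=
        Finset.sum_le_sum fun i _ => Finset.sum_le_sum fun j _ => (htot i j).2
    _ = ∑ i, ∫ x, gr2 (vv Y (F i)) x := by
        refine Finset.sum_congr rfl fun i _ => ?_
        rw [polar_integral (hd i), ← integral_finsetSum _ fun j _ => hφ2 i j]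
        refine (setIntegral_congr_fun measurableSet_Ioi fun r hr => ?_).symm
        simp only [smul_eq_mul]
        exact hS2 i r hr

end

end Pool.Agent.K7.H84.AM
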