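import Mathlib

/-!
Interpolation inequality for densities of finitely many orthonormal functions on a compact space.
-/

set_option autoImplicit false

open MeasureTheory Set Filter Topology

namespace Pool.Agent.K7.H84.AM

section basic

variable {S : Type} [TopologicalSpace S] [CompactSpace S] [MeasurableSpace S] [OpensMeasurableSpace S]
  {μ : Measure S} [IsFiniteMeasure μ]

theorem int_cont {F : Type} [NormedAddCommGroup F] [SecondCountableTopologyEither S F]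
    {g : S → F} (hg : Continuous g) : Integrable g μ := by
  obtain ⟨C, hC⟩ := (isCompact_range hg).isBounded.exists_norm_le
  refine Integrable.mono' (integrable_const C) hg.aestronglyMeasurable ?_
  exact Eventually.of_forall fun x => hC _ (mem_range_self x)

/-- the exponential integral is entire -/
theorem exp_diff {h g : S → ℝ} (hh : Continuous h) (hg : Continuous g) :
    Differentiable ℂ (fun ζ : ℂ => ∫ ω, Complex.exp (ζ * h ω) * (g ω : ℂ) ∂μ) := by
  obtain ⟨B, hB⟩ := (isCompact_range hh).isBounded.exists_norm_le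
  obtain ⟨G, hG⟩ := (isCompact_range hg).isBounded.exists_norm_le
  have hB' : ∀ ω, |h ω| ≤ B := fun ω => hB _ (mem_range_self ω)
  have hG' : ∀ ω, |g ω| ≤ G := fun ω => hG _ (mem_range_self ω)
  intro ζ₀
  have hcont : ∀ ζ : ℂ, Continuous (fun ω => Complex.exp (ζ * h ω) * (g ω : ℂ)) := by
    intro ζ
    fun_prop
  have h1 := hasDerivAt_integral_of_dominated_loc_of_deriv_le (𝕜 := ℂ) (μ := μ)
    (F := fun ζ ω => Complex.exp (ζ * h ω) * (g ω : ℂ)) (x₀ := ζ₀)
    (s := Metric.ball ζ₀ 1) (bound := fun _ => Real.exp ((‖ζ₀‖ + 1) * |B|) * |B| * |G|)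
    (F' := fun ζ ω => Complex.exp (ζ * h ω) * (h ω : ℂ) * (g ω : ℂ))
    (Metric.ball_mem_nhds ζ₀ one_pos)
    (Eventually.of_forall fun ζ => (hcont ζ).aestronglyMeasurable)
    (int_cont (hcont ζ₀)) (by
      apply Continuous.aestronglyMeasurable
      fun_prop)
    (Eventually.of_forall fun ω ζ hζ => ?_) (integrable_const _)
    (Eventually.of_forall fun ω ζ hζ => ?_)
  · exact h1.2.differentiableAt
  · rw [norm_mul, norm_mul, Complex.norm_real, Complex.norm_real, Complex.norm_exp]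
    have hζn : ‖ζ‖ ≤ ‖ζ₀‖ + 1 := by
      have := mem_ball_iff_norm.1 hζ
      have h2 := norm_le_norm_add_norm_sub' ζ ζ₀
      linarith
    have e1 : (ζ * (h ω : ℂ)).re ≤ (‖ζ₀‖ + 1) * |B| := by
      calc (ζ * (h ω : ℂ)).re ≤ ‖ζ * (h ω : ℂ)‖ := Complex.re_le_norm _
        _ = ‖ζ‖ * |h ω| := by rw [norm_mul, Complex.norm_real, Real.norm_eq_abs]
        _ ≤ (‖ζ₀‖ + 1) * |B| := by
          apply mul_le_mul hζn ((hB' ω).trans (le_abs_self B)) (abs_nonneg _) (by positivity)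
    gcongr
    · exact (hB' ω).trans (le_abs_self B)
    · exact (hG' ω).trans (le_abs_self G)
  · have h2 : HasDerivAt (fun ζ : ℂ => ζ * (h ω : ℂ)) (h ω : ℂ) ζ := by
      simpa using (hasDerivAt_id ζ).mul_const (h ω : ℂ)
    exact (h2.cexp).mul_const _

variable {J : Type} [Fintype J] [DecidableEq J]

theorem ortho_real {Y : J → S → ℝ} (hY : ∀ j, Continuous (Y j))
    (ho : ∀ j k, ∫ ω, Y j ω * Y k ω ∂μ = if j = k then 1 else 0) (a : J → ℝ) :
    ∫ ω, (∑ j, a j * Y j ω) ^ 2 ∂μ = ∑ j, a j ^ 2 := by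
  have h1 : ∀ ω, (∑ j, a j * Y j ω) ^ 2 = ∑ j, ∑ k, a j * a k * (Y j ω * Y k ω) := by
    intro ω
    rw [sq, Finset.sum_mul_sum]
    refine Finset.sum_congr rfl fun j _ => Finset.sum_congr rfl fun k _ => ?_
    ring
  simp only [h1]
  have hI : ∀ j k, Integrable (fun ω => a j * a k * (Y j ω * Y k ω)) μ := fun j k =>
    int_cont (continuous_const.mul ((hY j).mul (hY k)))
  rw [integral_finsetSum _ fun j _ => integrable_finsetSum _ fun k _ => hI j k]
  refine Finset.sum_congr rfl fun j _ => ?_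
  rw [integral_finsetSum _ fun k _ => hI j k]
  simp only [integral_const_mul, ho]
  simp
  ring

theorem bessel_real {Y : J → S → ℝ} (hY : ∀ j, Continuous (Y j))
    (ho : ∀ j k, ∫ ω, Y j ω * Y k ω ∂μ = if j = k then 1 else 0) {g : S → ℝ} (hg : Continuous g) :
    ∑ k, (∫ ω, g ω * Y k ω ∂μ) ^ 2 ≤ ∫ ω, g ω ^ 2 ∂μ := by
  set t : J → ℝ := fun k => ∫ ω, g ω * Y k ω ∂μ with ht
  have hs : Continuous (fun ω => ∑ k, t k * Y k ω) :=
    continuous_finsetSum _ fun k _ => continuous_const.mul (hY k)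
  have h0 : 0 ≤ ∫ ω, (g ω - ∑ k, t k * Y k ω) ^ 2 ∂μ := integral_nonneg fun ω => sq_nonneg _
  have h1 : ∀ ω, (g ω - ∑ k, t k * Y k ω) ^ 2 =
      g ω ^ 2 - 2 * (∑ k, t k * (g ω * Y k ω)) + (∑ k, t k * Y k ω) ^ 2 := by
    intro ω
    have : ∑ k, t k * (g ω * Y k ω) = g ω * ∑ k, t k * Y k ω := by
      rw [Finset.mul_sum]
      refine Finset.sum_congr rfl fun k _ => ?_
      ring
    rw [this]
    ring
  simp only [h1] at h0
  have hI1 : Integrable (fun ω => g ω ^ 2) μ := int_cont (hg.pow 2)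
  have hI2 : Integrable (fun ω => 2 * (∑ k, t k * (g ω * Y k ω))) μ :=
    int_cont (continuous_const.mul
      (continuous_finsetSum _ fun k _ => continuous_const.mul (hg.mul (hY k))))
  have hI3 : Integrable (fun ω => (∑ k, t k * Y k ω) ^ 2) μ := int_cont (hs.pow 2)
  have e1 : ∫ ω, (g ω ^ 2 - 2 * (∑ k, t k * (g ω * Y k ω)) + (∑ k, t k * Y k ω) ^ 2) ∂μ =
      ∫ ω, g ω ^ 2 ∂μ - ∫ ω, 2 * (∑ k, t k * (g ω * Y k ω)) ∂μ + ∫ ω, (∑ k, t k * Y k ω) ^ 2 ∂μ := by
    rw [← integral_sub hI1 hI2]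
    exact integral_add (hI1.sub hI2) hI3
  have e2 : ∫ ω, (∑ k, t k * (g ω * Y k ω)) ∂μ = ∑ k, t k * ∫ ω, g ω * Y k ω ∂μ := by
    have hIk : ∀ k, Integrable (fun ω => t k * (g ω * Y k ω)) μ := fun k =>
      int_cont (continuous_const.mul (hg.mul (hY k)))
    rw [integral_finsetSum _ fun k _ => hIk k]
    simp only [integral_const_mul]
  rw [e1, ortho_real hY ho, integral_const_mul, e2] at h0
  have h2 : ∑ k, t k * ∫ ω, g ω * Y k ω ∂μ = ∑ k, t k ^ 2 :=
    Finset.sum_congr rfl fun k _ => by rw [sq]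
  rw [h2] at h0
  linarith

/-- orthonormal real functions with complex coefficients -/
theorem ortho_complex {Y : J → S → ℝ} (hY : ∀ j, Continuous (Y j))
    (ho : ∀ j k, ∫ ω, Y j ω * Y k ω ∂μ = if j = k then 1 else 0) (z : J → ℂ) :
    ∫ ω, ‖∑ j, z j * (Y j ω : ℂ)‖ ^ 2 ∂μ = ∑ j, ‖z j‖ ^ 2 := by
  have h1 : ∀ ω, ‖∑ j, z j * (Y j ω : ℂ)‖ ^ 2 =
      (∑ j, (z j).re * Y j ω) ^ 2 + (∑ j, (z j).im * Y j ω) ^ 2 := by
    intro ω
    rw [Complex.sq_norm, Complex.normSq_apply, Complex.re_sum, Complex.im_sum]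
    simp only [Complex.mul_re, Complex.mul_im, Complex.ofReal_re, Complex.ofReal_im, mul_zero,
      sub_zero, zero_add]
    ring
  simp only [h1]
  have hc : ∀ a : J → ℝ, Continuous (fun ω => (∑ j, a j * Y j ω) ^ 2) := fun a =>
    (continuous_finsetSum _ fun k _ => continuous_const.mul (hY k)).pow 2
  have e3 : ∫ ω, ((∑ j, (z j).re * Y j ω) ^ 2 + (∑ j, (z j).im * Y j ω) ^ 2) ∂μ =
      ∫ ω, (∑ j, (z j).re * Y j ω) ^ 2 ∂μ + ∫ ω, (∑ j, (z j).im * Y j ω) ^ 2 ∂μ :=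
    integral_add (int_cont (hc _)) (int_cont (hc _))
  rw [e3, ortho_real hY ho, ortho_real hY ho, ← Finset.sum_add_distrib]
  refine Finset.sum_congr rfl fun j _ => ?_
  rw [Complex.sq_norm, Complex.normSq_apply]
  ring

theorem bessel_complex {Y : J → S → ℝ} (hY : ∀ j, Continuous (Y j))
    (ho : ∀ j k, ∫ ω, Y j ω * Y k ω ∂μ = if j = k then 1 else 0) {g : S → ℂ}
    (hg : Continuous g) :
    ∑ k, ‖∫ ω, g ω * (Y k ω : ℂ) ∂μ‖ ^ 2 ≤ ∫ ω, ‖g ω‖ ^ 2 ∂μ := by
  have hre : Continuous fun ω => (g ω).re := Complex.continuous_re.comp hg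
  have him : Continuous fun ω => (g ω).im := Complex.continuous_im.comp hg
  have h1 : ∀ k, ‖∫ ω, g ω * (Y k ω : ℂ) ∂μ‖ ^ 2 =
      (∫ ω, (g ω).re * Y k ω ∂μ) ^ 2 + (∫ ω, (g ω).im * Y k ω ∂μ) ^ 2 := by
    intro k
    have hI : Integrable (fun ω => g ω * (Y k ω : ℂ)) μ :=
      int_cont (hg.mul (Complex.continuous_ofReal.comp (hY k)))
    rw [Complex.sq_norm, Complex.normSq_apply]
    have e1 : (∫ ω, g ω * (Y k ω : ℂ) ∂μ).re = ∫ ω, (g ω).re * Y k ω ∂μ := by
      have := integral_re hI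
      simp only [RCLike.re_to_complex] at this
      rw [← this]
      refine integral_congr_ae (Eventually.of_forall fun ω => ?_)
      simp [Complex.mul_re]
    have e2 : (∫ ω, g ω * (Y k ω : ℂ) ∂μ).im = ∫ ω, (g ω).im * Y k ω ∂μ := by
      have := integral_im hI
      simp only [RCLike.im_to_complex] at this
      rw [← this]
      refine integral_congr_ae (Eventually.of_forall fun ω => ?_)
      simp [Complex.mul_im]
    rw [e1, e2]
    ring
  simp only [h1]
  have h2 : ∀ ω, ‖g ω‖ ^ 2 = (g ω).re ^ 2 + (g ω).im ^ 2 := by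
    intro ω
    rw [Complex.sq_norm, Complex.normSq_apply]
    ring
  simp only [h2]
  have e3 : ∫ ω, ((g ω).re ^ 2 + (g ω).im ^ 2) ∂μ = ∫ ω, (g ω).re ^ 2 ∂μ + ∫ ω, (g ω).im ^ 2 ∂μ :=
    integral_add (int_cont (hre.pow 2)) (int_cont (him.pow 2))
  rw [Finset.sum_add_distrib, e3]
  exact add_le_add (bessel_real hY ho hre) (bessel_real hY ho him)

/-- the phases -/
noncomputable def xi (c : J → ℝ) (ζ : ℂ) (j : J) : ℂ := Complex.exp ((1 - ζ) / 2 * Real.log (c j))

omit [Fintype J] [DecidableEq J] in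
theorem norm_xi {c : J → ℝ} (hc : ∀ j, 0 < c j) (ζ : ℂ) (j : J) :
    ‖xi c ζ j‖ ^ 2 = c j ^ (1 - ζ.re) := by
  unfold xi
  rw [Complex.norm_exp, ← Real.exp_nat_mul, Real.rpow_def_of_pos (hc j)]
  congr 1
  rw [Complex.mul_re]
  simp
  ring

/-- the interpolating function -/
noncomputable def Phi {I : Type} [Fintype I] (μ : Measure S) (Y : J → S → ℝ) (c : J → ℝ)
    (w : I → J → ℝ) (h : S → ℝ) (ζ : ℂ) : ℂ :=
  ∑ j, ∑ k, ((∑ i, w i j * w i k : ℝ) : ℂ) * (xi c ζ j * xi c ζ k) *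
    ∫ ω, Complex.exp (ζ * h ω) * ((Y j ω * Y k ω : ℝ) : ℂ) ∂μ

variable {I : Type} [Fintype I]

theorem Phi_diff {Y : J → S → ℝ} (hY : ∀ j, Continuous (Y j)) (c : J → ℝ) (w : I → J → ℝ)
    {h : S → ℝ} (hh : Continuous h) : Differentiable ℂ (Phi μ Y c w h) := by
  unfold Phi
  apply Differentiable.fun_sum
  intro j _
  apply Differentiable.fun_sum
  intro k _
  apply Differentiable.mul
  · apply Differentiable.mul (differentiable_const _)
    unfold xi
    fun_prop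
  · exact exp_diff hh ((hY j).mul (hY k))

omit [DecidableEq J] in
theorem Phi_eq {Y : J → S → ℝ} (hY : ∀ j, Continuous (Y j)) (c : J → ℝ) (w : I → J → ℝ)
    {h : S → ℝ} (hh : Continuous h) (ζ : ℂ) :
    Phi μ Y c w h ζ =
      ∑ i, ∫ ω, Complex.exp (ζ * h ω) * (∑ j, (w i j * xi c ζ j) * (Y j ω : ℂ)) ^ 2 ∂μ := by
  have hexp : Continuous fun ω => Complex.exp (ζ * h ω) := by fun_prop
  have hYc : ∀ j, Continuous fun ω => (Y j ω : ℂ) := fun j => Complex.continuous_ofReal.comp (hY j)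
  have h1 : ∀ i ω, Complex.exp (ζ * h ω) * (∑ j, (w i j * xi c ζ j) * (Y j ω : ℂ)) ^ 2 =
      ∑ j, ∑ k, ((w i j * w i k : ℝ) : ℂ) * (xi c ζ j * xi c ζ k) *
        (Complex.exp (ζ * h ω) * ((Y j ω * Y k ω : ℝ) : ℂ)) := by
    intro i ω
    rw [sq, Finset.sum_mul_sum, Finset.mul_sum]
    refine Finset.sum_congr rfl fun j _ => ?_
    rw [Finset.mul_sum]
    refine Finset.sum_congr rfl fun k _ => ?_
    push_cast
    ring
  simp only [h1]
  have hI : ∀ (i : I) (j k : J), Integrable (fun ω => ((w i j * w i k : ℝ) : ℂ) *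
      (xi c ζ j * xi c ζ k) * (Complex.exp (ζ * h ω) * ((Y j ω * Y k ω : ℝ) : ℂ))) μ := by
    intro i j k
    apply int_cont
    apply continuous_const.mul (hexp.mul _)
    exact Complex.continuous_ofReal.comp ((hY j).mul (hY k))
  have h2 : ∀ i, ∫ ω, (∑ j, ∑ k, ((w i j * w i k : ℝ) : ℂ) * (xi c ζ j * xi c ζ k) *
        (Complex.exp (ζ * h ω) * ((Y j ω * Y k ω : ℝ) : ℂ))) ∂μ =
      ∑ j, ∑ k, ((w i j * w i k : ℝ) : ℂ) * (xi c ζ j * xi c ζ k) *
        ∫ ω, (Complex.exp (ζ * h ω) * ((Y j ω * Y k ω : ℝ) : ℂ)) ∂μ := by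
    intro i
    rw [integral_finsetSum _ fun j _ => integrable_finsetSum _ fun k _ => hI i j k]
    refine Finset.sum_congr rfl fun j _ => ?_
    rw [integral_finsetSum _ fun k _ => hI i j k]
    refine Finset.sum_congr rfl fun k _ => ?_
    rw [integral_const_mul]
  rw [Finset.sum_congr rfl fun i _ => h2 i]
  unfold Phi
  have h3 : ∀ G : I → J → J → ℂ, ∑ i, ∑ j, ∑ k, G i j k = ∑ j, ∑ k, ∑ i, G i j k := by
    intro G
    rw [Finset.sum_comm]
    refine Finset.sum_congr rfl fun j _ => ?_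
    rw [Finset.sum_comm]
  rw [h3]
  refine Finset.sum_congr rfl fun j _ => ?_
  refine Finset.sum_congr rfl fun k _ => ?_
  push_cast
  rw [Finset.sum_mul, Finset.sum_mul]

/-- the left line -/
theorem Phi_left {Y : J → S → ℝ} (hY : ∀ j, Continuous (Y j))
    (ho : ∀ j k, ∫ ω, Y j ω * Y k ω ∂μ = if j = k then 1 else 0) {c : J → ℝ} (hc : ∀ j, 0 < c j)
    (w : I → J → ℝ) {h : S → ℝ} (hh : Continuous h) {ζ : ℂ} (hζ : ζ.re = 0) :
    ‖Phi μ Y c w h ζ‖ ≤ ∑ i, ∑ j, c j * w i j ^ 2 := by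
  rw [Phi_eq hY c w hh]
  refine (norm_sum_le _ _).trans (Finset.sum_le_sum fun i _ => ?_)
  refine (norm_integral_le_integral_norm _).trans (le_of_eq ?_)
  have h1 : ∀ ω, ‖Complex.exp (ζ * h ω) * (∑ j, (w i j * xi c ζ j) * (Y j ω : ℂ)) ^ 2‖ =
      ‖∑ j, (w i j * xi c ζ j) * (Y j ω : ℂ)‖ ^ 2 := by
    intro ω
    rw [norm_mul, norm_pow, Complex.norm_exp]
    have : (ζ * (h ω : ℂ)).re = 0 := by
      rw [Complex.mul_re, hζ]
      simp
    rw [this, Real.exp_zero, one_mul]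
  simp only [h1]
  rw [ortho_complex hY ho]
  refine Finset.sum_congr rfl fun j _ => ?_
  rw [norm_mul, mul_pow, norm_xi hc, hζ, Complex.norm_real, Real.norm_eq_abs, sq_abs, sub_zero,
    Real.rpow_one]
  ring

/-- the right line -/
theorem Phi_right {Y : J → S → ℝ} (hY : ∀ j, Continuous (Y j))
    (ho : ∀ j k, ∫ ω, Y j ω * Y k ω ∂μ = if j = k then 1 else 0) {c : J → ℝ} (hc : ∀ j, 0 < c j)
    (w : I → J → ℝ) {h : S → ℝ} (hh : Continuous h) {s M : ℝ}
    (hM : ∀ ω, ∑ j, c j ^ (3 / 2 - s) * Y j ω ^ 2 ≤ M) {ζ : ℂ} (hζ : ζ.re = s / 2) :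
    ‖Phi μ Y c w h ζ‖ ≤ √(∑ j, ∑ k, c j ^ (1 / 2 : ℝ) * (∑ i, w i j * w i k) ^ 2) *
      √(M * ∫ ω, Real.exp (s * h ω) ∂μ) := by
  set R : J → J → ℝ := fun j k => ∑ i, w i j * w i k with hR
  set T : J → J → ℂ := fun j k => ∫ ω, Complex.exp (ζ * h ω) * ((Y j ω * Y k ω : ℝ) : ℂ) ∂μ with hT
  set e : J → ℝ := fun j => c j ^ (1 / 8 : ℝ) with he
  have he0 : ∀ j, 0 < e j := fun j => Real.rpow_pos_of_pos (hc j) _
  have he4 : ∀ j, (e j ^ 2) ^ 2 = c j ^ (1 / 2 : ℝ) := by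
    intro j
    rw [← pow_mul, he, ← Real.rpow_natCast, ← Real.rpow_mul (hc j).le]
    norm_num
  set x : J → ℝ := fun j => ‖xi c ζ j‖ / e j with hx
  have hx0 : ∀ j, 0 ≤ x j := fun j => div_nonneg (norm_nonneg _) (he0 j).le
  have hxe : ∀ j, ‖xi c ζ j‖ = e j * x j := fun j => by
    rw [hx]
    simp only
    rw [mul_div_cancel₀ _ (he0 j).ne']
  have hexp : Continuous fun ω => Complex.exp (ζ * h ω) := by fun_prop
  have h1 : ‖Phi μ Y c w h ζ‖ ≤ ∑ p : J × J, (e p.1 * e p.2 * |R p.1 p.2|) * (x p.1 * x p.2 *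
      ‖T p.1 p.2‖) := by
    unfold Phi
    rw [Fintype.sum_prod_type]
    refine (norm_sum_le _ _).trans (Finset.sum_le_sum fun j _ => ?_)
    refine (norm_sum_le _ _).trans (Finset.sum_le_sum fun k _ => ?_)
    rw [norm_mul, norm_mul, norm_mul, Complex.norm_real, Real.norm_eq_abs, hxe, hxe]
    refine le_of_eq ?_
    simp only [hR, hT]
    ring
  refine h1.trans ?_
  have h2 := Real.sum_mul_le_sqrt_mul_sqrt (Finset.univ : Finset (J × J))
    (fun p => e p.1 * e p.2 * |R p.1 p.2|) (fun p => x p.1 * x p.2 * ‖T p.1 p.2‖)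
  refine h2.trans ?_
  have hRs : ∀ j k, R j k = R k j := by
    intro j k
    rw [hR]
    simp only
    exact Finset.sum_congr rfl fun i _ => mul_comm _ _
  have hTs : ∀ j k, T j k = T k j := by
    intro j k
    rw [hT]
    simp only
    refine integral_congr_ae (Eventually.of_forall fun ω => ?_)
    simp only
    rw [mul_comm (Y j ω)]
  have hsym : ∀ (g : J → ℝ) (F : J → J → ℝ), (∀ j k, F j k = F k j) → (∀ j k, 0 ≤ F j k) →
      ∑ p : J × J, (g p.1 * g p.2) * F p.1 p.2 ≤ ∑ j, ∑ k, g j ^ 2 * F j k := by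
    intro g F hF hF0
    calc ∑ p : J × J, (g p.1 * g p.2) * F p.1 p.2
        ≤ ∑ p : J × J, (g p.1 ^ 2 + g p.2 ^ 2) / 2 * F p.1 p.2 := by
          refine Finset.sum_le_sum fun p _ => ?_
          refine mul_le_mul_of_nonneg_right ?_ (hF0 _ _)
          nlinarith [sq_nonneg (g p.1 - g p.2)]
      _ = ∑ j, ∑ k, g j ^ 2 * F j k := by
          rw [Fintype.sum_prod_type]
          have e4 : ∑ j, ∑ k, g k ^ 2 * F k j = ∑ j, ∑ k, g j ^ 2 * F j k := Finset.sum_comm
          calc ∑ j, ∑ k, (g j ^ 2 + g k ^ 2) / 2 * F j k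
              = ∑ j, ∑ k, ((1 / 2) * (g j ^ 2 * F j k) + (1 / 2) * (g k ^ 2 * F k j)) :=
                Finset.sum_congr rfl fun j _ => Finset.sum_congr rfl fun k _ => by
                  rw [hF k j]
                  ring
            _ = (1 / 2) * (∑ j, ∑ k, g j ^ 2 * F j k) +
                (1 / 2) * ∑ j, ∑ k, g k ^ 2 * F k j := by
                simp only [Finset.sum_add_distrib, Finset.mul_sum]
            _ = _ := by
                rw [e4]
                ring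
  have h3 : ∑ p : J × J, (e p.1 * e p.2 * |R p.1 p.2|) ^ 2 ≤
      ∑ j, ∑ k, c j ^ (1 / 2 : ℝ) * R j k ^ 2 := by
    calc ∑ p : J × J, (e p.1 * e p.2 * |R p.1 p.2|) ^ 2
        = ∑ p : J × J, (e p.1 ^ 2 * e p.2 ^ 2) * R p.1 p.2 ^ 2 := by
          refine Finset.sum_congr rfl fun p _ => ?_
          rw [mul_pow, mul_pow, sq_abs]
      _ ≤ ∑ j, ∑ k, (e j ^ 2) ^ 2 * R j k ^ 2 :=
          hsym (fun j => e j ^ 2) (fun j k => R j k ^ 2) (fun j k => by rw [hRs j k])
            fun j k => sq_nonneg _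
      _ = _ := by simp only [he4]
  have hxi4 : ∀ j, (x j ^ 2) ^ 2 = c j ^ (3 / 2 - s) := by
    intro j
    rw [hx]
    simp only
    rw [div_pow, div_pow, he4, norm_xi hc, hζ, ← Real.rpow_natCast (c j ^ (1 - s / 2)) 2,
      ← Real.rpow_mul (hc j).le, ← Real.rpow_sub (hc j)]
    congr 1
    push_cast
    ring
  have h4 : ∀ j, ∑ k, ‖T j k‖ ^ 2 ≤ ∫ ω, Real.exp (s * h ω) * Y j ω ^ 2 ∂μ := by
    intro j
    have h5 := bessel_complex hY ho (g := fun ω => Complex.exp (ζ * h ω) * (Y j ω : ℂ))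
      (hexp.mul (Complex.continuous_ofReal.comp (hY j)))
    have e1 : ∀ k, ∫ ω, Complex.exp (ζ * h ω) * (Y j ω : ℂ) * (Y k ω : ℂ) ∂μ = T j k := by
      intro k
      rw [hT]
      simp only
      refine integral_congr_ae (Eventually.of_forall fun ω => ?_)
      simp only
      push_cast
      ring
    have e2 : ∀ ω, ‖Complex.exp (ζ * h ω) * (Y j ω : ℂ)‖ ^ 2 = Real.exp (s * h ω) * Y j ω ^ 2 := by
      intro ω
      rw [norm_mul, mul_pow, Complex.norm_exp, Complex.norm_real, Real.norm_eq_abs, sq_abs,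
        ← Real.exp_nat_mul, Complex.mul_re, hζ]
      congr 2
      simp
      ring
    simp only [e1, e2] at h5
    exact h5
  have hIj : ∀ j, Integrable (fun ω => c j ^ (3 / 2 - s) * (Real.exp (s * h ω) * Y j ω ^ 2)) μ := by
    intro j
    apply int_cont
    have := hY j
    fun_prop
  have h6 : ∑ p : J × J, (x p.1 * x p.2 * ‖T p.1 p.2‖) ^ 2 ≤ M * ∫ ω, Real.exp (s * h ω) ∂μ := by
    calc ∑ p : J × J, (x p.1 * x p.2 * ‖T p.1 p.2‖) ^ 2
        = ∑ p : J × J, (x p.1 ^ 2 * x p.2 ^ 2) * ‖T p.1 p.2‖ ^ 2 := by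
          refine Finset.sum_congr rfl fun p _ => ?_
          rw [mul_pow, mul_pow]
      _ ≤ ∑ j, ∑ k, (x j ^ 2) ^ 2 * ‖T j k‖ ^ 2 :=
          hsym (fun j => x j ^ 2) (fun j k => ‖T j k‖ ^ 2) (fun j k => by rw [hTs j k])
            fun j k => sq_nonneg _
      _ ≤ ∑ j, c j ^ (3 / 2 - s) * ∫ ω, Real.exp (s * h ω) * Y j ω ^ 2 ∂μ := by
          refine Finset.sum_le_sum fun j _ => ?_
          rw [← Finset.mul_sum, hxi4]
          exact mul_le_mul_of_nonneg_left (h4 j) (Real.rpow_nonneg (hc j).le _)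
      _ = ∫ ω, ∑ j, c j ^ (3 / 2 - s) * (Real.exp (s * h ω) * Y j ω ^ 2) ∂μ := by
          rw [integral_finsetSum _ fun j _ => hIj j]
          refine Finset.sum_congr rfl fun j _ => ?_
          rw [integral_const_mul]
      _ ≤ ∫ ω, M * Real.exp (s * h ω) ∂μ := by
          refine integral_mono (integrable_finsetSum _ fun j _ => hIj j)
            (int_cont (by fun_prop)) fun ω => ?_
          have e4 : ∑ j, c j ^ (3 / 2 - s) * (Real.exp (s * h ω) * Y j ω ^ 2) =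
              (∑ j, c j ^ (3 / 2 - s) * Y j ω ^ 2) * Real.exp (s * h ω) := by
            rw [Finset.sum_mul]
            refine Finset.sum_congr rfl fun j _ => ?_
            ring
          simp only [e4]
          exact mul_le_mul_of_nonneg_right (hM ω) (Real.exp_pos _).le
      _ = M * ∫ ω, Real.exp (s * h ω) ∂μ := integral_const_mul _ _
  exact mul_le_mul (Real.sqrt_le_sqrt h3) (Real.sqrt_le_sqrt h6) (Real.sqrt_nonneg _)
    (Real.sqrt_nonneg _)

/-- boundedness in the strip -/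
theorem Phi_bdd {Y : J → S → ℝ} (hY : ∀ j, Continuous (Y j)) {c : J → ℝ} (hc : ∀ j, 0 < c j)
    (w : I → J → ℝ) {h : S → ℝ} (hh : Continuous h) (u : ℝ) :
    BddAbove ((norm ∘ Phi μ Y c w h) '' Complex.HadamardThreeLines.verticalClosedStrip 0 u) := by
  obtain ⟨B, hB⟩ := (isCompact_range hh).isBounded.exists_norm_le
  have hB' : ∀ ω, |h ω| ≤ B := fun ω => hB _ (mem_range_self ω)
  set C : J → ℝ := fun j => Real.exp ((1 + |u|) / 2 * |Real.log (c j)|) with hC
  refine ⟨∑ j, ∑ k, |∑ i, w i j * w i k| * (C j * C k) *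
    ∫ ω, Real.exp (|u| * |B|) * |Y j ω * Y k ω| ∂μ, ?_⟩
  rintro _ ⟨ζ, hζ, rfl⟩
  have hζ1 : 0 ≤ ζ.re := hζ.1
  have hζ2 : ζ.re ≤ u := hζ.2
  simp only [Function.comp]
  have hx : ∀ j, ‖xi c ζ j‖ ≤ C j := by
    intro j
    unfold xi
    rw [Complex.norm_exp, hC]
    apply Real.exp_le_exp.2
    rw [Complex.mul_re]
    simp only [Complex.ofReal_re, Complex.ofReal_im, mul_zero, sub_zero]
    have e1 : ((1 - ζ) / 2).re = (1 - ζ.re) / 2 := by simp
    rw [e1]
    calc (1 - ζ.re) / 2 * Real.log (c j) ≤ |(1 - ζ.re) / 2 * Real.log (c j)| := le_abs_self _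
      _ = |(1 - ζ.re) / 2| * |Real.log (c j)| := abs_mul _ _
      _ ≤ (1 + |u|) / 2 * |Real.log (c j)| := by
        refine mul_le_mul_of_nonneg_right ?_ (abs_nonneg _)
        rw [abs_le]
        have := le_abs_self u
        constructor <;> linarith [abs_nonneg u]
  unfold Phi
  refine (norm_sum_le _ _).trans (Finset.sum_le_sum fun j _ => ?_)
  refine (norm_sum_le _ _).trans (Finset.sum_le_sum fun k _ => ?_)
  rw [norm_mul, norm_mul, norm_mul, Complex.norm_real, Real.norm_eq_abs]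
  gcongr
  · exact hx j
  · exact hx k
  · refine (norm_integral_le_integral_norm _).trans ?_
    refine integral_mono ?_ ?_ fun ω => ?_
    · apply Integrable.norm
      apply int_cont
      have := hY j
      have := hY k
      fun_prop
    · apply int_cont
      have := hY j
      have := hY k
      fun_prop
    · simp only
      rw [norm_mul, Complex.norm_real, Complex.norm_exp, Real.norm_eq_abs]
      refine mul_le_mul_of_nonneg_right (Real.exp_le_exp.2 ?_) (abs_nonneg _)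
      rw [Complex.mul_re]
      simp only [Complex.ofReal_re, Complex.ofReal_im, mul_zero, sub_zero]
      calc ζ.re * h ω ≤ |ζ.re * h ω| := le_abs_self _
        _ = |ζ.re| * |h ω| := abs_mul _ _
        _ ≤ |u| * |B| := by
          refine mul_le_mul ?_ ((hB' ω).trans (le_abs_self B)) (abs_nonneg _) (abs_nonneg _)
          rw [abs_of_nonneg hζ1]
          exact hζ2.trans (le_abs_self u)

/-- the interpolated inequality -/
theorem interp {Y : J → S → ℝ} (hY : ∀ j, Continuous (Y j))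
    (ho : ∀ j k, ∫ ω, Y j ω * Y k ω ∂μ = if j = k then 1 else 0) {c : J → ℝ} (hc : ∀ j, 0 < c j)
    (w : I → J → ℝ) {h : S → ℝ} (hh : Continuous h) {s M : ℝ} (hs : 2 ≤ s)
    (hM : ∀ ω, ∑ j, c j ^ (3 / 2 - s) * Y j ω ^ 2 ≤ M) :
    ∫ ω, Real.exp (h ω) * ∑ i, (∑ j, w i j * Y j ω) ^ 2 ∂μ ≤
      (∑ i, ∑ j, c j * w i j ^ 2) ^ (1 - 2 / s) *
        (√(∑ j, ∑ k, c j ^ (1 / 2 : ℝ) * (∑ i, w i j * w i k) ^ 2) *
          √(M * ∫ ω, Real.exp (s * h ω) ∂μ)) ^ (2 / s) := by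
  have hs0 : 0 < s := by linarith
  have h1 := Complex.HadamardThreeLines.norm_le_interp_of_mem_verticalClosedStrip'
    (f := Phi μ Y c w h) (z := (1 : ℂ)) (l := 0) (u := s / 2) (by positivity)
    ⟨by simp, by simp; linarith⟩ (Phi_diff hY c w hh).diffContOnCl (Phi_bdd hY hc w hh _)
    (fun ζ hζ => Phi_left hY ho hc w hh hζ) (fun ζ hζ => Phi_right hY ho hc w hh hM hζ)
  have e1 : ((1 : ℂ).re - 0) / (s / 2 - 0) = 2 / s := by
    simp
  rw [e1] at h1
  refine le_trans ?_ h1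
  have hYs : ∀ i, Continuous fun ω => (∑ j, w i j * Y j ω) ^ 2 := fun i =>
    (continuous_finsetSum _ fun k _ => continuous_const.mul (hY k)).pow 2
  have e2 : Phi μ Y c w h 1 =
      ((∫ ω, Real.exp (h ω) * ∑ i, (∑ j, w i j * Y j ω) ^ 2 ∂μ : ℝ) : ℂ) := by
    rw [Phi_eq hY c w hh, ← integral_complex_ofReal]
    have e3 : ∀ i, ∫ ω, Complex.exp (1 * h ω) * (∑ j, (w i j * xi c 1 j) * (Y j ω : ℂ)) ^ 2 ∂μ =
        ∫ ω, ((Real.exp (h ω) * (∑ j, w i j * Y j ω) ^ 2 : ℝ) : ℂ) ∂μ := by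
      intro i
      refine integral_congr_ae (Eventually.of_forall fun ω => ?_)
      simp only [xi, one_mul]
      push_cast
      simp
    simp only [e3]
    rw [← integral_finsetSum]
    · refine integral_congr_ae (Eventually.of_forall fun ω => ?_)
      simp only
      push_cast
      rw [Finset.mul_sum]
    · intro i _
      apply int_cont
      have := hYs i
      fun_prop
  rw [e2, Complex.norm_real, Real.norm_eq_abs]
  exact le_abs_self _

end basic

end Pool.Agent.K7.H84.AM
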