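import Pool.Agent.K7.H84.AM.Pol
import Pool.Agent.K7.H84.AM.Three

/-!
The inner product of polynomials on the sphere.
-/

set_option autoImplicit false

open MeasureTheory Set Filter Topology Metric

namespace Pool.Agent.K7.H84.AM

open Pool.Agent.R117.RL (E sg om)

theorem sph_int {d : ℕ} {F : Type} [NormedAddCommGroup F] [SecondCountableTopologyEither (Sph d) F]
    {g : Sph d → F} (hg : Continuous g) : Integrable g (sig d) := int_cont hg

theorem ev_sph_cont {d : ℕ} (p : MP d) : Continuous fun ω : Sph d => ev p (ω : E d) :=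
  (ev_continuous p).comp continuous_subtype_val

/-- the inner product on the sphere -/
noncomputable def sp {d : ℕ} (p q : MP d) : ℝ :=
  ∫ ω : Sph d, ev p (ω : E d) * ev q (ω : E d) ∂(sig d)

section
variable {d : ℕ}

theorem sp_comm (p q : MP d) : sp p q = sp q p := by
  unfold sp
  congr 1
  funext ω
  ring

theorem sp_add_left (p q r : MP d) : sp (p + q) r = sp p r + sp q r := by
  unfold sp
  have e : ∫ ω : Sph d, (ev p (ω : E d) * ev r (ω : E d) + ev q (ω : E d) * ev r (ω : E d)) ∂(sig d) =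
      ∫ ω : Sph d, ev p (ω : E d) * ev r (ω : E d) ∂(sig d) +
      ∫ ω : Sph d, ev q (ω : E d) * ev r (ω : E d) ∂(sig d) :=
    integral_add (sph_int ((ev_sph_cont p).mul (ev_sph_cont r)))
    (sph_int ((ev_sph_cont q).mul (ev_sph_cont r)))
  rw [← e]
  congr 1
  funext ω
  rw [ev_add]
  ring

theorem sp_smul_left (a : ℝ) (p r : MP d) : sp (a • p) r = a * sp p r := by
  unfold sp
  rw [← integral_const_mul]
  congr 1
  funext ω
  rw [ev_smul]
  ring

theorem sp_add_right (p q r : MP d) : sp r (p + q) = sp r p + sp r q := by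
  rw [sp_comm, sp_add_left, sp_comm p, sp_comm q]

theorem sp_smul_right (a : ℝ) (p r : MP d) : sp r (a • p) = a * sp r p := by
  rw [sp_comm, sp_smul_left, sp_comm p]

theorem sp_sum_left {ι : Type} (s : Finset ι) (f : ι → MP d) (r : MP d) :
    sp (∑ i ∈ s, f i) r = ∑ i ∈ s, sp (f i) r := by
  classical
  induction s using Finset.induction_on with
  | empty =>
    simp only [Finset.sum_empty]
    unfold sp
    simp [ev_zero]
  | insert a s ha ih => rw [Finset.sum_insert ha, Finset.sum_insert ha, sp_add_left, ih]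

theorem sp_sum_right {ι : Type} (s : Finset ι) (f : ι → MP d) (r : MP d) :
    sp r (∑ i ∈ s, f i) = ∑ i ∈ s, sp r (f i) := by
  rw [sp_comm, sp_sum_left]
  exact Finset.sum_congr rfl fun i _ => sp_comm _ _

theorem sp_self_nonneg (p : MP d) : 0 ≤ sp p p :=
  integral_nonneg fun ω => mul_self_nonneg _

end

section
variable {k : ℕ}

theorem norm_smul_sph {r : ℝ} (hr : 0 < r) (ω : Sph (k + 1)) : ‖r • (ω : E (k + 1))‖ = r := by
  rw [norm_smul, norm_eq_of_mem_sphere, mul_one, Real.norm_eq_abs, abs_of_pos hr]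

/-- integrals of functions which are homogeneous in a general sense -/
theorem hom_radial {h : E (k + 1) → ℝ} {κ ψ : ℝ → ℝ}
    (hh : ∀ r, 0 < r → ∀ ω : Sph (k + 1), h (r • (ω : E (k + 1))) = κ r * h (ω : E (k + 1)))
    (hi : Integrable fun x : E (k + 1) => ψ ‖x‖ * h x) :
    ∫ x : E (k + 1), ψ ‖x‖ * h x =
      (∫ r in Ioi (0 : ℝ), r ^ k * (ψ r * κ r)) * ∫ ω : Sph (k + 1), h (ω : E (k + 1)) ∂(sig (k + 1)) := by
  rw [polar_integral hi, ← integral_mul_const]
  refine setIntegral_congr_fun measurableSet_Ioi fun r hr => ?_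
  simp only [smul_eq_mul]
  have e1 : ∀ ω : Sph (k + 1), ψ ‖r • (ω : E (k + 1))‖ * h (r • (ω : E (k + 1))) =
      (ψ r * κ r) * h (ω : E (k + 1)) := by
    intro ω
    rw [norm_smul_sph hr, hh r hr]
    ring
  simp only [e1]
  rw [integral_const_mul]
  ring

/-- the inner product on the ball -/
noncomputable def bp (p q : MP (k + 1)) : ℝ :=
  ∫ x in closedBall (0 : E (k + 1)) 1, ev p x * ev q x

theorem bp_eq {p q : MP (k + 1)} {l : ℕ} (hp : p.IsHomogeneous l) (hq : q.IsHomogeneous l) :
    bp p q = 1 / ((k : ℝ) + 2 * l + 1) * sp p q := by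
  have e0 : bp p q = ∫ x : E (k + 1), (indicator (Iic (1 : ℝ)) (fun _ => (1 : ℝ)) ‖x‖) *
      (ev p x * ev q x) := by
    unfold bp
    rw [← integral_indicator isClosed_closedBall.measurableSet]
    congr 1
    funext x
    by_cases hx : x ∈ closedBall (0 : E (k + 1)) 1
    · rw [indicator_of_mem hx, indicator_of_mem (by simpa using hx), one_mul]
    · rw [indicator_of_notMem hx, indicator_of_notMem (by simpa using hx), zero_mul]
  rw [e0]
  rw [hom_radial (κ := fun r => r ^ (2 * l)) (h := fun x => ev p x * ev q x)]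
  · unfold sp
    congr 1
    have e1 : ∀ r ∈ Ioi (0 : ℝ), r ^ k * ((Iic (1 : ℝ)).indicator (fun _ => (1 : ℝ)) r * r ^ (2 * l)) =
        (Iic (1 : ℝ)).indicator (fun r => r ^ (k + 2 * l)) r := by
      intro r _
      by_cases hr : r ∈ Iic (1 : ℝ)
      · rw [indicator_of_mem hr, indicator_of_mem hr, pow_add, one_mul]
      · rw [indicator_of_notMem hr, indicator_of_notMem hr, zero_mul, mul_zero]
    rw [setIntegral_congr_fun measurableSet_Ioi e1, setIntegral_indicator measurableSet_Iic,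
      Ioi_inter_Iic, ← intervalIntegral.integral_of_le zero_le_one, integral_pow]
    simp
  · intro r _ ω
    rw [ev_hom hp, ev_hom hq]
    ring
  · have e2 : (fun x : E (k + 1) => (indicator (Iic (1 : ℝ)) (fun _ => (1 : ℝ)) ‖x‖) *
        (ev p x * ev q x)) = indicator (closedBall (0 : E (k + 1)) 1) fun x => ev p x * ev q x := by
      funext x
      by_cases hx : x ∈ closedBall (0 : E (k + 1)) 1
      · rw [indicator_of_mem hx, indicator_of_mem (by simpa using hx), one_mul]
      · rw [indicator_of_notMem hx, indicator_of_notMem (by simpa using hx), zero_mul]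
    rw [e2, integrable_indicator_iff isClosed_closedBall.measurableSet]
    exact ((ev_continuous p).mul (ev_continuous q)).continuousOn.integrableOn_compact
      (isCompact_closedBall _ _)

theorem sp_rot {p q p' q' : MP (k + 1)} {l : ℕ} (hp : p.IsHomogeneous l) (hq : q.IsHomogeneous l)
    (hp' : p'.IsHomogeneous l) (hq' : q'.IsHomogeneous l) (O : E (k + 1) ≃ₗᵢ[ℝ] E (k + 1))
    (h1 : ∀ x, ev p' x = ev p (O x)) (h2 : ∀ x, ev q' x = ev q (O x)) : sp p' q' = sp p q := by
  have h3 : bp p' q' = bp p q := by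
    unfold bp
    simp only [h1, h2]
    have h4 := O.measurePreserving.setIntegral_preimage_emb O.toMeasurableEquiv.measurableEmbedding
      (fun x => ev p x * ev q x) (closedBall (0 : E (k + 1)) 1)
    rw [← h4]
    congr 2
    ext x
    simp
  rw [bp_eq hp hq, bp_eq hp' hq'] at h3
  have h5 : (0 : ℝ) < (k : ℝ) + 2 * l + 1 := by positivity
  exact mul_left_cancel₀ (by positivity) h3

theorem sp_definite {p : MP (k + 1)} {l : ℕ} (hp : p.IsHomogeneous l) (h : sp p p = 0) : p = 0 := by
  have h1 : bp p p = 0 := by rw [bp_eq hp hp, h, mul_zero]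
  unfold bp at h1
  have h2 : IntegrableOn (fun x => ev p x * ev p x) (closedBall (0 : E (k + 1)) 1) :=
    ((ev_continuous p).mul (ev_continuous p)).continuousOn.integrableOn_compact
      (isCompact_closedBall _ _)
  rw [integral_eq_zero_iff_of_nonneg (fun x => mul_self_nonneg _) h2] at h1
  have h3 : (fun x => ev p x * ev p x) =ᵐ[volume.restrict (ball (0 : E (k + 1)) 1)] 0 :=
    ae_restrict_of_ae_restrict_of_subset ball_subset_closedBall h1
  have h4 := Measure.eqOn_open_of_ae_eq h3 isOpen_ball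
    ((ev_continuous p).mul (ev_continuous p)).continuousOn continuousOn_const
  have h5 : ∀ x ∈ ball (0 : E (k + 1)) 1, ev p x = 0 := fun x hx => by
    have := h4 hx
    simpa using this
  apply ev_ext
  intro x
  rw [ev_zero]
  have hpos : 0 < ‖x‖ + 1 := by positivity
  have h6 : (1 / (‖x‖ + 1)) • x ∈ ball (0 : E (k + 1)) 1 := by
    rw [mem_ball_zero_iff, norm_smul, Real.norm_eq_abs, abs_of_pos (by positivity), one_div,
      inv_mul_lt_iff₀ hpos]
    linarith
  have h7 := h5 _ h6
  rw [ev_hom hp] at h7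
  rcases mul_eq_zero.1 h7 with h8 | h8
  · exfalso
    have : (0 : ℝ) < (1 / (‖x‖ + 1)) ^ l := by positivity
    linarith
  · exact h8

/-- the pre-inner product structure -/
noncomputable def core {l : ℕ} (W : Submodule ℝ (MP (k + 1)))
    (hW : W ≤ MvPolynomial.homogeneousSubmodule (Fin (k + 1)) ℝ l) :
    InnerProductSpace.Core ℝ W where
  inner p q := sp p.1 q.1
  conj_inner_symm p q := by
    simp only [conj_trivial]
    exact sp_comm _ _
  re_inner_nonneg p := by
    simp only [RCLike.re_to_real]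
    exact sp_self_nonneg _
  add_left p q r := sp_add_left _ _ _
  smul_left p q r := by
    simp only [conj_trivial]
    exact sp_smul_left _ _ _
  definite p h := Subtype.ext (sp_definite (l := l) (hW p.2) h)

theorem exists_onb {l : ℕ} (W : Submodule ℝ (MP (k + 1)))
    (hW : W ≤ MvPolynomial.homogeneousSubmodule (Fin (k + 1)) ℝ l) :
    ∃ b : Fin (Module.finrank ℝ W) → MP (k + 1), (∀ i, b i ∈ W) ∧
      (∀ i j, sp (b i) (b j) = if i = j then 1 else 0) ∧
      ∀ p ∈ W, p = ∑ i, sp p (b i) • b i := by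
  letI : NormedAddCommGroup W := (core W hW).toNormedAddCommGroup
  letI : InnerProductSpace ℝ W := InnerProductSpace.ofCore (core W hW).toCore
  haveI : FiniteDimensional ℝ (MvPolynomial.homogeneousSubmodule (Fin (k + 1)) ℝ l) :=
    Module.Finite.iff_fg.2 (MvPolynomial.homogeneousSubmodule_fg (Fin (k + 1)) ℝ l)
  haveI : FiniteDimensional ℝ W := Submodule.finiteDimensional_of_le hW
  set b := stdOrthonormalBasis ℝ W with hb
  refine ⟨fun i => (b i).1, fun i => (b i).2, fun i j => ?_, fun p hp => ?_⟩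
  · exact (orthonormal_iff_ite.1 b.orthonormal) i j
  · have h1 := b.sum_repr ⟨p, hp⟩
    have h2 := congrArg Subtype.val h1
    rw [Submodule.coe_sum] at h2
    conv_lhs => rw [show p = ((⟨p, hp⟩ : W) : MP (k + 1)) from rfl, ← h2]
    refine Finset.sum_congr rfl fun i _ => ?_
    rw [Submodule.coe_smul]
    congr 1
    rw [b.repr_apply_apply]
    exact sp_comm _ _

/-- Parseval -/
theorem sp_self_of_onb {m : ℕ} {b : Fin m → MP (k + 1)}
    (hb : ∀ i j, sp (b i) (b j) = if i = j then 1 else 0) (a : Fin m → ℝ) :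
    sp (∑ i, a i • b i) (∑ i, a i • b i) = ∑ i, a i ^ 2 := by
  rw [sp_sum_left]
  refine Finset.sum_congr rfl fun i _ => ?_
  rw [sp_sum_right]
  simp only [sp_smul_left, sp_smul_right, hb]
  simp
  ring

/-- the kernel of the homogeneous polynomials -/
theorem kernel (k l : ℕ) : ∃ K : ℝ,
    K * sg (k + 1) = ((l + k).choose l : ℕ) ∧
    (∀ p : MP (k + 1), p.IsHomogeneous l → ∀ ω : Sph (k + 1), ev p (ω : E (k + 1)) ^ 2 ≤ K * sp p p) ∧
    (∀ ω : Sph (k + 1), ∃ q : MP (k + 1), q.IsHomogeneous l ∧ ev q (ω : E (k + 1)) = K ∧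
      sp q q = K ∧ ∀ p : MP (k + 1), p.IsHomogeneous l → sp p q = ev p (ω : E (k + 1))) := by
  obtain ⟨b, hb1, hb2, hb3⟩ := exists_onb (k := k) (l := l)
    (MvPolynomial.homogeneousSubmodule (Fin (k + 1)) ℝ l) le_rfl
  have hbh : ∀ i, (b i).IsHomogeneous l := fun i => hb1 i
  set κ : Sph (k + 1) → ℝ := fun ω => ∑ i, ev (b i) (ω : E (k + 1)) ^ 2 with hκ
  -- the reproducing polynomial
  set q : Sph (k + 1) → MP (k + 1) := fun ω => ∑ i, ev (b i) (ω : E (k + 1)) • b i with hq
  have hqh : ∀ ω, (q ω).IsHomogeneous l := by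
    intro ω
    have : q ω ∈ MvPolynomial.homogeneousSubmodule (Fin (k + 1)) ℝ l :=
      Submodule.sum_mem _ fun i _ => Submodule.smul_mem _ _ (hb1 i)
    exact this
  have hqω : ∀ ω, ev (q ω) (ω : E (k + 1)) = κ ω := by
    intro ω
    rw [hq, hκ]
    simp only [ev_sum, ev_smul]
    exact Finset.sum_congr rfl fun i _ => (sq _).symm
  have hqq : ∀ ω, sp (q ω) (q ω) = κ ω := fun ω => sp_self_of_onb hb2 _
  have hrep : ∀ (p : MP (k + 1)), p.IsHomogeneous l → ∀ ω, sp p (q ω) = ev p (ω : E (k + 1)) := by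
    intro p hp ω
    rw [hq]
    simp only
    rw [sp_sum_right]
    simp only [sp_smul_right]
    conv_rhs => rw [hb3 p hp, ev_sum]
    refine Finset.sum_congr rfl fun i _ => ?_
    rw [ev_smul]
    ring
  have hcs : ∀ (p : MP (k + 1)), p.IsHomogeneous l → ∀ ω : Sph (k + 1),
      ev p (ω : E (k + 1)) ^ 2 ≤ κ ω * sp p p := by
    intro p hp ω
    have h1 := hb3 p hp
    have h2 : sp p p = ∑ i, sp p (b i) ^ 2 := by
      conv_lhs => rw [h1]
      exact sp_self_of_onb hb2 _
    have h3 : ev p (ω : E (k + 1)) = ∑ i, ev (b i) (ω : E (k + 1)) * sp p (b i) := by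
      conv_lhs => rw [h1, ev_sum]
      refine Finset.sum_congr rfl fun i _ => ?_
      rw [ev_smul]
      ring
    rw [h2, h3]
    exact Finset.sum_mul_sq_le_sq_mul_sq _ _ _
  -- the kernel is constant
  have hle : ∀ ω ω' : Sph (k + 1), κ ω' ≤ κ ω := by
    intro ω ω'
    set O := (ℝ ∙ ((ω : E (k + 1)) - (ω' : E (k + 1))))ᗮ.reflection with hO
    have h1 : O (ω : E (k + 1)) = (ω' : E (k + 1)) := by
      apply Submodule.reflection_sub
      rw [norm_eq_of_mem_sphere, norm_eq_of_mem_sphere]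
    obtain ⟨p, hp, hpe⟩ := exists_comp (hqh ω') (O.toLinearEquiv.toLinearMap)
    have h2 : sp p p = sp (q ω') (q ω') := sp_rot (hqh ω') (hqh ω') hp hp O hpe hpe
    have h3 := hcs p hp ω
    rw [h2, hqq] at h3
    have h4 : ev p (ω : E (k + 1)) = κ ω' := by
      rw [hpe]
      have : (O.toLinearEquiv.toLinearMap) (ω : E (k + 1)) = (ω' : E (k + 1)) := h1
      rw [this, hqω]
    rw [h4] at h3
    have h5 : 0 ≤ κ ω' := Finset.sum_nonneg fun i _ => sq_nonneg _
    rcases h5.eq_or_lt with h6 | h6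
    · rw [← h6]
      exact Finset.sum_nonneg fun i _ => sq_nonneg _
    · nlinarith
  have hne : Nonempty (Sph (k + 1)) := ⟨⟨ee 0, by
    rw [mem_sphere_zero_iff_norm]
    unfold ee
    rw [PiLp.norm_single, norm_one]⟩⟩
  obtain ⟨ω₀⟩ := hne
  have hconst : ∀ ω, κ ω = κ ω₀ := fun ω => le_antisymm (hle _ _) (hle _ _)
  refine ⟨κ ω₀, ?_, fun p hp ω => ?_, fun ω => ⟨q ω, hqh ω, ?_, ?_, fun p hp => hrep p hp ω⟩⟩
  · have h1 : ∫ ω : Sph (k + 1), κ ω ∂(sig (k + 1)) = κ ω₀ * sg (k + 1) := by
      simp only [hconst]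
      rw [integral_const, sig_univ, smul_eq_mul, mul_comm]
    rw [← h1, hκ]
    have hIi : ∀ i, Integrable (fun ω : Sph (k + 1) => ev (b i) (ω : E (k + 1)) ^ 2) (sig (k + 1)) :=
      fun i => sph_int ((ev_sph_cont (b i)).pow 2)
    rw [integral_finsetSum _ fun i _ => hIi i]
    have h2 : ∀ i, ∫ ω : Sph (k + 1), ev (b i) (ω : E (k + 1)) ^ 2 ∂(sig (k + 1)) = 1 := by
      intro i
      have := hb2 i i
      rw [if_pos rfl] at this
      unfold sp at this
      rw [← this]
      congr 1
      funext ω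
      ring
    rw [Finset.sum_congr rfl fun i _ => h2 i]
    simp [finrank_hom]
  · have := hcs p hp ω
    rwa [hconst ω] at this
  · rw [hqω, hconst]
  · rw [hqq, hconst]

end

end Pool.Agent.K7.H84.AM
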