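import Pool.Agent.K7.H84.AM.High

/-!
High dimensions, angular momenta up to a power of the dimension.
-/

set_option autoImplicit false

open MeasureTheory Set Filter Topology Metric

namespace Pool.Agent.K7.H84.AM

open Pool.Agent.R117.RL (E sg om sg_pos pow_frac Kcl grad2 om_pos)

theorem ev1 : ∀ᶠ d : ℕ in atTop,
    51 / 50 * (1 / 5 + √(Real.log d / d) / 2) ^ 2 ≤ 1 / 24 * (1 - 9 * (1 / (d : ℝ))) := by
  have h1 : Tendsto (fun x : ℝ => Real.log x / x) atTop (𝓝 0) := by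
    have := Real.isLittleO_log_id_atTop.tendsto_div_nhds_zero
    simpa using this
  have h2 : Tendsto (fun d : ℕ => Real.log (d : ℝ) / d) atTop (𝓝 0) :=
    h1.comp tendsto_natCast_atTop_atTop
  have h3 : Tendsto (fun d : ℕ => 1 / (d : ℝ)) atTop (𝓝 0) := tendsto_one_div_atTop_nhds_zero_nat
  have h4 : Tendsto (fun d : ℕ => √(Real.log (d : ℝ) / d)) atTop (𝓝 0) := by
    have := (Real.continuous_sqrt.tendsto 0).comp h2
    rwa [Real.sqrt_zero] at this
  have h5 : Tendsto (fun d : ℕ => 51 / 50 * (1 / 5 + √(Real.log (d : ℝ) / d) / 2) ^ 2 -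
      1 / 24 * (1 - 9 * (1 / (d : ℝ)))) atTop
      (𝓝 (51 / 50 * (1 / 5 + 0 / 2) ^ 2 - 1 / 24 * (1 - 9 * 0))) :=
    ((((h4.div_const 2).const_add (1 / 5)).pow 2).const_mul (51 / 50)).sub
      ((tendsto_const_nhds.sub (h3.const_mul 9)).const_mul (1 / 24))
  have h6 : 51 / 50 * (1 / 5 + 0 / 2) ^ 2 - 1 / 24 * (1 - 9 * 0) < (0 : ℝ) := by norm_num
  filter_upwards [h5.eventually (gt_mem_nhds h6)] with d hd
  linarith

theorem ev2 : ∀ᶠ d : ℕ in atTop, 1 + 3 / 2 * Real.log d ≤ (d : ℝ) ^ (1 / 50 : ℝ) := by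
  have h1 : Tendsto (fun d : ℕ => (d : ℝ) ^ (1 / 100 : ℝ)) atTop atTop :=
    (tendsto_rpow_atTop (by norm_num)).comp tendsto_natCast_atTop_atTop
  filter_upwards [h1.eventually_ge_atTop 151] with d hd
  have hd0 : (0 : ℝ) ≤ d := Nat.cast_nonneg d
  have h2 := Real.log_le_rpow_div hd0 (show (0 : ℝ) < 1 / 100 by norm_num)
  have h3 : (d : ℝ) ^ (1 / 50 : ℝ) = (d : ℝ) ^ (1 / 100 : ℝ) * (d : ℝ) ^ (1 / 100 : ℝ) := by
    rw [← Real.rpow_add_of_nonneg hd0 (by norm_num) (by norm_num)]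
    norm_num
  rw [h3]
  have h4 : (d : ℝ) ^ (1 / 100 : ℝ) / (1 / 100) = 100 * (d : ℝ) ^ (1 / 100 : ℝ) := by ring
  rw [h4] at h2
  nlinarith

/-- **high dimension, angular momenta at most `d^(3/2) / (5 √(log d))`** -/
theorem wide : ∀ᶠ d : ℕ in atTop, ∀ L : ℕ, (L : ℝ) ≤ (d : ℝ) ^ (3 / 2 : ℝ) / (5 * √(Real.log d)) →
    AngularBound d {l | l ≤ L} (Kcl d) := by
  filter_upwards [ev1, ev2, eventually_ge_atTop 9] with d hd1 hd2 hd9 L hL
  obtain ⟨n, rfl⟩ : ∃ n, d = n + 2 + 1 := ⟨d - 3, by omega⟩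
  have hn : 6 ≤ n := by omega
  have hn' : (6 : ℝ) ≤ n := by exact_mod_cast hn
  set D : ℝ := ((n + 2 + 1 : ℕ) : ℝ) with hD
  have hDn : D = (n : ℝ) + 3 := by rw [hD]; push_cast; ring
  have hD9 : 9 ≤ D := by linarith
  have hD0 : 0 < D := by linarith
  have hlog : 1 ≤ Real.log D := by
    rw [Real.le_log_iff_exp_le hD0]
    have := Real.exp_one_lt_d9
    linarith
  have hmu : ∀ l : ℕ, mu (n + 2) l = l + (D - 2) / 2 := by
    intro l
    unfold mu
    rw [hDn]
    push_cast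
    ring
  have hl0 : ∀ l : ℕ, (0 : ℝ) ≤ l := fun l => Nat.cast_nonneg l
  have hmu1 : ∀ l : ℕ, (l : ℝ) + 1 ≤ mu (n + 2) l := fun l => by
    rw [hmu]
    linarith
  have hmu3 : ∀ l : ℕ, 3 ≤ mu (n + 2) l := fun l => by
    rw [hmu]
    linarith [hl0 l]
  have hc0 : ∀ l : ℕ, 0 < cc (n + 2) l := fun l => by
    rw [cc_mu]
    nlinarith [hmu3 l]
  -- the exponent
  set b : ℝ := ((n : ℝ) + 2) * n * (n - 2) / 24 with hb
  have hb0 : 0 ≤ b := by
    rw [hb]
    have : (0 : ℝ) ≤ (n : ℝ) - 2 := by linarith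
    positivity
  set m := mu (n + 2) L with hm
  have hm0 : 0 < m := by linarith [hmu3 L]
  set s := √(Real.log D) with hs
  have hs0 : 0 < s := Real.sqrt_pos.2 (by linarith)
  have hs2 : s ^ 2 = Real.log D := Real.sq_sqrt (by linarith)
  set r := √D with hr
  have hr0 : 0 < r := Real.sqrt_pos.2 hD0
  have hr2 : r ^ 2 = D := Real.sq_sqrt hD0.le
  have hr3 : D ^ (3 / 2 : ℝ) = r ^ 3 := by
    rw [hr, Real.sqrt_eq_rpow, ← Real.rpow_natCast, ← Real.rpow_mul hD0.le]
    norm_num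
  rw [hr3] at hL
  have hsr : √(Real.log D / D) = s / r := Real.sqrt_div' _ hD0.le
  rw [hsr] at hd1
  have hm2 : m ≤ r ^ 3 / s * (1 / 5 + s / r / 2) := by
    rw [hm, hmu]
    have e : r ^ 3 / s * (1 / 5 + s / r / 2) = r ^ 3 / (5 * s) + r ^ 2 / 2 := by
      field_simp
    rw [e, hr2]
    linarith
  have hexp : 51 / 50 * Real.log D ≤ b / m ^ 2 := by
    rw [le_div_iff₀ (by positivity)]
    have h1 : m ^ 2 ≤ (r ^ 3 / s * (1 / 5 + s / r / 2)) ^ 2 := pow_le_pow_left₀ hm0.le hm2 2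
    have h2 : Real.log D * (r ^ 3 / s * (1 / 5 + s / r / 2)) ^ 2 = D ^ 3 * (1 / 5 + s / r / 2) ^ 2 := by
      rw [← hs2, ← hr2]
      field_simp
    have h3 : (D ^ 3 - 9 * D ^ 2) / 24 ≤ b := by
      rw [hb]
      have e : (n : ℝ) = D - 3 := by rw [hDn]; ring
      rw [e]
      have : (D - 3 + 2) * (D - 3) * (D - 3 - 2) = D ^ 3 - 9 * D ^ 2 + 23 * D - 15 := by ring
      rw [this]
      linarith
    have h4 : D ^ 3 * (1 / 24 * (1 - 9 * (1 / D))) = (D ^ 3 - 9 * D ^ 2) / 24 := by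
      field_simp
    calc 51 / 50 * Real.log D * m ^ 2
        ≤ 51 / 50 * Real.log D * (r ^ 3 / s * (1 / 5 + s / r / 2)) ^ 2 :=
          mul_le_mul_of_nonneg_left h1 (by linarith)
      _ = D ^ 3 * (51 / 50 * (1 / 5 + s / r / 2) ^ 2) := by
          rw [mul_assoc, h2]
          ring
      _ ≤ D ^ 3 * (1 / 24 * (1 - 9 * (1 / D))) := mul_le_mul_of_nonneg_left hd1 (by positivity)
      _ ≤ b := by rw [h4]; exact h3
  have hL1 : Real.log ((L : ℝ) + 1) ≤ 3 / 2 * Real.log D := by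
    have h1 : (L : ℝ) + 1 ≤ D ^ (3 / 2 : ℝ) := by
      rw [hr3]
      have hr3' : 3 ≤ r := by
        rw [hr]
        apply Real.le_sqrt_of_sq_le
        linarith
      have h2 : r ^ 3 / (5 * s) ≤ r ^ 3 / 5 := by
        apply div_le_div_of_nonneg_left (by positivity) (by norm_num)
        have : 1 ≤ s := by
          rw [hs]
          apply Real.le_sqrt_of_sq_le
          linarith
        linarith
      have h3 : 27 ≤ r ^ 3 := by
        have := pow_le_pow_left₀ (by norm_num) hr3' 3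
        linarith
      linarith
    have h4 := Real.log_le_log (by positivity) h1
    rwa [Real.log_rpow hD0] at h4
  -- the summands
  have hV : ∀ l : ℕ, l ≤ L → V n l / √(cc (n + 2) l) ≤
      2 * Real.exp (-(b / m ^ 2)) * (1 / ((l : ℝ) + 1)) := by
    intro l hl
    have hml := hmu3 l
    set ml := mu (n + 2) l with hmld
    have hml0 : 0 < ml := by linarith
    have hlm : ml ≤ m := by
      rw [hmld, hm, hmu, hmu]
      have : (l : ℝ) ≤ L := by exact_mod_cast hl
      linarith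
    set q := 1 - 1 / (4 * ml ^ 2) with hq
    have hml2 : 9 ≤ ml ^ 2 := by nlinarith
    have hq3 : 3 / 4 ≤ q := by
      have : 1 / (4 * ml ^ 2) ≤ 1 / 36 := one_div_le_one_div_of_le (by norm_num) (by linarith)
      linarith
    have hq0 : 0 < q := by linarith
    have hcq : cc (n + 2) l = ml ^ 2 * q := by
      rw [cc_mu, hq, ← hmld]
      field_simp
    have h1 : V n l ≤ q⁻¹ * Real.exp (-(b / m ^ 2)) := by
      refine (V_bound (by linarith)).trans ?_
      apply mul_le_mul_of_nonneg_left _ (inv_nonneg.2 hq0.le)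
      apply Real.exp_le_exp.2
      rw [neg_le_neg_iff]
      have e : ((n : ℝ) + 2) * n * (n - 2) / (24 * ml ^ 2) = b / ml ^ 2 := by
        rw [hb]
        field_simp
      rw [← hmld, e]
      apply div_le_div_of_nonneg_left hb0 (by positivity)
      exact pow_le_pow_left₀ hml0.le hlm 2
    have hE := Real.exp_pos (-(b / m ^ 2))
    rw [div_le_iff₀ (Real.sqrt_pos.2 (hc0 l))]
    refine h1.trans ?_
    have h2 : q⁻¹ ≤ 2 * (1 / ml) * √(cc (n + 2) l) := by
      apply le_of_sq_le_sq _ (by positivity)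
      rw [mul_pow, mul_pow, Real.sq_sqrt (hc0 l).le, hcq, inv_pow, inv_le_iff_one_le_mul₀ (by positivity)]
      have e : 2 ^ 2 * (1 / ml) ^ 2 * (ml ^ 2 * q) * q ^ 2 = 4 * q ^ 3 := by
        field_simp
        ring
      rw [e]
      have : (3 / 4) ^ 3 ≤ q ^ 3 := pow_le_pow_left₀ (by norm_num) hq3 3
      linarith
    have h3 : 1 / ml ≤ 1 / ((l : ℝ) + 1) := one_div_le_one_div_of_le (by linarith [hl0 l]) (hmu1 l)
    calc q⁻¹ * Real.exp (-(b / m ^ 2))
        ≤ (2 * (1 / ml) * √(cc (n + 2) l)) * Real.exp (-(b / m ^ 2)) :=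
          mul_le_mul_of_nonneg_right h2 hE.le
      _ ≤ (2 * (1 / ((l : ℝ) + 1)) * √(cc (n + 2) l)) * Real.exp (-(b / m ^ 2)) := by
          apply mul_le_mul_of_nonneg_right _ hE.le
          apply mul_le_mul_of_nonneg_right _ (Real.sqrt_nonneg _)
          linarith
      _ = _ := by ring
  have hsg := sg_pos (Nat.succ_pos (n + 2))
  rw [Nat.succ_eq_add_one] at hsg
  have hLl : 0 ≤ Real.log ((L : ℝ) + 1) := Real.log_nonneg (by linarith [hl0 L])
  have hE := Real.exp_pos (-(b / m ^ 2))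
  have hfin : AngularBound (n + 2 + 1) {l | l ≤ L} (1 * Kcl (n + 2 + 1)) := by
    refine bound_theta (by omega) _ (W := 2 * Real.exp (-(b / m ^ 2)) * (1 + Real.log ((L : ℝ) + 1)))
      (fun l _ => hc0 l) (by positivity) (fun S hS => ?_) ?_
    · have h1 : ∀ l ∈ S, cc (n + 2) l ^ (-((n + 2 : ℕ) : ℝ) / 2) * (nh (n + 2) l / sg (n + 2 + 1)) ≤
          2 / ((n + 2 - 1).factorial * sg (n + 2 + 1)) *
            (2 * Real.exp (-(b / m ^ 2)) * (1 / ((l : ℝ) + 1))) := by
        intro l hl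
        rw [term_eq (hc0 l), show n + 2 - 1 = n + 1 by omega]
        apply mul_le_mul_of_nonneg_left _ (by positivity)
        exact hV l (hS hl)
      refine (Finset.sum_le_sum h1).trans ?_
      rw [← Finset.mul_sum, ← Finset.mul_sum]
      apply mul_le_mul_of_nonneg_left _ (by positivity)
      apply mul_le_mul_of_nonneg_left _ (by positivity)
      have h3 : S ⊆ Finset.range (L + 1) := fun l hl => Finset.mem_range.2 (Nat.lt_succ_of_le (hS hl))
      have h4 : ∑ l ∈ S, 1 / ((l : ℝ) + 1) ≤ ∑ l ∈ Finset.range (L + 1), 1 / ((l : ℝ) + 1) :=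
        Finset.sum_le_sum_of_subset_of_nonneg h3 fun l _ _ => by
          have := hl0 l
          positivity
      refine h4.trans ?_
      have h5 := harmonic_le_one_add_log (L + 1)
      unfold harmonic at h5
      push_cast at h5
      simpa only [one_div] using h5
    · have hBB := BB_ge (n + 2) (by omega)
      have e1 : (((n + 2 : ℕ) : ℝ) + 1) = D := by rw [hDn]; push_cast; ring
      rw [e1] at hBB
      have hD2 : 0 < D ^ 2 := by positivity
      have h1 : (1 + Real.log ((L : ℝ) + 1)) * D ≤ Real.exp (b / m ^ 2) := by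
        have h2 : 1 + Real.log ((L : ℝ) + 1) ≤ D ^ (1 / 50 : ℝ) := by linarith
        have h3 : D ^ (1 / 50 : ℝ) * D = Real.exp (51 / 50 * Real.log D) := by
          rw [← Real.rpow_add_one hD0.ne', mul_comm, ← Real.rpow_def_of_pos hD0]
          norm_num
        calc (1 + Real.log ((L : ℝ) + 1)) * D ≤ D ^ (1 / 50 : ℝ) * D :=
              mul_le_mul_of_nonneg_right h2 hD0.le
          _ = Real.exp (51 / 50 * Real.log D) := h3
          _ ≤ _ := Real.exp_le_exp.2 hexp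
      have h4 : 2 * Real.exp (-(b / m ^ 2)) * (1 + Real.log ((L : ℝ) + 1)) * D ≤ 2 := by
        calc 2 * Real.exp (-(b / m ^ 2)) * (1 + Real.log ((L : ℝ) + 1)) * D
            = 2 * Real.exp (-(b / m ^ 2)) * ((1 + Real.log ((L : ℝ) + 1)) * D) := by ring
          _ ≤ 2 * Real.exp (-(b / m ^ 2)) * Real.exp (b / m ^ 2) :=
              mul_le_mul_of_nonneg_left h1 (by positivity)
          _ = 2 := by rw [mul_assoc, ← Real.exp_add, neg_add_cancel, Real.exp_zero, mul_one]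
      have h5 : (2 * Real.exp (-(b / m ^ 2)) * (1 + Real.log ((L : ℝ) + 1)) * D) ^ 2 ≤ 2 ^ 2 :=
        pow_le_pow_left₀ (by positivity) h4 2
      rw [one_pow, one_mul]
      by_contra hcon
      rw [not_le] at hcon
      have := mul_lt_mul_of_pos_right hcon hD2
      nlinarith
  rwa [one_mul] at hfin

end Pool.Agent.K7.H84.AM
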